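import Pool.Agent.MP_5daf37_lc.DH.E

/-!
Local volumes of systems of column vectors and their submodularity.
-/

open Matrix

namespace Pool.Agent.MP_5daf37_lc.WF

variable {E κ : Type} [Field E] [Fintype κ] (a : AbsoluteValue E ℝ) (co : (κ → E) → Prop)
  {z z' z'' : Type} [Fintype z] [DecidableEq z] [Fintype z'] [DecidableEq z'] [Fintype z'']
  [DecidableEq z'']

/-- The columns are independent. -/
def Ind (B : Matrix κ z E) : Prop := ∃ π : Matrix z κ E, π * B = 1

/-- All columns lie in the unit ball. -/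
def Co {z : Type} (u : Matrix κ z E) : Prop := ∀ j, co fun i => u i j

/-- A frame of volume one. -/
def Fr (B : Matrix κ z E) : Prop :=
  Co co B ∧ ∃ π : Matrix z κ E, π * B = 1 ∧ ∀ u : Matrix κ z E, Co co u → a (π * u).det ≤ 1

open Classical in
/-- The volume of a system of columns. -/
noncomputable def vol (B : Matrix κ z E) : ℝ :=
  if h : ∃ g : Matrix z z E, ∃ B', Fr a co B' ∧ B = B' * g then a h.choose.det else 0

/-- Frames exist and can be extended. -/
def Ax : Prop := ∀ (z : Type) [Fintype z] [DecidableEq z] (u : Matrix κ z E), Ind u →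
  ∃ (u' : Matrix κ z E) (g : Matrix z z E) (π : Matrix z κ E), u = u' * g ∧ Fr a co u' ∧
    π * u' = 1 ∧ ∀ (z' : Type) [Fintype z'] [DecidableEq z'] (v : Matrix κ z' E), Ind v →
      π * v = 0 → ∃ (v' : Matrix κ z' E) (g' : Matrix z' z' E), v = v' * g' ∧
        Fr a co (fromCols u' v')

variable {a co}

theorem Fr.le {B u : Matrix κ z E} {g g' : Matrix z z E} (h : Fr a co B) (hu : Co co u)
    (e : B * g = u * g') : a g.det ≤ a g'.det := by
  obtain ⟨-, π, h1, h2⟩ := h
  have : g = π * u * g' := by rw [Matrix.mul_assoc, ← e, ← Matrix.mul_assoc, h1, Matrix.one_mul]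
  rw [this, det_mul, map_mul]
  exact mul_le_of_le_one_left (a.nonneg _) (h2 u hu)

theorem vol_eq {B : Matrix κ z E} (h : Fr a co B) (g : Matrix z z E) :
    vol a co (B * g) = a g.det := by
  have h0 : ∃ g' : Matrix z z E, ∃ B', Fr a co B' ∧ B * g = B' * g' := ⟨g, B, h, rfl⟩
  rw [vol, dif_pos h0]
  obtain ⟨B', h1, h2⟩ := h0.choose_spec
  exact le_antisymm (h1.le h.1 h2.symm) (h.le h1.1 h2)

theorem vol_nonneg (B : Matrix κ z E) : 0 ≤ vol a co B := by
  rw [vol]
  split_ifs
  exacts [a.nonneg _, le_rfl]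

theorem Fr.vol {B : Matrix κ z E} (h : Fr a co B) : vol a co B = 1 := by
  simpa using vol_eq h 1

theorem Ind.det {B : Matrix κ z E} {g : Matrix z z E} (h : Ind (B * g)) : g.det ≠ 0 := by
  obtain ⟨π, h⟩ := h
  exact (isUnit_det_of_left_inverse ((Matrix.mul_assoc π B g).trans h)).ne_zero

theorem vol_le (hA : Ax a co) {u : Matrix κ z E} (hu : Co co u) {g : Matrix z z E}
    (h : Ind (u * g)) : vol a co (u * g) ≤ a g.det := by
  obtain ⟨B, g', -, e, h1, -⟩ := hA z _ h
  rw [e, vol_eq h1]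
  exact h1.le hu e.symm

theorem vol_mul (hA : Ax a co) {B : Matrix κ z E} (h : Ind B) (g : Matrix z z E) :
    vol a co (B * g) = vol a co B * a g.det := by
  obtain ⟨B', g', -, rfl, h1, -⟩ := hA z _ h
  rw [Matrix.mul_assoc, vol_eq h1, vol_eq h1, det_mul, map_mul]

theorem vol_pos (hA : Ax a co) {B : Matrix κ z E} (h : Ind B) : 0 < vol a co B := by
  obtain ⟨B', g', -, rfl, h1, -⟩ := hA z _ h
  rw [vol_eq h1]
  exact a.pos h.det

theorem Fr.re {B : Matrix κ z E} (h : Fr a co B) (e : z' ≃ z) : Fr a co (B.submatrix id e) := by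
  obtain ⟨h0, π, h1, h2⟩ := h
  refine ⟨fun j => h0 (e j), π.submatrix e id, ?_, fun u hu => ?_⟩
  · rw [← submatrix_one_equiv e, ← h1]; rfl
  · have := h2 (u.submatrix id e.symm) fun j => hu (e.symm j)
    rw [← det_submatrix_equiv_self e] at this
    convert this using 3
    ext i j
    simp [mul_apply]

theorem vol_re (hA : Ax a co) {B : Matrix κ z E} (h : Ind B) (e : z' ≃ z) :
    vol a co (B.submatrix id e) = vol a co B := by
  obtain ⟨B', g', -, rfl, h1, -⟩ := hA z _ h
  rw [vol_eq h1, ← det_submatrix_equiv_self e, ← vol_eq (h1.re e), submatrix_mul_equiv]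

theorem submod (hA : Ax a co) {u : Matrix κ z E} {v : Matrix κ z' E} {w : Matrix κ z'' E}
    (h : Ind (fromCols (fromCols u v) w)) :
    vol a co u * vol a co (fromCols (fromCols u v) w) ≤
      vol a co (fromCols u v) * vol a co (fromCols u w) := by
  obtain ⟨Q, hQ⟩ := id h
  have hq := fun i j => congrFun (congrFun hQ i) j
  have q1 : Ind u := ⟨Q.submatrix (Sum.inl ∘ Sum.inl) id, by
    ext i j; simpa [mul_apply, one_apply] using hq (.inl (.inl i)) (.inl (.inl j))⟩
  obtain ⟨u', g, π, rfl, f1, p1, ex⟩ := hA z u q1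
  have key : ∀ {y : Type} [Fintype y] [DecidableEq y] (v : Matrix κ y E) (q : Matrix y κ E),
      q * (u' * g) = 0 → q * v = 1 → ∃ (v' : Matrix κ y E) (g' : Matrix y y E),
        v = u' * (π * v) + v' * g' ∧ Co co v' ∧
          vol a co (fromCols (u' * g) v) = a g.det * a g'.det := fun v q k1 k2 => by
    have k3 : q * u' = 0 := by
      rw [← Matrix.mul_one (q * u'), ← mul_nonsing_inv g (Ne.isUnit q1.det), ← Matrix.mul_assoc,
        Matrix.mul_assoc q, k1, Matrix.zero_mul]
    obtain ⟨v', g', e, f2⟩ := ex _ (v - u' * (π * v))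
      ⟨q, by rw [Matrix.mul_sub, k2, ← Matrix.mul_assoc, k3, Matrix.zero_mul, sub_zero]⟩
      (by rw [Matrix.mul_sub, ← Matrix.mul_assoc π u', p1, Matrix.one_mul, sub_self])
    have e2 : v = u' * (π * v) + v' * g' := by rw [← e]; abel
    refine ⟨v', g', e2, fun j => f2.1 (.inr j), ?_⟩
    rw [← map_mul, ← det_fromBlocks_zero₂₁ g (π * v) g', ← vol_eq f2, fromCols_mul_fromBlocks,
      ← e2]
    simp
  obtain ⟨v', gv, e1, c1, s1⟩ := key v (Q.submatrix (Sum.inl ∘ Sum.inr) id)
    (by ext i j; simpa [mul_apply, one_apply] using hq (.inl (.inr i)) (.inl (.inl j)))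
    (by ext i j; simpa [mul_apply, one_apply] using hq (.inl (.inr i)) (.inl (.inr j)))
  obtain ⟨w', gw, e2, c2, s2⟩ := key w (Q.submatrix Sum.inr id)
    (by ext i j; simpa [mul_apply, one_apply] using hq (.inr i) (.inl (.inl j)))
    (by ext i j; simpa [mul_apply, one_apply] using hq (.inr i) (.inr j))
  have e3 : fromCols (fromCols (u' * g) v) w = fromCols (fromCols u' v') w' *
      fromBlocks (fromBlocks g (π * v) 0 gv) (fromRows (π * w) 0) 0 gw := by
    rw [fromCols_mul_fromBlocks, fromCols_mul_fromBlocks, fromCols_mul_fromRows]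
    simp only [Matrix.mul_zero, add_zero, ← e1, ← e2]
  have s3 := vol_le hA (u := fromCols (fromCols u' v') w') (by
    rintro ((j | j) | j)
    exacts [f1.1 j, c1 j, c2 j]) (e3 ▸ h)
  rw [← e3, det_fromBlocks_zero₂₁, det_fromBlocks_zero₂₁, map_mul, map_mul] at s3
  rw [s1, s2, vol_eq f1]
  exact (mul_le_mul_of_nonneg_left s3 (a.nonneg _)).trans_eq (by ring)

/-- The unit ball of a non-archimedean absolute value. -/
def coF (a : AbsoluteValue E ℝ) (y : κ → E) : Prop := ∀ i, a (y i) ≤ 1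

section
variable (hn : IsNonarchimedean a)
include hn

omit [Fintype κ] in
theorem sum_le {s : Finset κ} {f : κ → E} (h : ∀ i, a (f i) ≤ 1) : a (∑ i ∈ s, f i) ≤ 1 := by
  classical
  induction s using Finset.induction_on with
  | empty => simp
  | insert i s hi ih => rw [Finset.sum_insert hi]; exact (hn _ _).trans (max_le (h i) ih)

omit [DecidableEq z] in
theorem mul_int {l m : Type} {A : Matrix l z E} {B : Matrix z m E} (hA : ∀ i j, a (A i j) ≤ 1)
    (hB : ∀ i j, a (B i j) ≤ 1) (i : l) (j : m) : a ((A * B) i j) ≤ 1 :=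
  sum_le hn fun k => (map_mul a _ _).trans_le (mul_le_one₀ (hA i k) (a.nonneg _) (hB k j))

theorem det_int {A : Matrix z z E} (hA : ∀ i j, a (A i j) ≤ 1) : a A.det ≤ 1 := by
  rw [det_apply']
  refine sum_le hn fun s => ?_
  rw [map_mul, map_prod]
  refine mul_le_one₀ ?_ (by positivity) (Finset.prod_le_one (fun _ _ => a.nonneg _) fun i _ => hA _ _)
  rcases Int.units_eq_one_or (Equiv.Perm.sign s) with h | h <;> simp [h]

theorem frF {B : Matrix κ z E} {π : Matrix z κ E} (hB : ∀ i j, a (B i j) ≤ 1)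
    (hπ : ∀ i j, a (π i j) ≤ 1) (h : π * B = 1) : Fr a (coF a) B :=
  ⟨fun j i => hB i j, π, h, fun _ hu => det_int hn (mul_int hn hπ fun i j => hu j i)⟩

end

theorem normF {B : Matrix κ z E} (h : Ind B) : ∃ (B' : Matrix κ z E) (g : Matrix z z E)
    (π : Matrix z κ E), B = B' * g ∧ (∀ i j, a (B' i j) ≤ 1) ∧ (∀ i j, a (π i j) ≤ 1) ∧
      π * B' = 1 := by
  classical
  obtain ⟨x, -, hx⟩ := Finset.exists_max_image (Finset.univ : Finset (z → κ))
    (fun x => a (B.submatrix x id).det) (by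
      obtain ⟨π, h⟩ := h
      refine ⟨fun j => Classical.choice ?_, Finset.mem_univ _⟩
      by_contra h0
      rw [not_nonempty_iff] at h0
      simpa [mul_apply] using congrFun (congrFun h j) j)
  have h0 : (B.submatrix x id).det ≠ 0 := by
    obtain ⟨π, h⟩ := h
    have r1 : Fintype.card z ≤ B.rank := by
      simpa [h] using rank_mul_le_right π B
    obtain ⟨x', hx'⟩ := FC.exists_rows r1
    let e := Fintype.equivFin z
    have r2 : (B.submatrix (x' ∘ e) id).det ≠ 0 :=
      ((isUnit_iff_isUnit_det _).1 (linearIndependent_rows_iff_isUnit.1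
        (hx'.comp e e.injective))).ne_zero
    exact fun h1 => (a.pos r2).not_ge (by simpa [h1] using hx (x' ∘ e) (Finset.mem_univ _))
  set g := B.submatrix x id with hg
  have e1 : ∀ M : Matrix κ z E, (1 : Matrix κ κ E).submatrix x id * M = M.submatrix x id :=
    fun M => by ext i j; simp [mul_apply, one_apply]
  refine ⟨B * g⁻¹, g, (1 : Matrix κ κ E).submatrix x id, by
    rw [Matrix.mul_assoc, nonsing_inv_mul g h0.isUnit, Matrix.mul_one], fun i j => ?_,
    fun i j => ?_, by rw [← Matrix.mul_assoc, e1, ← hg, mul_nonsing_inv g h0.isUnit]⟩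
  · have e2 : g.det * (B * g⁻¹) i j = (B.submatrix (Function.update x j i) id).det := by
      have := congrFun (det_smul_inv_vecMul_eq_cramer_transpose g (B i) h0.isUnit) j
      rw [cramer_transpose_apply] at this
      refine this.trans (congrArg det ?_)
      ext l m
      by_cases hl : l = j <;> simp [hl, hg, updateRow_apply]
    have := hx (Function.update x j i) (Finset.mem_univ _)
    rw [← e2, map_mul] at this
    exact (mul_le_iff_le_one_right (a.pos h0)).1 this
  · by_cases hl : x i = j <;> simp [one_apply, hl]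

theorem axF (hn : IsNonarchimedean a) : Ax a (coF (κ := κ) a) := by
  classical
  intro z _ _ u hu
  obtain ⟨u', g, π, e, b1, b2, b3⟩ := normF (a := a) hu
  refine ⟨u', g, π, e, frF hn b1 b2 b3, b3, fun z' _ _ v hv h0 => ?_⟩
  obtain ⟨v', g', π', rfl, c1, c2, c3⟩ := normF (a := a) hv
  have k : π * v' = 0 := by
    rw [← Matrix.mul_one (π * v'), ← mul_nonsing_inv g' (Ne.isUnit hv.det), ← Matrix.mul_assoc,
      Matrix.mul_assoc π, h0, Matrix.zero_mul]
  refine ⟨v', g', rfl, frF hn (π := fromRows π (π' - π' * (u' * π))) ?_ ?_ ?_⟩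
  · rintro i (j | j)
    exacts [b1 i j, c1 i j]
  · rintro (i | i) j
    · exact b2 i j
    · rw [fromRows_apply_inr, Matrix.sub_apply, sub_eq_add_neg]
      refine (hn _ _).trans (max_le (c2 i j) ?_)
      rw [a.map_neg]
      exact mul_int hn c2 (mul_int hn b1 b2) i j
  · rw [fromRows_mul_fromCols, Matrix.sub_mul, Matrix.sub_mul, Matrix.mul_assoc, Matrix.mul_assoc,
      Matrix.mul_assoc, Matrix.mul_assoc, b3, k, c3]
    simp

/-- The Euclidean unit ball. -/
def coI (y : κ → ℂ) : Prop := ∑ i, ‖y i‖ ^ 2 ≤ 1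

/-- The usual absolute value of the complex numbers. -/
noncomputable abbrev ab : AbsoluteValue ℂ ℝ := NormedField.toAbsoluteValue ℂ

omit [Fintype z] [DecidableEq z] in
theorem gram (B : Matrix κ z ℂ) (j : z) : ((∑ i, ‖B i j‖ ^ 2 : ℝ) : ℂ) = (Bᴴ * B) j j := by
  simp [mul_apply, Complex.conj_mul']

theorem contr {B : Matrix κ z ℂ} (h : Bᴴ * B = 1) {y : Type} (u : Matrix κ y ℂ) (j : y) :
    ∑ i, ‖(Bᴴ * u) i j‖ ^ 2 ≤ ∑ i, ‖u i j‖ ^ 2 := by
  have e : (u - B * (Bᴴ * u))ᴴ * (u - B * (Bᴴ * u)) = uᴴ * u - (Bᴴ * u)ᴴ * (Bᴴ * u) := by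
    simp only [conjTranspose_sub, conjTranspose_mul, conjTranspose_conjTranspose, Matrix.sub_mul,
      Matrix.mul_sub, Matrix.mul_assoc]
    rw [← Matrix.mul_assoc Bᴴ B, h, Matrix.one_mul, sub_self, sub_zero]
  have h1 := congrFun (congrFun e j) j
  rw [Matrix.sub_apply, ← gram, ← gram, ← gram, ← Complex.ofReal_sub, Complex.ofReal_inj] at h1
  have : 0 ≤ ∑ i, ‖(u - B * (Bᴴ * u)) i j‖ ^ 2 := by positivity
  linarith

theorem hadc {M : Matrix z z ℂ} (h : ∀ j, ∑ i, ‖M i j‖ ^ 2 ≤ 1) : ‖M.det‖ ≤ 1 := by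
  simpa using FC.Circ3.had Mᵀ (fun _ => 1) (fun _ => zero_le_one) fun j => by simpa using h j

theorem frI {B : Matrix κ z ℂ} (h : Bᴴ * B = 1) : Fr ab coI B := by
  refine ⟨fun j => ?_, Bᴴ, h, fun u hu => hadc fun j => (contr h u j).trans (hu j)⟩
  have := gram B j
  rw [h, one_apply_eq] at this
  exact le_of_eq (by exact_mod_cast this)

open scoped MatrixOrder ComplexOrder in
theorem normI {B : Matrix κ z ℂ} (h : Ind B) :
    ∃ (B' : Matrix κ z ℂ) (g : Matrix z z ℂ), B = B' * g ∧ B'ᴴ * B' = 1 := by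
  obtain ⟨π, h⟩ := h
  have h1 : (Bᴴ * B).PosDef := PosDef.conjTranspose_mul_self B fun x y e => by
    simpa [h] using congrArg π.mulVec e
  obtain ⟨g, hg⟩ := CStarAlgebra.nonneg_iff_eq_star_mul_self.1 h1.posSemidef.nonneg
  have h2 : IsUnit g.det := by
    have := h1.det_pos.ne'
    rw [hg, det_mul] at this
    exact (right_ne_zero_of_mul this).isUnit
  refine ⟨B * g⁻¹, g, by rw [Matrix.mul_assoc, nonsing_inv_mul g h2, Matrix.mul_one], ?_⟩
  rw [conjTranspose_mul, Matrix.mul_assoc, ← Matrix.mul_assoc Bᴴ, hg, star_eq_conjTranspose,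
    Matrix.mul_assoc, mul_nonsing_inv g h2, Matrix.mul_one, ← conjTranspose_mul,
    mul_nonsing_inv g h2, conjTranspose_one]

theorem axI : Ax ab (coI (κ := κ)) := by
  intro z _ _ u hu
  obtain ⟨u', g, e, b⟩ := normI hu
  refine ⟨u', g, u'ᴴ, e, frI b, b, fun z' _ _ v hv h0 => ?_⟩
  obtain ⟨v', g', rfl, c⟩ := normI hv
  have k : u'ᴴ * v' = 0 := by
    rw [← Matrix.mul_one (u'ᴴ * v'), ← mul_nonsing_inv g' (Ne.isUnit hv.det), ← Matrix.mul_assoc,
      Matrix.mul_assoc u'ᴴ, h0, Matrix.zero_mul]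
  have k' : v'ᴴ * u' = 0 := by simpa using congrArg conjTranspose k
  refine ⟨v', g', rfl, frI ?_⟩
  rw [conjTranspose_fromCols_eq_fromRows_conjTranspose, fromRows_mul_fromCols, b, c, k, k',
    fromBlocks_one]

end Pool.Agent.MP_5daf37_lc.WF
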