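import Pool.Agent.MP_5daf37_lc.WF.A

/-!
The height of a subspace for a twisted lattice, and semistability under an irreducible action.
-/

open Matrix NumberField Module

namespace Pool.Agent.MP_5daf37_lc.WF

theorem semi_abs {K V : Type} [Field K] [AddCommGroup V] [Module K V] [FiniteDimensional K V]
    (f : Submodule K V → ℝ) (G : Set (V →ₗ[K] V)) (h0 : f ⊥ = 0) (h1 : f ⊤ = 0)
    (hb : BddBelow (Set.range f)) (hs : ∀ Z Z', f (Z ⊓ Z') + f (Z ⊔ Z') ≤ f Z + f Z')
    (hg : ∀ g ∈ G, ∀ Z, f (Z.map g) ≤ f Z)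
    (hi : ∀ Z : Submodule K V, (∀ g ∈ G, Z.map g ≤ Z) → Z = ⊥ ∨ Z = ⊤) (Z : Submodule K V) :
    0 ≤ f Z := by
  have hc : ∀ Z, ⨅ Y, f Y ≤ f Z := ciInf_le hb
  set c := ⨅ Y, f Y with hc'
  have key : ∀ (j : ℕ) (Z : Submodule K V), Z ≠ ⊥ → finrank K V ≤ finrank K Z + j →
      -c ≤ 2 ^ j * (f Z - c) := by
    intro j
    induction j with
    | zero =>
      intro Z _ h
      rw [Submodule.eq_top_of_finrank_eq (le_antisymm Z.finrank_le h), h1]
      simp
    | succ j ih =>
      intro Z z0 h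
      have p : (0 : ℝ) < 2 ^ j := by positivity
      by_cases hZ : ∀ g ∈ G, Z.map g ≤ Z
      · rw [(hi Z hZ).resolve_left z0, h1]
        have := hc ⊤
        rw [h1] at this
        nlinarith [one_le_pow₀ (M₀ := ℝ) one_le_two (n := j + 1)]
      · push Not at hZ
        obtain ⟨g, g1, g2⟩ := hZ
        have a1 : finrank K Z < finrank K (Z ⊔ Z.map g : Submodule K V) :=
          Submodule.finrank_lt_finrank_of_lt (left_lt_sup.2 g2)
        have a2 := ih (Z ⊔ Z.map g) (fun h => z0 (le_bot_iff.1 (le_sup_left.trans h.le))) (by omega)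
        have a3 := hs Z (Z.map g)
        have a4 := hg g g1 Z
        have a5 := hc (Z ⊓ Z.map g)
        rw [pow_succ]
        nlinarith
  refine le_trans (not_lt.1 fun h => ?_) (hc Z)
  have p : (1 : ℝ) ≤ 2 ^ finrank K V := one_le_pow₀ one_le_two
  obtain ⟨Y, hY⟩ := exists_lt_of_ciInf_lt (f := f) (a := c + -c / 2 ^ finrank K V)
    (lt_add_of_pos_right _ (div_pos (neg_pos.2 h) (by positivity)))
  have a1 : -c / 2 ^ finrank K V ≤ -c := div_le_self (by linarith) p
  have a2 := key _ Y (fun h' => by rw [h', h0] at hY; linarith) (Nat.le_add_left _ _)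
  have a3 : f Y - c < -c / 2 ^ finrank K V := by linarith
  rw [lt_div_iff₀ (by positivity)] at a3
  linarith

section
variable {K ι z z' : Type} [Field K] [Fintype ι] [DecidableEq ι] [Fintype z] [DecidableEq z]
  [Fintype z'] [DecidableEq z']

theorem ind_iff {B : Matrix ι z K} : Ind B ↔ Function.Injective B.mulVec := by
  refine ⟨fun ⟨π, h⟩ x y e => by simpa [h] using congrArg π.mulVec e, fun h => ?_⟩
  obtain ⟨g, hg⟩ := (toLin' B).exists_leftInverse_of_injective (LinearMap.ker_eq_bot.2 h)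
  refine ⟨LinearMap.toMatrix' g, ?_⟩
  rw [← LinearMap.toMatrix'_toLin' B, ← LinearMap.toMatrix'_comp, hg, LinearMap.toMatrix'_id]

/-- The span of the columns. -/
abbrev rng (B : Matrix ι z K) : Submodule K (ι → K) := LinearMap.range B.mulVecLin

/-- A basis of a subspace. -/
noncomputable def bas (Z : Submodule K (ι → K)) : Matrix ι (Fin (finrank K Z)) K :=
  of fun i j => (finBasis K Z j : ι → K) i

omit [DecidableEq ι] in
theorem bas_eq (Z : Submodule K (ι → K)) :
    (bas Z).mulVecLin = Z.subtype ∘ₗ (finBasis K Z).equivFun.symm.toLinearMap := by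
  refine LinearMap.ext fun y => funext fun i => ?_
  simp [bas, mulVec, dotProduct, mul_comm]

theorem bas_ind (Z : Submodule K (ι → K)) : Ind (bas Z) := by
  refine ind_iff.2 (?_ : Function.Injective (bas Z).mulVecLin)
  rw [bas_eq]
  exact Z.injective_subtype.comp (finBasis K Z).equivFun.symm.injective

omit [DecidableEq ι] in
theorem bas_rng (Z : Submodule K (ι → K)) : rng (bas Z) = Z := by
  rw [rng, bas_eq, LinearMap.range_comp, LinearEquiv.range, Submodule.map_top,
    Submodule.range_subtype]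

theorem Ind.card {B : Matrix ι z K} (h : Ind B) : finrank K (rng B) = Fintype.card z := by
  rw [LinearMap.finrank_range_of_inj (ind_iff.1 h), finrank_fintype_fun_eq_card]

omit [Fintype ι] [DecidableEq ι] [DecidableEq z] [DecidableEq z'] in
theorem rng_cols (u : Matrix ι z K) (v : Matrix ι z' K) : rng (fromCols u v) = rng u ⊔ rng v := by
  ext x
  simp only [LinearMap.mem_range, Submodule.mem_sup, mulVecLin_apply]
  constructor
  · rintro ⟨y, rfl⟩
    exact ⟨_, ⟨y ∘ Sum.inl, rfl⟩, _, ⟨y ∘ Sum.inr, rfl⟩, (fromCols_mulVec u v y).symm⟩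
  · rintro ⟨_, ⟨y, rfl⟩, _, ⟨y', rfl⟩, rfl⟩
    exact ⟨Sum.elim y y', fromCols_mulVec_sumElim u v y y'⟩

theorem Ind.cols {u : Matrix ι z K} {v : Matrix ι z' K} (hu : Ind u) (hv : Ind v)
    (h : Disjoint (rng u) (rng v)) : Ind (fromCols u v) := by
  refine ind_iff.2 (LinearMap.ker_eq_bot.1 (LinearMap.ker_eq_bot'.2 fun y hy => ?_) :
    Function.Injective (fromCols u v).mulVecLin)
  rw [mulVecLin_apply, fromCols_mulVec, add_eq_zero_iff_eq_neg] at hy
  have a1 := Submodule.disjoint_def.1 h _ ⟨y ∘ Sum.inl, rfl⟩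
    ⟨-(y ∘ Sum.inr), by rw [map_neg]; exact hy.symm⟩
  have a2 : u *ᵥ (y ∘ Sum.inl) = u *ᵥ 0 := by rw [mulVec_zero]; exact a1
  have a3 : v *ᵥ (y ∘ Sum.inr) = v *ᵥ 0 := by
    rw [mulVec_zero, ← neg_eq_zero, ← hy]; exact a1
  funext i
  rcases i with i | i
  exacts [congrFun (ind_iff.1 hu a2) i, congrFun (ind_iff.1 hv a3) i]

omit [DecidableEq ι] [Fintype z] in
theorem Ind.map {K' : Type} [Field K'] (σ : K →+* K') {B : Matrix ι z K} (h : Ind B) :
    Ind (B.map σ) := by
  obtain ⟨π, h⟩ := h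
  exact ⟨π.map σ, by rw [← Matrix.map_mul, h]; simp⟩

omit [DecidableEq ι] in
theorem Ind.minor {B : Matrix ι z K} (h : Ind B) :
    ∃ x : z → ι, Function.Injective x ∧ (B.submatrix x id).det ≠ 0 := by
  obtain ⟨π, h⟩ := h
  have r1 : Fintype.card z ≤ B.rank := by simpa [h] using rank_mul_le_right π B
  obtain ⟨x', hx'⟩ := FC.exists_rows r1
  let e := Fintype.equivFin z
  have h1 := hx'.comp e e.injective
  exact ⟨x' ∘ e, fun i j hij => h1.injective (congrArg B hij), ((isUnit_iff_isUnit_det _).1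
    (linearIndependent_rows_iff_isUnit.1 h1)).ne_zero⟩

variable [NumberField K]

/-- The product over all places. -/
noncomputable def tot (b : InfinitePlace K → ℝ) (a : FinitePlace K → ℝ) : ℝ :=
  (∏ w, b w ^ w.mult) * ∏ᶠ v, a v

theorem tot_mul (b b' : InfinitePlace K → ℝ) {a a' : FinitePlace K → ℝ}
    (h : a.HasFiniteMulSupport) (h' : a'.HasFiniteMulSupport) :
    tot (fun w => b w * b' w) (fun v => a v * a' v) = tot b a * tot b' a' := by
  simp only [tot, mul_pow, Finset.prod_mul_distrib, finprod_mul_distrib h h']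
  ring

theorem tot_mono {b b' : InfinitePlace K → ℝ} {a a' : FinitePlace K → ℝ}
    (h : a.HasFiniteMulSupport) (h' : a'.HasFiniteMulSupport) (b0 : ∀ w, 0 ≤ b w)
    (a0 : ∀ v, 0 ≤ a v) (hb : ∀ w, b w ≤ b' w) (ha : ∀ v, a v ≤ a' v) : tot b a ≤ tot b' a' :=
  mul_le_mul (Finset.prod_le_prod (fun w _ => pow_nonneg (b0 w) _) fun w _ =>
    pow_le_pow_left₀ (b0 w) (hb w) _) (finprod_le_finprod h a0 h' ha) (finprod_nonneg a0)
    (Finset.prod_nonneg fun w _ => pow_nonneg ((b0 w).trans (hb w)) _)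

theorem tot_pf {y : K} (hy : y ≠ 0) : tot (fun w => w y) (fun v => v y) = 1 := prod_abs_eq_one hy

theorem na (v : FinitePlace K) : IsNonarchimedean v.1 := v.add_le

open Classical in
/-- The lattice is twisted at one place. -/
noncomputable def tw (v₀ : FinitePlace K) (H : Matrix ι ι K) (v : FinitePlace K) :
    Matrix (ι ⊕ ι) ι K := fromRows 1 (if v = v₀ then H else 0)

variable {v₀ : FinitePlace K} {H : Matrix ι ι K}

omit [DecidableEq z] [Fintype z] in
theorem tw_left (v : FinitePlace K) (π : Matrix z ι K) (B : Matrix ι z K) :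
    fromCols π (0 : Matrix z ι K) * (tw v₀ H v * B) = π * B := by
  rw [← Matrix.mul_assoc, tw, fromCols_mul_fromRows]
  simp

omit [Fintype z] in
theorem Ind.tw {B : Matrix ι z K} (h : Ind B) (v : FinitePlace K) : Ind (tw v₀ H v * B) := by
  obtain ⟨π, h⟩ := h
  exact ⟨_, (tw_left v π B).trans h⟩

/-- The volume at an infinite place. -/
noncomputable abbrev vi (B : Matrix ι z K) (w : InfinitePlace K) : ℝ :=
  vol ab coI (B.map w.embedding)

variable (v₀ H) in
/-- The volume at a finite place. -/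
noncomputable abbrev vf (B : Matrix ι z K) (v : FinitePlace K) : ℝ :=
  vol v.1 (coF v.1) (tw v₀ H v * B)

variable (v₀ H) in
/-- The height of a system of columns. -/
noncomputable def ht (B : Matrix ι z K) : ℝ := tot (vi B) (vf v₀ H B)

theorem vf_one {B : Matrix ι z K} {π : Matrix z ι K} (h : π * B = 1) {v : FinitePlace K}
    (hv : v ≠ v₀) (h1 : ∀ i j, v (B i j) ≤ 1) (h2 : ∀ i j, v (π i j) ≤ 1) : vf v₀ H B v = 1 := by
  refine (frF (na v) ?_ ?_ ((tw_left v π B).trans h)).vol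
  · rw [tw, if_neg hv, fromRows_mul]
    rintro (i | i) j
    exacts [by rw [Matrix.one_mul]; exact h1 i j, by simp]
  · rintro i (j | j)
    exacts [h2 i j, by simp]

theorem supp {B : Matrix ι z K} (h : Ind B) : (vf v₀ H B).HasFiniteMulSupport := by
  obtain ⟨π, h⟩ := h
  have f : ∀ x : K, {v : FinitePlace K | 1 < v x}.Finite := fun x => by
    rcases eq_or_ne x 0 with h | h
    · simp [h, not_lt.2 zero_le_one]
    · exact (FinitePlace.hasFiniteMulSupport h).subset fun v hv => ne_of_gt hv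
  refine (((Set.finite_iUnion fun i => Set.finite_iUnion fun j => f (B i j)).union
    (Set.finite_iUnion fun i => Set.finite_iUnion fun j => f (π i j))).insert v₀).subset
    fun v hv => ?_
  by_contra h0
  simp only [Set.mem_insert_iff, Set.mem_union, Set.mem_iUnion, Set.mem_ofPred_eq, not_or,
    not_exists, not_lt] at h0
  exact hv (vf_one h h0.1 h0.2.1 h0.2.2)

omit [NumberField K] in
theorem ab_det (w : InfinitePlace K) (g : Matrix z z K) : ab (g.map w.embedding).det = w g.det := by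
  rw [← RingHom.mapMatrix_apply, ← RingHom.map_det]
  exact w.norm_embedding_eq _

theorem one_le_ht {B : Matrix ι z K} (h : Ind B) : 1 ≤ ht v₀ H B := by
  obtain ⟨x, hx, h0⟩ := h.minor
  refine (tot_pf h0).symm.trans_le (tot_mono (FinitePlace.hasFiniteMulSupport h0) (supp h)
    (fun w => apply_nonneg _ _) (fun v => apply_nonneg _ _) (fun w => ?_) fun v => ?_)
  · obtain ⟨B', g, e, h1⟩ := normI (h.map w.embedding)
    have e1 : (B.submatrix x id).map w.embedding = B'.submatrix x id * g :=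
      congrArg (fun M => M.submatrix x id) e
    rw [vi, e, vol_eq (frI h1), ← ab_det, e1, det_mul, map_mul]
    exact mul_le_of_le_one_left (ab.nonneg _) (hadc fun j =>
      (HG.sum_inj hx (fun i => ‖B' i j‖ ^ 2) fun _ => by positivity).trans ((frI h1).1 j))
  · obtain ⟨B', g, π, e, h1, h2, h3⟩ := normF (a := v.1) (h.tw (v₀ := v₀) (H := H) v)
    have e1 : B.submatrix x id = B'.submatrix (Sum.inl ∘ x) id * g := by
      refine Eq.trans ?_ (congrArg (fun M => M.submatrix (Sum.inl ∘ x) id) e)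
      rw [tw, fromRows_mul, Matrix.one_mul]
      rfl
    rw [vf, e, vol_eq (frF (na v) h1 h2 h3), e1, det_mul, map_mul]
    exact mul_le_of_le_one_left (v.1.nonneg _) (det_int (na v) fun i j => h1 _ _)

theorem ht_eq {B : Matrix ι z K} (h : Ind B) {Z : Submodule K (ι → K)} (hZ : rng B = Z) :
    ht v₀ H B = ht v₀ H (bas Z) := by
  let e : Fin (finrank K Z) ≃ z := Fintype.equivOfCardEq (by rw [← h.card, hZ, Fintype.card_fin])
  have h1 : ∀ j, ∃ y, bas Z *ᵥ y = fun i => B i (e j) := fun j => by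
    have : (fun i => B i (e j)) ∈ rng (bas Z) := by
      rw [bas_rng]
      exact hZ.le ⟨Pi.single (e j) 1, by ext i; simp⟩
    exact this
  choose y hy using h1
  have e1 : B.submatrix id e = bas Z * (of y)ᵀ := by
    ext i j; exact (congrFun (hy j) i).symm
  have h2 : Ind (bas Z * (of y)ᵀ) := by
    obtain ⟨π, h⟩ := h
    exact ⟨π.submatrix e id, by rw [← e1, ← submatrix_one_equiv e, ← h]; rfl⟩
  rw [← mul_one (ht v₀ H (bas Z)), ← tot_pf h2.det, ht, ht,
    ← tot_mul _ _ (supp (bas_ind Z)) (FinitePlace.hasFiniteMulSupport h2.det)]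
  congr 1
  · funext w
    rw [← ab_det, vi, vi, ← vol_mul axI ((bas_ind Z).map _), ← Matrix.map_mul, ← e1]
    exact (vol_re axI (h.map _) e).symm
  · funext v
    rw [vf, vf, ← vol_re (axF (na v)) (h.tw v) e]
    refine Eq.trans ?_ (vol_mul (axF (na v)) ((bas_ind Z).tw v) _)
    rw [Matrix.mul_assoc, ← e1]
    rfl

theorem ht_sub (Z Z' : Submodule K (ι → K)) : ht v₀ H (bas (Z ⊓ Z')) * ht v₀ H (bas (Z ⊔ Z')) ≤
    ht v₀ H (bas Z) * ht v₀ H (bas Z') := by
  obtain ⟨Z₁, d1, s1⟩ := IsModularLattice.exists_disjoint_and_sup_eq (inf_le_left (a := Z) (b := Z'))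
  obtain ⟨Z₂, d2, s2⟩ :=
    IsModularLattice.exists_disjoint_and_sup_eq (inf_le_right (a := Z) (b := Z'))
  have i1 := (bas_ind (Z ⊓ Z')).cols (bas_ind Z₁) (by rwa [bas_rng, bas_rng])
  have i2 := (bas_ind (Z ⊓ Z')).cols (bas_ind Z₂) (by rwa [bas_rng, bas_rng])
  have r1 : rng (fromCols (bas (Z ⊓ Z')) (bas Z₁)) = Z := by rwa [rng_cols, bas_rng, bas_rng]
  have r2 : rng (fromCols (bas (Z ⊓ Z')) (bas Z₂)) = Z' := by rwa [rng_cols, bas_rng, bas_rng]
  have l2 : Z₂ ≤ Z' := le_sup_right.trans s2.le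
  have i3 := i1.cols (bas_ind Z₂) (by
    rw [r1, bas_rng, disjoint_iff, ← inf_eq_right.2 l2, ← inf_assoc]
    exact disjoint_iff.1 d2)
  have r3 : rng (fromCols (fromCols (bas (Z ⊓ Z')) (bas Z₁)) (bas Z₂)) = Z ⊔ Z' := by
    rw [rng_cols, r1, bas_rng]
    refine le_antisymm (sup_le_sup_left l2 _) (sup_le le_sup_left (s2.ge.trans ?_))
    exact sup_le_sup_right inf_le_left _
  rw [← ht_eq i1 r1, ← ht_eq i2 r2, ← ht_eq i3 r3, ht, ht, ht, ht,
    ← tot_mul _ _ (supp (bas_ind _)) (supp i3), ← tot_mul _ _ (supp i1) (supp i2)]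
  refine tot_mono ((supp (bas_ind _)).mul (supp i3)) ((supp i1).mul (supp i2))
    (fun w => mul_nonneg (vol_nonneg _) (vol_nonneg _))
    (fun v => mul_nonneg (vol_nonneg _) (vol_nonneg _)) (fun w => ?_) fun v => ?_
  · have := i3.map w.embedding
    simp only [vi, fromCols_map] at this ⊢
    exact submod axI this
  · have := i3.tw (v₀ := v₀) (H := H) v
    simp only [vf, mul_fromCols] at this ⊢
    exact submod (axF (na v)) this

/-- A symmetry of the twisted lattice. -/
def Sym (H g : Matrix ι ι K) : Prop :=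
  (∀ (v : FinitePlace K) i j, v (g i j) ≤ 1) ∧
    (∀ σ : K →+* ℂ, (g.map σ)ᴴ * g.map σ = 1) ∧
    ∃ g' : Matrix ι ι K, (∀ (v : FinitePlace K) i j, v (g' i j) ≤ 1) ∧ H * g = g' * H

omit [Fintype z] in
theorem Sym.ind {g : Matrix ι ι K} (hg : Sym H g) {B : Matrix ι z K} (h : Ind B) : Ind (g * B) := by
  obtain ⟨σ⟩ : Nonempty (K →+* ℂ) := inferInstance
  have h1 := (isUnit_det_of_left_inverse (hg.2.1 σ)).ne_zero
  rw [← RingHom.mapMatrix_apply, ← RingHom.map_det, map_ne_zero] at h1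
  obtain ⟨π, h⟩ := h
  exact ⟨π * g⁻¹, by rw [Matrix.mul_assoc, nonsing_inv_mul_cancel_left g B h1.isUnit, h]⟩

theorem ht_act {g : Matrix ι ι K} (hg : Sym H g) {B : Matrix ι z K} (h : Ind B) :
    ht v₀ H (g * B) ≤ ht v₀ H B := by
  have h' := hg.ind h
  obtain ⟨g1, g2, g', g3, g4⟩ := hg
  refine tot_mono (supp h') (supp h) (fun w => vol_nonneg _) (fun v => vol_nonneg _)
    (fun w => ?_) fun v => ?_
  · obtain ⟨B', c, e, h1⟩ := normI (h.map w.embedding)
    rw [vi, vi, Matrix.map_mul, e, ← Matrix.mul_assoc, vol_eq (frI h1), vol_eq (frI ?_)]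
    rw [conjTranspose_mul, Matrix.mul_assoc, ← Matrix.mul_assoc _ _ B', g2, Matrix.one_mul, h1]
  · obtain ⟨B', c, π, e, h1, h2, h3⟩ := normF (a := v.1) (h.tw (v₀ := v₀) (H := H) v)
    have e1 : tw v₀ H v * (g * B) = fromBlocks g 0 0 g' * B' * c := by
      rw [Matrix.mul_assoc, ← e, ← Matrix.mul_assoc, ← Matrix.mul_assoc, tw, fromRows_mul,
        fromBlocks_mul_fromRows]
      split_ifs <;> simp [g4]
    have h4 := h'.tw (v₀ := v₀) (H := H) v
    rw [vf, vf, e, vol_eq (frF (na v) h1 h2 h3), e1]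
    refine vol_le (axF (na v)) (fun j i => mul_int (na v) ?_ h1 i j) (e1 ▸ h4)
    rintro (i | i) (j | j)
    exacts [g1 v i j, by simp, by simp, g3 v i j]

theorem semi (G : Set (Matrix ι ι K)) (hG : ∀ g ∈ G, Sym H g)
    (hi : ∀ Z : Submodule K (ι → K), (∀ g ∈ G, ∀ x ∈ Z, g *ᵥ x ∈ Z) → Z = ⊥ ∨ Z = ⊤)
    (Z : Submodule K (ι → K)) :
    ht v₀ H (1 : Matrix ι ι K) ^ finrank K Z ≤ ht v₀ H (bas Z) ^ Fintype.card ι := by
  have p : ∀ Z, 0 < ht v₀ H (bas Z) := fun Z => zero_lt_one.trans_le (one_le_ht (bas_ind Z))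
  have e0 : ht v₀ H (1 : Matrix ι ι K) = ht v₀ H (bas ⊤) :=
    ht_eq ⟨1, Matrix.one_mul _⟩ (by simp [rng])
  have l0 := Real.log_nonneg (one_le_ht (v₀ := v₀) (H := H) (bas_ind ⊤))
  have h := semi_abs (fun Z => Fintype.card ι * Real.log (ht v₀ H (bas Z)) -
    finrank K Z * Real.log (ht v₀ H (bas ⊤))) (mulVecLin '' G) ?_ (by simp) ?_ ?_ ?_ ?_ Z
  · rw [e0, ← Real.log_le_log_iff (pow_pos (p _) _) (pow_pos (p _) _), Real.log_pow, Real.log_pow]
    linarith
  · have e : ht v₀ H (bas ⊥) = 1 := by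
      rw [← ht_eq (B := (0 : Matrix ι (Fin 0) K)) ⟨0, Subsingleton.elim _ _⟩ (by simp [rng])]
      have e1 : ∀ {E κ : Type} [Field E] [Fintype κ] (a : AbsoluteValue E ℝ) (co : (κ → E) → Prop)
          (B : Matrix κ (Fin 0) E), vol a co B = 1 := fun a co B =>
        Fr.vol ⟨fun j => j.elim0, 0, Subsingleton.elim _ _, fun u _ => by simp⟩
      simp [ht, tot, e1]
    simp [e]
  · refine ⟨-(Fintype.card ι * Real.log (ht v₀ H (bas ⊤))), ?_⟩
    rintro _ ⟨Y, rfl⟩
    have a1 := Real.log_nonneg (one_le_ht (v₀ := v₀) (H := H) (bas_ind Y))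
    have a2 : (finrank K Y : ℝ) ≤ Fintype.card ι := by
      exact_mod_cast Y.finrank_le.trans_eq (finrank_fintype_fun_eq_card K)
    have a3 := mul_le_mul_of_nonneg_right a2 l0
    have a4 : 0 ≤ Fintype.card ι * Real.log (ht v₀ H (bas Y)) := by positivity
    dsimp only
    linarith
  · intro Y Y'
    have a1 := Real.log_le_log (mul_pos (p _) (p _)) (ht_sub (v₀ := v₀) (H := H) Y Y')
    rw [Real.log_mul (p _).ne' (p _).ne', Real.log_mul (p _).ne' (p _).ne'] at a1
    have a2 := congrArg (fun m : ℕ => m * Real.log (ht v₀ H (bas ⊤)))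
      (Submodule.finrank_sup_add_finrank_inf_eq Y Y')
    have a3 := mul_le_mul_of_nonneg_left a1 (Nat.cast_nonneg (Fintype.card ι))
    push_cast at a2
    linarith
  · rintro _ ⟨g, hg, rfl⟩ Y
    have i1 := (hG g hg).ind (bas_ind Y)
    have r1 : rng (g * bas Y) = Y.map g.mulVecLin := by
      rw [rng, mulVecLin_mul, LinearMap.range_comp]
      exact congrArg _ (bas_rng Y)
    have a1 := ht_act (v₀ := v₀) (hG g hg) (bas_ind Y)
    have a2 := i1.card
    rw [r1, Fintype.card_fin] at a2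
    rw [ht_eq i1 r1] at a1
    have a3 := mul_le_mul_of_nonneg_left (Real.log_le_log (p _) a1)
      (Nat.cast_nonneg (Fintype.card ι))
    have a4 := congrArg (fun m : ℕ => m * Real.log (ht v₀ H (bas ⊤))) a2
    linarith
  · exact fun Y hY => hi Y fun g hg x hx => hY _ ⟨g, hg, rfl⟩ ⟨x, hx, rfl⟩

end

end Pool.Agent.MP_5daf37_lc.WF
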