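import Pool.Agent.MP_5daf37_lc.WF.B

/-!
The three estimates: the kernel of a cheap matrix has small height, the ranks of the two cheap
factors are small, and the whole space has large height.
-/

open Matrix NumberField Module

namespace Pool.Agent.MP_5daf37_lc.WF
open FC HG DH

theorem reBlocks {R K l m l' m' : Type} [CommRing R] [CommRing K] {f : R →+* K} {c c' : R}
    {A : Matrix l m K} {B : Matrix l' m' K} (h : Re f c A) (h' : Re f c' B) :
    Re f (c * c') (fromBlocks A 0 0 B) := by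
  obtain ⟨ν, _, _, M, G, Q, P, h1, rfl, rfl⟩ := h
  obtain ⟨ν', _, _, M', G', Q', P', h1', rfl, rfl⟩ := h'
  refine ⟨ν ⊕ ν', inferInstance, inferInstance, fromBlocks M 0 0 M',
    fromBlocks G 0 0 G', fromBlocks Q 0 0 Q', fromBlocks P 0 0 P', ?_,
    det_fromBlocks_zero₂₁ _ _ _, ?_⟩
  · rw [fromBlocks_map, fromBlocks_multiply, ← fromBlocks_one]
    simp [h1, h1']
  · rw [fromBlocks_map, fromBlocks_map, fromBlocks_multiply, fromBlocks_multiply]
    simp

theorem reT {R K l m : Type} [CommRing R] [CommRing K] {f : R →+* K} {c : R}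
    {A : Matrix l m K} (h : Re f c A) : Re f c Aᵀ := by
  obtain ⟨ν, _, _, M, G, Q, P, h1, rfl, rfl⟩ := h
  refine ⟨ν, inferInstance, inferInstance, Mᵀ, Gᵀ, Pᵀ, Qᵀ, ?_, det_transpose M, ?_⟩
  · rw [transpose_map, ← transpose_mul, mul_eq_one_comm.1 h1, transpose_one]
  · rw [transpose_mul, transpose_mul, transpose_map, transpose_map, Matrix.mul_assoc]

theorem kerdet {E ι ρ z : Type} [CommRing E] [Fintype ι] [Fintype ρ] [DecidableEq ρ] [Fintype z]
    [DecidableEq z] {V : Matrix ρ ι E} {B : Matrix ι z E} (h : V * B = 0) (C : Matrix ι ρ E)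
    (e : ρ ⊕ z ≃ ι) (Q : Matrix z ι E) :
    ((fromRows V Q).submatrix id e).det * ((fromCols C B).submatrix e id).det =
      (V * C).det * (Q * B).det := by
  rw [← det_mul, submatrix_mul_equiv, submatrix_id_id, fromRows_mul_fromCols, h,
    det_fromBlocks_zero₁₂]

variable {K ι ε : Type} [Field K] [NumberField K] [Fintype ι] [DecidableEq ι] [Fintype ε]
  [DecidableEq ε] {c : ∀ v : FinitePlace K, loc v} {β : (K →+* ℂ) → ℝ} {S : ℝ}
  {v₀ : FinitePlace K}

/-- The product formula in the form needed. -/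
def Ch (c : ∀ v : FinitePlace K, loc v) (β : (K →+* ℂ) → ℝ) (S : ℝ) : Prop :=
  ∀ (y : K) (b : InfinitePlace K → ℝ) (a : FinitePlace K → ℝ) (B : ℝ), y ≠ 0 →
    a.HasFiniteMulSupport → (∀ w, 0 ≤ b w) → (∀ v, 0 ≤ a v) → 0 ≤ B →
    (∀ w, b w ≤ w y * (β w.embedding * B)) → (∀ v, a v * v (c v) ^ 5 ≤ v y) →
    tot b a ≤ S * B ^ finrank ℚ K

theorem re_le {v : FinitePlace K} {d : loc v} {A : Matrix ι ι K} (h : Re (loc v).subtype d A) :
    v d * v A.det ≤ 1 := by
  obtain ⟨z, hz⟩ := h.det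
  rw [← map_mul]
  exact hz ▸ z.2

theorem pw {v : FinitePlace K} (d : loc v) {i j : ℕ} (h : i ≤ j) : v d ^ j ≤ v d ^ i :=
  pow_le_pow_of_le_one (apply_nonneg _ _) d.2 h

/-- The archimedean size of the determinants that bound the height of a kernel. -/
def Ar (β : (K →+* ℂ) → ℝ) (V : Matrix ε ι K) : Prop :=
  ∀ (σ : K →+* ℂ) (ρ z : Type) [Fintype ρ] [DecidableEq ρ] [Fintype z] [DecidableEq z]
    (x : ρ → ε) (Q : Matrix z ι ℂ) (e : ρ ⊕ z ≃ ι), Function.Injective x → Q * Qᴴ = 1 →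
    ‖((fromRows ((V.submatrix x id).map σ) Q).submatrix id e).det‖ ≤ β σ * 2 ^ Fintype.card ι

theorem ker_step (hc : Ch c β S) {V : Matrix ε ι K} (r₁ : ∀ v, Re (loc v).subtype (c v) V)
    (h₁ : Ar β V) {H₁ : Matrix ι ι K} (r₂ : Re (loc v₀).subtype (c v₀ ^ 3) H₁)
    (Y : Matrix ι ε K) :
    ht v₀ (H₁ + Y * V) (bas (LinearMap.ker V.mulVecLin)) ≤
      S * (2 ^ Fintype.card ι) ^ finrank ℚ K := by
  have hr := LinearMap.finrank_range_add_finrank_ker V.mulVecLin
  have hi := bas_ind (LinearMap.ker V.mulVecLin)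
  have h0 : V * bas (LinearMap.ker V.mulVecLin) = 0 := by
    ext i j
    exact congrFun (finBasis K (LinearMap.ker V.mulVecLin) j).2 i
  obtain ⟨e⟩ : Nonempty (Fin V.rank ⊕ Fin (finrank K (LinearMap.ker V.mulVecLin)) ≃ ι) :=
    ⟨Fintype.equivOfCardEq (by
      rw [Fintype.card_sum, Fintype.card_fin, Fintype.card_fin]
      exact hr.trans (finrank_fintype_fun_eq_card K))⟩
  generalize bas (LinearMap.ker V.mulVecLin) = B at hi h0 ⊢
  obtain ⟨x, y, -, m0⟩ := exists_minor (le_refl V.rank)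
  have hx : Function.Injective x := fun i j hij => by
    by_contra hne
    exact m0 (det_zero_of_row_eq hne (by ext l; simp [hij]))
  have h2 : V.submatrix x id * B = 0 := congrArg (fun M => M.submatrix x id) h0
  let C : Matrix ι (Fin V.rank) K := (1 : Matrix ι ι K).submatrix id y
  have h3 : V.submatrix x id * C = V.submatrix x y := by
    ext i j; simp [C, mul_apply, one_apply]
  have k1 := kerdet h2 C e
  rw [h3] at k1
  have d0 : ((fromCols C B).submatrix e id).det ≠ 0 := by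
    obtain ⟨π, hπ⟩ := hi
    have := k1 π
    rw [hπ, det_one, mul_one] at this
    exact right_ne_zero_of_mul (this ▸ m0)
  refine hc (((fromCols C B).submatrix e id).det / (V.submatrix x y).det) _ _ _ (div_ne_zero d0 m0)
    (supp hi) (fun w => vol_nonneg _) (fun v => vol_nonneg _) (by positivity) (fun w => ?_)
    fun v => ?_
  · obtain ⟨B', g, e1, b1⟩ := normI (hi.map w.embedding)
    have k2 := kerdet (V := (V.submatrix x id).map w.embedding) (B := B.map w.embedding)
      (by rw [← Matrix.map_mul, h2]; simp) (C.map w.embedding) e B'ᴴ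
    rw [← Matrix.map_mul, h3, ← fromCols_map, submatrix_map] at k2
    have k3 := congrArg ab k2
    rw [map_mul, map_mul, ab_det, ab_det, e1, ← Matrix.mul_assoc, b1, Matrix.one_mul] at k3
    have k4 := h₁ w.embedding _ _ x B'ᴴ e hx (by rw [conjTranspose_conjTranspose, b1])
    rw [vi, e1, vol_eq (frI b1), map_div₀, div_mul_eq_mul_div,
      le_div_iff₀ (InfinitePlace.pos_iff.2 m0), mul_comm, ← k3, mul_comm]
    exact mul_le_mul_of_nonneg_left k4 (apply_nonneg _ _)
  · obtain ⟨B', g, π, e1, b1, b2, b3⟩ := normF (a := v.1)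
      (hi.tw (v₀ := v₀) (H := H₁ + Y * V) v)
    obtain ⟨d, H₂, r₃, r₄, r₅⟩ : ∃ (d : loc v) (H₂ : Matrix ι ι K), Re (loc v).subtype d H₂ ∧
        v (c v) ^ 3 ≤ v d ∧ tw v₀ (H₁ + Y * V) v * B = fromRows 1 H₂ * B := by
      by_cases hv : v = v₀
      · subst hv
        refine ⟨_, H₁, r₂, by simp, ?_⟩
        rw [tw, if_pos rfl, fromRows_mul, fromRows_mul, Matrix.add_mul, Matrix.mul_assoc, h0]
        simp
      · exact ⟨1, 0, reInt fun _ _ => (loc v).zero_mem, by simpa using pw (c v) (Nat.zero_le 3),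
          by rw [tw, if_neg hv]⟩
    have e2 : (π.toCols₁ + π.toCols₂ * H₂) * B = g := by
      rw [← Matrix.one_mul g, ← b3, Matrix.mul_assoc, ← e1, r₅, ← Matrix.mul_assoc]
      conv_rhs => rw [← fromCols_toCols π, fromCols_mul_fromRows, Matrix.mul_one]
    have k2 := congrArg v (k1 (π.toCols₁ + π.toCols₂ * H₂))
    rw [e2, map_mul, map_mul] at k2
    have r₆ := (((reInt (O := loc v) (Z := fromRows ((1 : Matrix ε ε K).submatrix x id)
      (0 : Matrix _ ε K)) ?_).mul (r₁ v)).add ((reInt (O := loc v)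
        (Z := fromRows (0 : Matrix (Fin V.rank) ι K) π.toCols₁) ?_).add ((reInt (O := loc v)
          (Z := fromRows (0 : Matrix (Fin V.rank) ι K) π.toCols₂) ?_).mul r₃))).sub id e
    · have e3 : fromRows ((1 : Matrix ε ε K).submatrix x id) (0 : Matrix _ ε K) * V +
          (fromRows (0 : Matrix (Fin V.rank) ι K) π.toCols₁ +
            fromRows (0 : Matrix (Fin V.rank) ι K) π.toCols₂ * H₂) =
          fromRows (V.submatrix x id) (π.toCols₁ + π.toCols₂ * H₂) := by
        rw [fromRows_mul, fromRows_mul]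
        ext (i | i) j <;> simp [mul_apply, one_apply]
      rw [e3] at r₆
      have k3 := re_le r₆
      simp only [one_mul, Subring.coe_mul, map_mul] at k3
      have k4 : v (c v) ^ 5 ≤ v (c v) * v d :=
        (pw (c v) (by norm_num : 4 ≤ 5)).trans ((pow_succ' _ 3).trans_le
          (mul_le_mul_of_nonneg_left r₄ (apply_nonneg _ _)))
      have k5 := (mul_le_mul_of_nonneg_right k4 (apply_nonneg v _)).trans k3
      have k6 := mul_le_of_le_one_left (apply_nonneg v ((fromCols C B).submatrix e id).det) k5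
      rw [vf, e1, vol_eq (frF (na v) b1 b2 b3), map_div₀, le_div_iff₀ (FinitePlace.pos_iff.2 m0)]
      refine le_of_eq_of_le ?_ k6
      rw [mul_assoc (v (c v) ^ 5), k2]
      change v g.det * _ * _ = _
      ring
    · rintro (i | i) j
      · by_cases h : x i = j <;> simp [one_apply, h]
      · simp
    · rintro (i | i) j
      exacts [by simp, b2 i (.inl j)]
    · rintro (i | i) j
      exacts [by simp, b2 i (.inr j)]

open Classical in
omit [Fintype ι] [DecidableEq ι] in
theorem tot_single (v₀ : FinitePlace K) (r : ℝ) :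
    tot (fun _ => 1) (fun v => if v = v₀ then r else 1) = r := by
  rw [tot, finprod_eq_single _ v₀ fun v hv => if_neg hv]
  simp

omit [DecidableEq ι] in
theorem rank_step (hc : Ch c β S) {U : Matrix ι ε K} {V : Matrix ε ι K}
    (rU : ∀ v, Re (loc v).subtype (c v) U) (rV : ∀ v, Re (loc v).subtype (c v) V)
    (har : ∀ (σ : K →+* ℂ) (r r' : ℕ) (x : Fin r → ι) (y : Fin r → ε) (x' : Fin r' → ε)
      (y' : Fin r' → ι), Function.Injective y → Function.Injective y' →
      ‖σ (fromBlocks (U.submatrix x y) 0 0 (V.submatrix x' y')).det‖ ≤ β σ * 2 ^ (r + r'))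
    {E : Matrix ι ι K} (rE : Re (loc v₀).subtype (c v₀ ^ 3) E) {Δ : ε → K}
    (hΔ : ∀ e, v₀ (Δ e) ≤ 1) (π : loc v₀) (π0 : (π : K) ≠ 0) {a μ : ℕ}
    (h : (fromBlocks 0 U V 0 - (π : K) • fromBlocks E 0 0 (diagonal Δ)).rank ≤ a)
    (hμ : a + μ ≤ U.rank + V.rank) :
    (v₀ π ^ μ)⁻¹ ≤ S * (2 ^ (U.rank + V.rank)) ^ finrank ℚ K := by
  classical
  obtain ⟨x, y, hy, m1⟩ := exists_minor (le_refl U.rank)
  obtain ⟨x', y', hy', m2⟩ := exists_minor (le_refl V.rank)
  have r1 := fun v => reBlocks ((rU v).sub x y) ((rV v).sub x' y')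
  have m0 : (fromBlocks (U.submatrix x y) 0 0 (V.submatrix x' y')).det ≠ 0 := by
    rw [det_fromBlocks_zero₂₁]; exact mul_ne_zero m1 m2
  obtain ⟨z, hz⟩ := div (loc v₀).subtype_injective (r1 v₀)
    ((reBlocks rE (reDiag (O := loc v₀) hΔ)).sub (Sum.map x x')
      (Sum.elim (Sum.inr ∘ y) (Sum.inl ∘ y'))) π μ (by
      have := (rank_submatrix_le _ (Sum.map x x') (Sum.elim (Sum.inr ∘ y) (Sum.inl ∘ y'))).trans h
      rw [Fintype.card_sum, Fintype.card_fin, Fintype.card_fin]
      refine (Nat.add_le_add_right (le_of_eq_of_le (congrArg rank ?_) this) _).trans hμ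
      ext (i | i) (j | j) <;> simp)
  have k1 := fun σ => har σ _ _ x y x' y' hy hy'
  have k2 := fun v => re_le (r1 v)
  generalize (fromBlocks (U.submatrix x y) 0 0 (V.submatrix x' y')).det = M at *
  have p0 : 0 < v₀ π ^ μ := pow_pos (FinitePlace.pos_iff.2 π0) _
  rw [← tot_single v₀ (v₀ π ^ μ)⁻¹]
  refine hc M⁻¹ _ _ _ (inv_ne_zero m0) ((Set.finite_singleton v₀).subset fun v hv => ?_)
    (fun _ => zero_le_one) (fun v => by split_ifs <;> positivity) (by positivity) (fun w => ?_)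
    fun v => ?_
  · by_contra h0
    exact hv (if_neg h0)
  · rw [map_inv₀, le_inv_mul_iff₀ (InfinitePlace.pos_iff.2 m0), mul_one, ← w.norm_embedding_eq]
    exact k1 _
  · rw [map_inv₀, ← one_div (v M), le_div_iff₀ (FinitePlace.pos_iff.2 m0)]
    split_ifs with hv
    · subst hv
      have k3 := congrArg v hz
      simp only [mul_one, map_mul, map_pow, Subring.coe_subtype] at k3
      rw [mul_assoc, inv_mul_le_iff₀ p0]
      refine le_of_eq_of_le (Eq.trans (by ring) k3) ?_
      exact mul_le_mul_of_nonneg_left z.2 p0.le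
    · have k3 := k2 v
      rw [Subring.coe_mul, map_mul, ← sq] at k3
      rw [one_mul]
      exact (mul_le_mul_of_nonneg_right (pw (c v) (by norm_num)) (apply_nonneg _ _)).trans k3

theorem top_step {H G R Z : Matrix ι ι K} (hG : G * H = 1) (π : loc v₀)
    (hR : G = R + (π : K) • Z) (hZ : ∀ i j, v₀ (Z i j) ≤ 1) {μ : ℕ}
    (hμ : R.rank + μ ≤ Fintype.card ι) : 1 ≤ v₀ π ^ μ * ht v₀ H (1 : Matrix ι ι K) := by
  have hi : Ind (1 : Matrix ι ι K) := ⟨1, Matrix.one_mul _⟩
  have o1 : ∀ (v : FinitePlace K) i j, v ((1 : Matrix ι ι K) i j) ≤ 1 := fun v i j => by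
    by_cases h : i = j <;> simp [one_apply, h]
  have e0 : ht v₀ H (1 : Matrix ι ι K) = vf v₀ H (1 : Matrix ι ι K) v₀ := by
    rw [ht, tot, finprod_eq_single _ v₀ fun v hv => vf_one (Matrix.one_mul _) hv (o1 v) (o1 v),
      Finset.prod_eq_one fun w _ => by rw [vi, (frI (by simp)).vol, one_pow], one_mul]
  obtain ⟨B, g, π', e1, b1, b2, b3⟩ := normF (a := v₀.1) (hi.tw (v₀ := v₀) (H := H) v₀)
  rw [e0, vf, e1, vol_eq (frF (na v₀) b1 b2 b3)]
  rw [tw, if_pos rfl, Matrix.mul_one, ← fromRows_toRows B, fromRows_mul, fromRows_ext_iff] at e1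
  have e2 : B.toRows₁ = G * B.toRows₂ := by
    rw [← Matrix.mul_one (G * _), ← mul_eq_one_comm.1 e1.1.symm, ← Matrix.mul_assoc,
      Matrix.mul_assoc G, ← e1.2, hG, Matrix.one_mul]
  obtain ⟨z, hz⟩ := div (loc v₀).subtype_injective
    (reInt (O := loc v₀) (Z := B.toRows₁) fun i j => b1 (.inl i) j)
    (reInt (O := loc v₀) (Z := Z * B.toRows₂) (mul_int (na v₀) hZ fun i j => b1 (.inr i) j)) π μ (by
      refine (Nat.add_le_add_right (le_of_eq_of_le (congrArg rank ?_)
        (rank_mul_le_left R B.toRows₂)) _).trans hμ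
      rw [e2, hR, Matrix.add_mul, Matrix.smul_mul]
      simp)
  have k1 := congrArg v₀ hz
  have k2 := congrArg (fun M : Matrix ι ι K => v₀ (det M)) e1.1
  simp only [mul_one, map_one, one_mul, map_mul, map_pow, Subring.coe_subtype, det_one,
    det_mul] at k1 k2
  rw [k2, k1]
  exact mul_le_mul_of_nonneg_right (mul_le_of_le_one_right (by positivity) z.2) (apply_nonneg _ _)

end Pool.Agent.MP_5daf37_lc.WF
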