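import Pool.Agent.MP_5daf37_lc.WF.C

/-!
The assembly: a gap in the valuations of the diagonal, the rank inequality, and semistability.
-/

open Matrix NumberField Module

namespace Pool.Agent.MP_5daf37_lc.WF
open FC HG DH

variable {K ι ε : Type} [Field K] [NumberField K] [Fintype ι] [DecidableEq ι] [Fintype ε]
  [DecidableEq ε] {c : ∀ v : FinitePlace K, loc v} {β : (K →+* ℂ) → ℝ} {S : ℝ}
  {v₀ : FinitePlace K} {P k : ℕ}

/-- An irreducible set of symmetries. -/
def Irr (H : Matrix ι ι K) : Prop := ∃ G : Set (Matrix ι ι K), (∀ g ∈ G, Sym H g) ∧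
  ∀ Z : Submodule K (ι → K), (∀ g ∈ G, ∀ x ∈ Z, g *ᵥ x ∈ Z) → Z = ⊥ ∨ Z = ⊤

omit [DecidableEq ι] [NumberField K] in
theorem rank_smul_le {l : Type} (a : K) (R : Matrix l ι K) : (a • R).rank ≤ R.rank := by
  classical
  rw [← Matrix.mul_one R, ← Matrix.mul_smul, Matrix.mul_one]
  exact rank_mul_le_left _ _

theorem side (hc : Ch c β S) (hP : (P : K) ≠ 0) {H G : Matrix ι ι K} (hI : Irr H)
    (hG : G * H = (P : K) ^ k • (1 : Matrix ι ι K)) (sG : Spread (loc v₀) P k G)
    {V : Matrix ε ι K} (r₁ : ∀ v, Re (loc v).subtype (c v) V) (h₁ : Ar β V) {H₁ : Matrix ι ι K}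
    (r₂ : Re (loc v₀).subtype (c v₀ ^ 3) H₁) {Y : Matrix ι ε K} {t a : ℕ} (ht' : t ≤ k)
    (hH : H = (P : K) ^ t • H₁ + Y * V) : ∃ μ : ℕ,
      Fintype.card ι * t ≤ k * μ + Fintype.card ι * (a + 3) ∧
      1 ≤ v₀ P ^ (a * μ * (Fintype.card ι - V.rank)) *
        (S * (2 ^ Fintype.card ι) ^ finrank ℚ K) ^ Fintype.card ι := by
  obtain ⟨s, rfl⟩ := Nat.exists_eq_add_of_le ht'
  obtain ⟨R, Z, z1, z2, z3⟩ := sG (s + a)
  obtain ⟨μ, hμ⟩ := Nat.exists_eq_add_of_le (rank_le_card_width R)
  refine ⟨μ, by rw [hμ] at z3 ⊢; nlinarith, ?_⟩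
  have p0 : ∀ i : ℕ, (P : K) ^ i ≠ 0 := fun i => pow_ne_zero i hP
  obtain ⟨𝒢, g1, g2⟩ := hI
  have e1 : ((P : K) ^ t)⁻¹ • H = H₁ + (((P : K) ^ t)⁻¹ • Y) * V := by
    rw [hH, smul_add, smul_smul, inv_mul_cancel₀ (p0 t), one_smul, Matrix.smul_mul]
  have k1 := ker_step hc r₁ h₁ r₂ (((P : K) ^ t)⁻¹ • Y)
  rw [← e1] at k1
  have k2 := semi (v₀ := v₀) (H := ((P : K) ^ t)⁻¹ • H) 𝒢 (fun g hg => by
    obtain ⟨a1, a2, g', a3, a4⟩ := g1 g hg
    exact ⟨a1, a2, g', a3, by rw [Matrix.smul_mul, Matrix.mul_smul, a4]⟩) g2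
    (LinearMap.ker V.mulVecLin)
  have k3 := top_step (v₀ := v₀) (H := ((P : K) ^ t)⁻¹ • H) (G := ((P : K) ^ s)⁻¹ • G)
    (R := ((P : K) ^ s)⁻¹ • R) (Z := Z) (by
      rw [Matrix.smul_mul, Matrix.mul_smul, hG, smul_smul, smul_smul, pow_add]
      convert one_smul K _ using 2
      field_simp) ((P : loc v₀) ^ a) (by
      rw [z2, smul_add, smul_smul, pow_add, inv_mul_cancel_left₀ (p0 s)]
      simp) z1 (μ := μ) ((Nat.add_le_add_right (rank_smul_le _ _) _).trans hμ.ge)
  have e2 : finrank K (LinearMap.ker V.mulVecLin) = Fintype.card ι - V.rank :=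
    eq_tsub_of_add_eq ((add_comm _ _).trans ((LinearMap.finrank_range_add_finrank_ker
      V.mulVecLin).trans (finrank_fintype_fun_eq_card K)))
  have k4 := k2.trans (pow_le_pow_left₀ (zero_le_one.trans (one_le_ht (bas_ind _))) k1 _)
  rw [e2] at k4
  have k5 := one_le_pow₀ (n := Fintype.card ι - V.rank) k3
  rw [mul_pow] at k5
  refine k5.trans (le_of_le_of_eq (mul_le_mul_of_nonneg_left k4 (by positivity)) ?_)
  simp [pow_mul]

theorem window {m L : ℕ} (n : ℕ → ℕ) (hn : n L ≤ m) (hL : 0 < L) :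
    ∃ l < L, L * n (l + 1) ≤ L * n l + m := by
  by_contra h
  push Not at h
  have : ∀ l ≤ L, l * m + l ≤ L * n l := fun l hl => by
    induction l with
    | zero => simp
    | succ l ih => have := ih (by omega); have := h l (by omega); nlinarith
  have := this L le_rfl
  nlinarith [Nat.mul_le_mul_left L hn]

theorem abs_bound (hc : Ch c β S) (hS : 1 ≤ S) (hP : (P : K) ≠ 0) {H G A : Matrix ι ι K}
    (hI : Irr H) (hI' : Irr Hᵀ) (hG : G * H = (P : K) ^ k • (1 : Matrix ι ι K))
    (hG' : H * G = (P : K) ^ k • (1 : Matrix ι ι K)) (sH : Spread (loc v₀) P k H)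
    (sG : Spread (loc v₀) P k G) {U : Matrix ι ε K} {V : Matrix ε ι K}
    (rA : Re (loc v₀).subtype (c v₀) A) (rU : ∀ v, Re (loc v).subtype (c v) U)
    (rV : ∀ v, Re (loc v).subtype (c v) V) (aV : ∀ T : Finset ε, Ar β (mk K T * V))
    (aU : ∀ T : Finset ε, Ar β (U * mk K T)ᵀ)
    (har : ∀ (T : Finset ε) (σ : K →+* ℂ) (r r' : ℕ) (x : Fin r → ι) (y : Fin r → ε)
      (x' : Fin r' → ε) (y' : Fin r' → ι), Function.Injective y → Function.Injective y' →
      ‖σ (fromBlocks ((U * mk K T).submatrix x y) 0 0 ((mk K T * V).submatrix x' y')).det‖ ≤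
        β σ * 2 ^ (r + r'))
    {l : K} {D : ε → K} (hH : H = l • A + U * diagonal D * V) {j u : ℕ} (hj : 0 < j) (hu : 2 ≤ u)
    (hl : v₀ (l / P ^ (k / 2)) ≤ 1) (hk : 1100 * (j * j * u) ≤ k) (hk' : k ≤ 2200 * (j * j * u))
    (hm : j * Fintype.card ε + Fintype.card ι ≤ 2 * (j * Fintype.card ι)) :
    1 ≤ v₀ P ^ (u * Fintype.card ι) *
      (S * (2 ^ (2 * Fintype.card ι)) ^ finrank ℚ K) ^ (35 * j) := by
  classical
  have p0 : ∀ i : ℕ, (P : K) ^ i ≠ 0 := fun i => pow_ne_zero i hP
  have p1 : v₀ P ≤ 1 := natCast_mem (loc v₀) P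
  have p2 : 0 < v₀ P := FinitePlace.pos_iff.2 hP
  have mono : ∀ (x : K) {i i' : ℕ}, i ≤ i' → v₀ (x / P ^ i') ≤ 1 → v₀ (x / P ^ i) ≤ 1 :=
    fun x i i' h h' => by
      rw [map_div₀, map_pow, div_le_one (by positivity)] at h' ⊢
      exact h'.trans (pow_le_pow_of_le_one p2.le p1 h)
  let T : ℕ → Finset ε := fun i => Finset.univ.filter fun e => ¬ v₀ (D e / P ^ i) ≤ 1
  obtain ⟨w, w1, w2⟩ := window (L := 16 * j) (fun w => (T (32 * (j * u) + 2 * u * w)).card)
    (Finset.card_le_univ _) (by omega)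
  obtain ⟨a, ha⟩ : ∃ a, a = 32 * (j * u) + 2 * u * w := ⟨_, rfl⟩
  obtain ⟨t, ht'⟩ : ∃ t, t = a + u + u := ⟨_, rfl⟩
  rw [show 32 * (j * u) + 2 * u * (w + 1) = t by rw [ht', ha]; ring, ← ha] at w2
  have t1 : t ≤ 64 * (j * u) := by rw [ht', ha]; nlinarith [Nat.mul_le_mul_left u w1]
  have t2 : j * u ≤ j * j * u := by rw [mul_assoc]; exact Nat.le_mul_of_pos_left _ hj
  have t3 : T a ⊆ T t := fun e he => by
    simp only [T, Finset.mem_filter, Finset.mem_univ, true_and] at he ⊢
    exact fun h => he (mono _ (by omega) h)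
  let H₁ := diagonal (fun _ => l / P ^ t) * A +
    U * diagonal (fun e => if e ∈ T t then 0 else D e / P ^ t) * V
  have r₂ : Re (loc v₀).subtype (c v₀ ^ 3) H₁ := by
    have := ((reDiag (O := loc v₀) (a := fun _ : ι => l / P ^ t) fun _ =>
      mono l (by omega) hl).mul rA).add (((rU v₀).mul (reDiag (O := loc v₀)
        (a := fun e => if e ∈ T t then 0 else D e / P ^ t) fun e => by
          split_ifs with h
          exacts [zero_mem _, of_not_not fun h' => h (Finset.mem_filter.2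
            ⟨Finset.mem_univ _, h'⟩)])).mul (rV v₀))
    rwa [show 1 * c v₀ * (c v₀ * 1 * c v₀) = c v₀ ^ 3 by ring] at this
  have e1 : H = (P : K) ^ t • H₁ + U * (diagonal D * mk K (T t)) * V := by
    have : diagonal D = (P : K) ^ t • diagonal (fun e => if e ∈ T t then 0 else D e / P ^ t) +
        diagonal D * mk K (T t) := by
      rw [HG.mk, diagonal_mul_diagonal, ← diagonal_smul, diagonal_add]
      congr 1
      funext e
      by_cases h : e ∈ T t <;> simp [h, mul_div_cancel₀ _ (p0 t)]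
    rw [hH, smul_add, add_assoc]
    congr 1
    · ext i i'; simp [← mul_assoc, mul_div_cancel₀ _ (p0 t)]
    · conv_lhs => rw [this]
      simp only [Matrix.mul_add, Matrix.add_mul, Matrix.mul_smul, Matrix.smul_mul]
  have s1 := side (a := 16 * (j * u)) hc hP hI hG sG (V := mk K (T t) * V)
    (fun v => by simpa using (reMk (T t)).mul (rV v)) (aV _) r₂ (Y := U * diagonal D) (t := t)
    (by omega) (by rw [e1]; simp only [Matrix.mul_assoc])
  have s2 := side (a := 16 * (j * u)) hc hP hI' (G := Gᵀ)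
    (by rw [← transpose_mul, hG', transpose_smul, transpose_one]) (fun i => by
      obtain ⟨R, Z, z1, z2, z3⟩ := sG i
      exact ⟨Rᵀ, Zᵀ, fun i j => z1 j i, by rw [z2]; rfl, by rwa [rank_transpose]⟩)
    (V := (U * mk K (T t))ᵀ) (fun v => reT (by simpa using (rU v).mul (reMk (T t)))) (aU _)
    (reT r₂) (Y := (diagonal D * V)ᵀ) (t := t) (by omega) (by
      rw [e1, transpose_add, transpose_smul, ← transpose_mul, HG.mk, diagonal_mul_diagonal,
        Matrix.mul_assoc U _ (diagonal D * V), ← Matrix.mul_assoc _ (diagonal D),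
        diagonal_mul_diagonal, Matrix.mul_assoc]
      simp only [mul_comm])
  obtain ⟨R, Z, z1, z2, z3⟩ := sH t
  have s3 := fun μ => rank_step (μ := μ) (a := R.rank + (T t \ T a).card + (T a).card) hc
    (U := U * mk K (T a)) (V := mk K (T a) * V)
    (fun v => by simpa using (rU v).mul (reMk (T a))) (fun v => by simpa using (reMk (T a)).mul (rV v))
    (har _) (E := Z + diagonal (fun _ => -1) * H₁) (by
      simpa only [one_mul] using (reInt z1).add ((reDiag (O := loc v₀) (a := fun _ : ι => -1)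
        fun _ => neg_mem (one_mem _)).mul r₂))
    (Δ := fun e => if e ∈ T a then P ^ a / D e else 0) (fun e => by
      split_ifs with h
      · rw [← inv_div, map_inv₀]
        exact inv_le_one_of_one_le₀ (not_le.1 (Finset.mem_filter.1 h).2).le
      · simp) ((P : loc v₀) ^ u) (by simpa using p0 u) (by
      have b1 := rank_add_le' (fromBlocks (((P : K) ^ (a + u))⁻¹ •
          (R - U * diagonal D * mk K (T t \ T a) * V)) 0 0 (0 : Matrix ε ε K))
        (fromRows (((P : K) ^ (a + u))⁻¹ • (U * diagonal D)) (-1 : Matrix ε ε K) * mk K (T a) *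
          fromCols (-V) (diagonal fun e => P ^ (a + u) / D e))
      refine le_of_eq_of_le (congrArg rank ?_) (b1.trans (add_le_add ((corner _ 0).1.trans
        ((rank_smul_le _ _).trans ((rank_sub_le' _ _).trans (Nat.add_le_add_left
          ((rank_mul_le_left _ _).trans ((rank_mul_le_right _ _).trans (rank_mk _))) _))))
        ((rank_mul_le_left _ _).trans ((rank_mul_le_right _ _).trans (rank_mk _)))))
      have d0 : ∀ e ∈ T a, D e ≠ 0 := fun e he h => (Finset.mem_filter.1 he).2 (by simp [h])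
      have b2 : mk K (T t) = mk K (T t \ T a) + mk K (T a) := by
        rw [HG.mk, HG.mk, HG.mk, diagonal_add]
        congr 1
        funext e
        by_cases h : e ∈ T a
        · simp [h, t3 h]
        · simp [h]
      have b3 : R = (P : K) ^ t • H₁ + U * (diagonal D * mk K (T t)) * V - (P : K) ^ t • Z := by
        rw [← e1, z2, add_sub_cancel_right]
      rw [fromRows_mul, fromRows_mul_fromCols, fromBlocks_add, fromBlocks_smul, sub_eq_add_neg,
        fromBlocks_neg, fromBlocks_add, fromBlocks_inj]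
      refine ⟨?_, ?_, by simp, ?_⟩
      · rw [b3, b2, ht', pow_add _ (a + u)]
        simp only [Matrix.mul_add, Matrix.add_mul, Matrix.mul_assoc, Matrix.smul_mul,
          Matrix.mul_neg]
        ext i i'
        have := p0 (a + u)
        simp only [Matrix.add_apply, Matrix.sub_apply, Matrix.neg_apply, Matrix.smul_apply,
          Matrix.zero_apply, diagonal_mul, smul_eq_mul, Subring.coe_pow, Subring.coe_natCast]
        field_simp
        ring
      · ext i e
        by_cases h : e ∈ T a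
        · have := p0 (a + u)
          have := d0 e h
          simp only [HG.mk, Matrix.add_apply, Matrix.neg_apply, Matrix.smul_apply, Matrix.zero_apply,
            mul_diagonal, smul_eq_mul, if_pos h]
          field_simp
          ring
        · simp [HG.mk, h]
      · ext i e
        by_cases h : e ∈ T a <;> by_cases h' : i = e <;> simp [HG.mk, h, h', pow_add]
        ring)
  simp only [Subring.coe_pow, Subring.coe_natCast, map_pow, ← pow_mul (v₀ P)] at s3
  have q1 := rank_mul_mk (U * mk K (T t)) (T t \ T a)ᶜ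
  have q2 := rank_mk_mul (mk K (T t) * V) (T t \ T a)ᶜ
  have q3 : T t ∩ (T t \ T a)ᶜ = T a := by
    ext e
    by_cases h : e ∈ T a
    · simp [h, t3 h]
    · simp [h]
  rw [compl_compl, Matrix.mul_assoc, mk_mul, q3] at q1
  rw [compl_compl, ← Matrix.mul_assoc, mk_mul, Finset.inter_comm, q3] at q2
  have q4 := Finset.card_sdiff_add_card_eq_card t3
  have q5 := Finset.card_le_univ (T t)
  have q6 := rank_le_card_height (U * mk K (T a))
  have q7 := rank_le_card_width (mk K (T a) * V)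
  obtain ⟨x, q8⟩ := Nat.exists_eq_add_of_le (rank_le_card_height (U * mk K (T t)))
  obtain ⟨y, q9⟩ := Nat.exists_eq_add_of_le (rank_le_card_width (mk K (T t) * V))
  rw [rank_transpose, show Fintype.card ι - (U * mk K (T t)).rank = x by omega] at s2
  rw [show Fintype.card ι - (mk K (T t) * V).rank = y by omega] at s1
  generalize (U * mk K (T t)).rank = ρ₁ at *
  generalize (mk K (T t) * V).rank = ρ₂ at *
  generalize (U * mk K (T a)).rank = ρ₃ at *
  generalize (mk K (T a) * V).rank = ρ₄ at *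
  generalize (T t \ T a).card = n₁ at *
  generalize (T a).card = n₂ at *
  generalize (T t).card = n₃ at *
  generalize R.rank = r at *
  generalize Fintype.card ι = N at *
  generalize Fintype.card ε = m at *
  generalize finrank ℚ K = d at *
  generalize v₀ P = ϖ at *
  have b0 : ∀ i, i ≤ 2 * N → S * (2 ^ i) ^ d ≤ S * (2 ^ (2 * N)) ^ d := fun i hi => by
    gcongr
    norm_num
  have b1 : (1 : ℝ) ≤ S * (2 ^ (2 * N)) ^ d := le_trans (by simpa using hS) (b0 0 (by omega))
  generalize S * (2 ^ (2 * N)) ^ d = B at *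
  have fin : ∀ e f : ℕ, 0 < f → 1 ≤ ϖ ^ e * B ^ f → u * N * f ≤ 35 * j * e →
      1 ≤ ϖ ^ (u * N) * B ^ (35 * j) := fun e f f0 h1 h2 => by
    refine (one_le_pow_iff_of_nonneg (by positivity) f0.ne').1 ?_
    refine (one_le_pow₀ (n := 35 * j) h1).trans ?_
    rw [mul_pow, mul_pow, ← pow_mul, ← pow_mul, ← pow_mul, ← pow_mul, mul_comm f]
    exact mul_le_mul_of_nonneg_right (pow_le_pow_of_le_one p2.le p1 (by linarith))
      (by positivity)
  rcases Nat.eq_zero_or_pos N with rfl | n0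
  · simpa using one_le_pow₀ b1
  have sd : ∀ z : ℕ, N ≤ 4 * (j * z) → (∃ μ : ℕ, N * t ≤ k * μ + N * (16 * (j * u) + 3) ∧
      1 ≤ ϖ ^ (16 * (j * u) * μ * z) * (S * (2 ^ N) ^ d) ^ N) →
      1 ≤ ϖ ^ (u * N) * B ^ (35 * j) := fun z hz ⟨μ, m1, m2⟩ => by
    refine fin _ N n0 (m2.trans (mul_le_mul_of_nonneg_left (pow_le_pow_left₀ (by positivity)
      (b0 N (by omega)) _) (by positivity))) ?_
    have a1 : 16 * (j * u) + (16 * (j * u) + 3) ≤ t := by omega
    have a2 : N ≤ 140 * (j * μ) := by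
      refine le_of_mul_le_mul_right (a := 16 * (j * u)) ?_ (by positivity)
      nlinarith [Nat.mul_le_mul_left N a1, Nat.mul_le_mul_right μ hk']
    calc u * N * N ≤ u * (140 * (j * μ)) * (4 * (j * z)) := by gcongr
      _ = _ := by ring
  by_cases hμ : r + n₁ + n₂ + (N / (16 * j) + 1) ≤ ρ₃ + ρ₄
  · have a1 := (s3 _ hμ).trans (b0 _ (by omega))
    refine fin (u * (N / (16 * j) + 1)) 1 one_pos ?_ ?_
    · rwa [pow_one, ← inv_mul_le_iff₀ (by positivity), mul_one]
    · have := Nat.mul_le_mul_left u (Nat.lt_mul_div_succ N (show 0 < 16 * j by omega)).le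
      nlinarith [Nat.zero_le (j * (u * (N / (16 * j) + 1)))]
  have a1 := Nat.mul_div_le N (16 * j)
  have a2 : 16 * (j * r) ≤ N := by
    refine le_of_mul_le_mul_right (a := 68 * (j * u)) ?_ (by positivity)
    have : 3 ≤ 4 * (j * u) := by nlinarith
    nlinarith [Nat.mul_le_mul_right r hk, Nat.mul_le_mul_left N t1, Nat.mul_le_mul_left N this,
      Nat.zero_le (j * j * u * r)]
  have a3 : m ≤ 2 * N := by
    refine le_of_mul_le_mul_left (a := j) ?_ hj
    nlinarith
  have a4 : 2 * N ≤ m + r + 2 * n₁ + N / (16 * j) + x + y := by omega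
  have a5 := Nat.mul_le_mul_left (16 * j) a4
  have a6 : 16 * (j * n₁) ≤ m := by rw [← q4] at w2; nlinarith
  rcases le_total x y with h | h
  · exact sd y (by nlinarith [Nat.mul_le_mul_left j h]) s1
  · exact sd x (by nlinarith [Nat.mul_le_mul_left j h]) s2

end Pool.Agent.MP_5daf37_lc.WF
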