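import Pool.Agent.MP_5daf37_lc.WF.D

/-!
The symmetries of the Fourier matrix act irreducibly.
-/

open Matrix Polynomial NumberField

namespace Pool.Agent.MP_5daf37_lc.WF
open FC HG DH

variable {K : Type} [Field K] {t n : ℕ} {W : Matrix (Fin t) (Fin t) K}

theorem simple (hχ : Irreducible W.charpoly) (Z : Submodule K (Fin t → K))
    (hZ : ∀ y ∈ Z, W *ᵥ y ∈ Z) {y : Fin t → K} (hy : y ∈ Z) (y0 : y ≠ 0) : Z = ⊤ := by
  have h1 : ∀ j : ℕ, W ^ j *ᵥ y ∈ Z := fun j => by
    induction j with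
    | zero => simpa using hy
    | succ j ih => rw [pow_succ', ← mulVec_mulVec]; exact hZ _ ih
  let L : K[X] →ₗ[K] (Fin t → K) :=
    { toFun := fun p => aeval W p *ᵥ y
      map_add' := fun p q => by rw [map_add, add_mulVec]
      map_smul' := fun c p => by rw [map_smul, smul_mulVec]; rfl }
  have h2 : ∀ p, L p ∈ Z := fun p => by
    induction p using Polynomial.induction_on' with
    | add p q h h' => rw [map_add]; exact Z.add_mem h h'
    | monomial j c =>
      rw [← smul_X_eq_monomial, map_smul]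
      exact Z.smul_mem c (by simpa [L] using h1 j)
  have h3 : Function.Injective
      (L ∘ₗ (degreeLT K t).subtype ∘ₗ (degreeLTEquiv K t).symm.toLinearMap) := by
    refine Function.Injective.comp (g := L ∘ₗ (degreeLT K t).subtype)
      (LinearMap.ker_eq_bot.1 (LinearMap.ker_eq_bot'.2 fun p hp => ?_))
      (degreeLTEquiv K t).symm.injective
    by_contra p0
    obtain ⟨a, b, h⟩ := hχ.coprime_iff_not_dvd.2 fun h : W.charpoly ∣ p => p0 (Subtype.ext
      (eq_zero_of_dvd_of_degree_lt h (by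
        rw [charpoly_degree_eq_dim, Fintype.card_fin]; exact mem_degreeLT.1 p.2)))
    have h4 := congrArg (fun r => aeval W r *ᵥ y) h
    have h5 : aeval W (p : K[X]) *ᵥ y = 0 := hp
    simp only [map_add, map_mul, aeval_self_charpoly, Matrix.mul_zero, zero_add, map_one,
      one_mulVec, ← mulVec_mulVec, h5, mulVec_zero] at h4
    exact y0 h4.symm
  refine eq_top_iff.2 fun x _ => ?_
  obtain ⟨z, rfl⟩ := LinearMap.injective_iff_surjective.1 h3 x
  exact h2 _

/-- The block Fourier matrix. -/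
def Hm (n : ℕ) (W : Matrix (Fin t) (Fin t) K) : Matrix (Fin n × Fin t) (Fin n × Fin t) K :=
  of fun x y => (W ^ (x.1 * y.1 : ℕ)) x.2 y.2

/-- Shifts and modulations. -/
def Mon (W : Matrix (Fin t) (Fin t) K) (c : Fin n) (a b : ℕ) :
    Matrix (Fin n × Fin t) (Fin n × Fin t) K :=
  of fun x y => if x.1 = y.1 + c then (W ^ (y.1 * a + b : ℕ)) x.2 y.2 else 0

theorem act (c : Fin n) (a b : ℕ) (z : Fin n × Fin t → K) (j : Fin n) (x : Fin t) :
    (Mon W c a b *ᵥ z) (j + c, x) = (W ^ (j * a + b : ℕ) *ᵥ fun y => z (j, y)) x := by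
  simp only [Mon, mulVec, dotProduct, of_apply, Fintype.sum_prod_type, add_left_inj]
  rw [Finset.sum_eq_single j (fun l _ h => by simp [h.symm]) (by simp)]
  simp

theorem intertwine (h : W ^ n = 1) (c a : Fin n) (b : ℕ) : Hm n W * Mon W c a b =
    (of fun x y : Fin n × Fin t => if y.1 = x.1 + a then (W ^ (x.1 * c + b : ℕ)) x.2 y.2 else 0) *
      Hm n W := by
  have e : ∀ (i : ℕ) (j c : Fin n), W ^ (i * (j + c : Fin n)) = W ^ (i * (j + c)) := fun i j c => by
    rw [pow_mul, pow_mul, Fin.val_add, ← pow_eq_pow_mod _ (by rw [← pow_mul, mul_comm, pow_mul, h,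
      one_pow])]
  ext ⟨i, x⟩ ⟨j, y⟩
  simp only [Hm, Mon, mul_apply, of_apply, Fintype.sum_prod_type]
  rw [Finset.sum_eq_single (j + c) (fun l _ h => by simp [h]) (by simp),
    Finset.sum_eq_single (i + a) (fun l _ h => by simp [h]) (by simp)]
  simp only [if_true]
  rw [← mul_apply, ← mul_apply, mul_comm (i + a : Fin n).val, e, e, ← pow_add, ← pow_add]
  ring_nf

theorem mon_unit {σ : K →+* ℂ} (hU : W.map σ ∈ unitaryGroup (Fin t) ℂ) (c : Fin n) (a b : ℕ) :
    ((Mon W c a b).map σ)ᴴ * (Mon W c a b).map σ = 1 := by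
  ext ⟨j, x⟩ ⟨l, y⟩
  simp only [Mon, mul_apply, conjTranspose_apply, map_apply, of_apply, Fintype.sum_prod_type]
  rw [Finset.sum_eq_single (j + c) (fun l _ h => by simp [h]) (by simp)]
  by_cases h : j = l
  · subst h
    have h1 := congrFun (congrFun (mem_unitaryGroup_iff'.1 (pow_mem hU (j * a + b))) x) y
    rw [← RingHom.mapMatrix_apply, ← map_pow] at h1
    simpa [mul_apply, one_apply] using h1
  · simp [h]

theorem irr [NeZero n] [NumberField K] (hW : aeval W (cyclotomic n ℤ) = 0) (hχ : Irreducible W.charpoly)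
    (hI : ∀ (v : FinitePlace K) (j : ℕ) x y, v ((W ^ j) x y) ≤ 1)
    (hU : ∀ σ : K →+* ℂ, W.map σ ∈ unitaryGroup (Fin t) ℂ) : Irr (Hm n W) := by
  have h1 : W ^ n = 1 := by
    obtain ⟨r, hr⟩ := cyclotomic.dvd_X_pow_sub_one n ℤ
    have := congrArg (aeval W) hr
    rwa [map_mul, hW, zero_mul, map_sub, map_pow, aeval_X, map_one, sub_eq_zero] at this
  refine ⟨{g | ∃ (c a : Fin n) (b : ℕ), g = Mon W c a b}, ?_, fun Z hZ => ?_⟩
  · rintro _ ⟨c, a, b, rfl⟩
    refine ⟨fun v x y => ?_, fun σ => mon_unit (hU σ) c a b, _, fun v x y => ?_,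
      intertwine h1 c a b⟩ <;>
    · simp only [Mon, of_apply]
      split_ifs
      exacts [hI _ _ _ _, by simp]
  obtain ⟨R, _, _, ω, hω, hR⟩ := universal n (NeZero.pos n)
  obtain ⟨ψ, ψ1, -⟩ := hR _ W hW
  obtain ⟨m, rfl⟩ := Nat.exists_eq_add_of_le' (NeZero.pos n)
  let em : Fin (m + 1) → (Fin t → K) →ₗ[K] (Fin (m + 1) × Fin t → K) := fun i =>
    { toFun := fun y x => if x.1 = i then y x.2 else 0
      map_add' := fun y y' => by ext x; by_cases h : x.1 = i <;> simp [h]
      map_smul' := fun c y => by ext x; by_cases h : x.1 = i <;> simp [h] }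
  have k1 : ∀ z ∈ Z, ∀ i, em i (fun y => z (i, y)) ∈ Z := fun z hz i => by
    have a1 := Z.sum_mem (t := Finset.univ) fun (j : Fin (m + 1)) _ =>
      hZ _ ⟨0, j, m * (j * i), rfl⟩ z hz
    refine (Z.smul_mem_iff (s := ((m + 1 : ℕ) : K)) (Nat.cast_ne_zero.2 m.succ_ne_zero)).1 ?_
    convert a1 using 1
    symm
    ext ⟨l, x⟩
    have a2 := congrArg ψ (congrFun (congrFun (dft_mul hω) l) i)
    simp only [dft, mul_apply, of_apply, map_sum, map_pow, ψ1, ← pow_mul,
      ← pow_add] at a2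
    have a3 := fun j : Fin (m + 1) => act (W := W) 0 j (m * (j * i)) z l x
    simp only [add_zero] at a3
    rw [Finset.sum_apply, Finset.sum_congr rfl fun j _ => a3 j, ← Finset.sum_apply,
      ← sum_mulVec, a2]
    by_cases h : l = i
    · rw [h, Matrix.smul_apply, one_apply_eq, smul_eq_mul, mul_one, map_natCast, natCast_mulVec]
      simp [em]
    · simp [h, em]
  have k2 : ∀ (i c : Fin (m + 1)) (b : ℕ) y, Mon W c (0 : Fin (m + 1)) b *ᵥ em i y =
      em (i + c) (W ^ b *ᵥ y) := fun i c b y => by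
    ext ⟨l, x⟩
    obtain ⟨l, rfl⟩ := (Equiv.addRight c).surjective l
    refine (act c _ b _ l x).trans ?_
    by_cases h : l = i
    · simp [h, em]
    · simp [h, em, mulVec, dotProduct]
  refine or_iff_not_imp_left.2 fun z0 => ?_
  obtain ⟨z, hz, z1⟩ := Z.ne_bot_iff.1 z0
  obtain ⟨⟨i, x⟩, z2⟩ := Function.ne_iff.1 z1
  have k3 := simple hχ (Z.comap (em i)) (fun y hy => by
    have := hZ _ ⟨0, 0, 1, rfl⟩ _ hy
    rw [k2] at this
    simpa using this) (k1 z hz i) (Function.ne_iff.2 ⟨x, z2⟩)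
  refine eq_top_iff.2 fun z' _ => ?_
  have e : z' = ∑ l, em l fun y => z' (l, y) := by
    ext ⟨l, y⟩
    simp [em]
  rw [e]
  refine Z.sum_mem fun l _ => ?_
  have := hZ _ ⟨l - i, 0, 0, rfl⟩ _ (k3.ge (Submodule.mem_top (x := fun y => z' (l, y))))
  rw [k2] at this
  simpa using this

end Pool.Agent.MP_5daf37_lc.WF
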