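import Pool.Agent.MP_5daf37_lc.WF.E

/-!
The cheap part comes from a circuit; the choice of the place; the lower bound.
-/

open Matrix Polynomial NumberField

namespace Pool.Agent.MP_5daf37_lc.WF
open FC HG DH

section
variable {E l m κ : Type} [CommRing E] [Fintype κ] [DecidableEq κ]

theorem sel_mul (x : l → κ) (M : Matrix κ m E) :
    (1 : Matrix κ κ E).submatrix x id * M = M.submatrix x id := by
  ext i j; simp [mul_apply, one_apply]

theorem mul_sel (y : m → κ) (M : Matrix l κ E) :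
    M * (1 : Matrix κ κ E).submatrix id y = M.submatrix id y := by
  ext i j; simp [mul_apply, one_apply]

theorem l1_one : L1 (1 : Matrix κ κ ℂ) := (mk_univ (T := ℂ) (ε := κ)) ▸ L1.mk Finset.univ

end

variable {K ι ε κ : Type} [Field K] [Fintype ι] [DecidableEq ι] [Fintype ε] [DecidableEq ε]
  [Fintype κ] [DecidableEq κ] {Φ : Matrix κ κ K} {β : (K →+* ℂ) → ℝ}

omit [Fintype ι] [DecidableEq ι] in
theorem l1F (T : Finset ε) (x : ι → ε) (b : ε → κ) :
    L1 ((HG.mk ℂ T).submatrix x id * (1 : Matrix κ κ ℂ).submatrix b id) := fun i =>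
  (l1_mul _ (l1_one.sub b Function.injective_id) i).trans
    ((L1.mk T).sub x Function.injective_id i)

omit [DecidableEq ι] in
theorem l1G (T : Finset ε) {x : ι → ε} (hx : Function.Injective x) {a : ε → κ}
    (ha : Function.Injective a) :
    L1 ((1 : Matrix κ κ ℂ).submatrix id a * (HG.mk ℂ T).submatrix id x) := fun i =>
  (l1_mul _ ((L1.mk T).sub id hx) i).trans (l1_one.sub id ha i)

omit [Fintype ι] [DecidableEq ι] in
theorem eF (σ : K →+* ℂ) (T : Finset ε) {ρ : Type} (x : ρ → ε) (b : ε → κ) (c : ι → κ) :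
    (HG.mk ℂ T).submatrix x id * (1 : Matrix κ κ ℂ).submatrix b id * Φ.map σ *
      (1 : Matrix κ κ ℂ).submatrix id c =
      ((HG.mk K T * Φ.submatrix b c).submatrix x id).map σ := by
  rw [Matrix.mul_assoc _ _ (Φ.map σ), sel_mul, mul_sel, ← submatrix_map, Matrix.map_mul, mk_map]
  rfl

omit [Fintype ι] [DecidableEq ι] in
theorem eG (σ : K →+* ℂ) (T : Finset ε) {ρ : Type} (x : ρ → ε) (a : ε → κ) (r : ι → κ) :
    (1 : Matrix κ κ ℂ).submatrix r id * Φ.map σ *
      ((1 : Matrix κ κ ℂ).submatrix id a * (HG.mk ℂ T).submatrix id x) =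
      ((Φ.submatrix r a * HG.mk K T).submatrix id x).map σ := by
  rw [← Matrix.mul_assoc, sel_mul, mul_sel, ← submatrix_map, Matrix.map_mul, mk_map]
  rfl

omit [DecidableEq ι] in
theorem arV (h : Two Φ β) (b : ε → κ) {c : ι → κ} (hc : Function.Injective c) (T : Finset ε) :
    Ar β (HG.mk K T * Φ.submatrix b c) := by
  intro σ ρ z _ _ _ _ x Q e _ hQ
  have h1 := h σ (ρ ⊕ z) (fromRows ((HG.mk ℂ T).submatrix x id *
    (1 : Matrix κ κ ℂ).submatrix b id) 0) 0 (((1 : Matrix κ κ ℂ).submatrix id c).submatrix id e) 0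
    ((fromRows 0 Q).submatrix id e) (by
      rintro (i | i)
      exacts [l1F T x b i, by simp]) (fun i => by simp)
    ((l1_one.sub id hc).sub id e.injective) (fun i => by simp) (by
      rintro (i | i)
      · simp
      · have := gram Qᴴ i
        rw [conjTranspose_conjTranspose, hQ, one_apply_eq] at this
        have h2 : ∑ j, ‖Q i j‖ ^ 2 = 1 := by simpa using (by exact_mod_cast this :
          ∑ j, ‖Qᴴ j i‖ ^ 2 = 1)
        exact ((e.sum_comp fun j => ‖Q i j‖ ^ 2).trans h2).trans_le one_le_two)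
  rw [Fintype.card_congr e] at h1
  convert h1 using 3
  rw [← eF, Matrix.mul_zero, add_zero, fromRows_mul, fromRows_mul]
  ext (i | i) j
  · exact (zero_add _).symm
  · simp

theorem arU (h : Two Φ β) (r : ι → κ) {a : ε → κ} (ha : Function.Injective a) (T : Finset ε) :
    Ar β (Φ.submatrix r a * HG.mk K T)ᵀ := by
  intro σ ρ z _ _ _ _ x Q e hx hQ
  have h1 := h σ (ρ ⊕ z) (((1 : Matrix κ κ ℂ).submatrix r id).submatrix e id) 0
    (fromCols ((1 : Matrix κ κ ℂ).submatrix id a * (HG.mk ℂ T).submatrix id x) 0) 0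
    ((fromCols 0 Qᵀ).submatrix e id)
    ((l1_one.sub r Function.injective_id).sub e Function.injective_id) (fun i => by simp)
    (fun i => by simpa [Fintype.sum_sum_type] using l1G T hx ha i) (fun i => by simp) (fun i => by
      have := contr (B := Qᴴ) (by rw [conjTranspose_conjTranspose, hQ]) (1 : Matrix ι ι ℂ) (e i)
      simp [one_apply, apply_ite] at this
      simpa [Fintype.sum_sum_type] using this.trans one_le_two)
  rw [Fintype.card_congr e, ← det_transpose] at h1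
  convert h1 using 3
  have e1 := eG (Φ := Φ) σ T x a r
  rw [Matrix.mul_zero, add_zero, mul_fromCols]
  ext (i | i) j
  · exact (congrFun (congrFun e1 (e j)) i).symm.trans (zero_add _).symm
  · simp

omit [Fintype ι] [DecidableEq ι] in
theorem arB (h : Two Φ β) (r : ι → κ) {c : ι → κ} (hc : Function.Injective c) {a : ε → κ}
    (ha : Function.Injective a) (b : ε → κ) (T : Finset ε) (σ : K →+* ℂ) (s s' : ℕ)
    (x : Fin s → ι) (y : Fin s → ε) (x' : Fin s' → ε) (y' : Fin s' → ι)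
    (hy : Function.Injective y) (hy' : Function.Injective y') :
    ‖σ (fromBlocks ((Φ.submatrix r a * HG.mk K T).submatrix x y) 0 0
      ((HG.mk K T * Φ.submatrix b c).submatrix x' y')).det‖ ≤ β σ * 2 ^ (s + s') := by
  have h1 := h σ (Fin s ⊕ Fin s') (fromRows ((1 : Matrix κ κ ℂ).submatrix (r ∘ x) id) 0)
    (fromRows 0 ((HG.mk ℂ T).submatrix x' id * (1 : Matrix κ κ ℂ).submatrix b id))
    (fromCols ((1 : Matrix κ κ ℂ).submatrix id a * (HG.mk ℂ T).submatrix id y) 0)
    (fromCols 0 ((1 : Matrix κ κ ℂ).submatrix id (c ∘ y'))) 0 (by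
      rintro (i | i)
      exacts [l1_one.sub _ Function.injective_id i, by simp]) (by
      rintro (i | i)
      exacts [by simp, l1F T x' b i])
    (fun i => by simpa [Fintype.sum_sum_type] using l1G T hy ha i)
    (fun i => by simpa [Fintype.sum_sum_type] using l1_one.sub id (hc.comp hy') i) (by simp)
  rw [Fintype.card_sum, Fintype.card_fin, Fintype.card_fin, fromRows_mul _ _ (Φ.map σ),
    fromRows_mul _ _ (Φ.map σ), fromRows_mul_fromCols, fromRows_mul_fromCols, eF, eG] at h1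
  rw [RingHom.map_det]
  convert h1 using 3
  ext (i | i) (j | j) <;> simp <;> rfl

variable [NumberField K]

theorem tot_prod {ε : Type} [Fintype ε] (x : ε → K) :
    (fun v : FinitePlace K => ∏ e, max (v (x e)) 1).HasFiniteMulSupport ∧
    tot (fun w => ∏ e, max (w (x e)) 1) (fun v => ∏ e, max (v (x e)) 1) =
      ∏ e, Height.mulHeight₁ (x e) := by
  have s1 : ∀ e, (fun v : FinitePlace K => max (v (x e)) 1).HasFiniteMulSupport := fun e => by
    rcases eq_or_ne (x e) 0 with h | h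
    · simp [h, Function.HasFiniteMulSupport]
    · exact (FinitePlace.hasFiniteMulSupport h).subset fun v hv h' => hv (by simp [h'])
  refine ⟨Function.HasFiniteMulSupport.prod (fun e => s1 e) _, ?_⟩
  rw [tot, finprod_prod_comm _ _ fun e _ => s1 e]
  simp only [mulHeight₁_eq, Finset.prod_mul_distrib, ← Finset.prod_pow]
  rw [Finset.prod_comm]

theorem ctx {q : ℕ} (x : Fin q → K) (T : ℝ) :
    ∃ b : ∀ v : FinitePlace K, Fin q → loc v, (∀ v e, (b v e : K) ≠ 0 ∧ b v e * x e ∈ loc v) ∧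
      Ch (fun v => ∏ e, b v e) (fun σ => (T * ∏ e, max ‖σ (x e)‖ 1) ^ 2)
        ((T ^ 2) ^ Module.finrank ℚ K * (∏ e, Height.mulHeight₁ (x e)) ^ 5) := by
  have hb : ∀ (v : FinitePlace K) (z : K), ∃ b : loc v, (b : K) ≠ 0 ∧ b * z ∈ loc v ∧
      v b * max (v z) 1 = 1 := fun v z => by
    rcases le_or_gt (v z) 1 with h | h
    · exact ⟨1, one_ne_zero, (one_mul z).symm ▸ h, by simp [h]⟩
    · have z0 : z ≠ 0 := FinitePlace.pos_iff.1 (zero_lt_one.trans h)
      refine ⟨⟨z⁻¹, (map_inv₀ v z).trans_le (inv_le_one_of_one_le₀ h.le)⟩, inv_ne_zero z0, by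
        simp [z0], ?_⟩
      rw [max_eq_left h.le, ← map_mul, inv_mul_cancel₀ z0, map_one]
  choose b b1 b2 b4 using hb
  refine ⟨fun v e => b v (x e), fun v e => ⟨b1 _ _, b2 _ _⟩,
    fun y r a B y0 s1 r0 a0 B0 h1 h2 => ?_⟩
  obtain ⟨s2, e2⟩ := tot_prod x
  have s3 : (fun v : FinitePlace K => (∏ e, max (v (x e)) 1) ^ 5).HasFiniteMulSupport :=
    s2.subset fun v hv h' => hv (by simp [h'])
  have s4 := FinitePlace.hasFiniteMulSupport y0
  refine (tot_mono (b' := fun w => w y * (T ^ 2 * B * (∏ e, max (w (x e)) 1) ^ 5))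
    s1 (s4.mul s3) r0 a0 (fun w => (h1 w).trans ?_) fun v => ?_).trans_eq ?_
  · simp only [InfinitePlace.norm_embedding_eq]
    have := pow_le_pow_right₀ (Finset.one_le_prod (s := Finset.univ)
      fun e _ => le_max_right (w (x e)) 1) (by norm_num : 2 ≤ 5)
    rw [mul_pow, mul_right_comm]
    gcongr
  · have a5 : v (∏ e, b v (x e) : loc v) * ∏ e, max (v (x e)) 1 = 1 := by
      rw [SubmonoidClass.coe_finsetProd, map_prod, ← Finset.prod_mul_distrib]
      exact Finset.prod_eq_one fun e _ => b4 _ _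
    have a6 := mul_le_mul_of_nonneg_right (h2 v)
      (show 0 ≤ (∏ e, max (v (x e)) 1) ^ 5 by positivity)
    rwa [mul_assoc, ← mul_pow, a5, one_pow, mul_one] at a6
  · refine (tot_mul _ _ s4 s3).trans ?_
    rw [tot_pf y0, one_mul, ← e2, tot, tot, mul_pow, finprod_pow s2, ← Finset.prod_pow _ 5]
    simp only [mul_pow (T ^ 2 * B), Finset.prod_mul_distrib, Finset.prod_pow_eq_pow_sum,
      InfinitePlace.sum_mult_eq, ← pow_mul, mul_comm 5]
    ring

theorem place {P g : ℕ} (hP : 1 < P)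
    (hg : {𝔭 : Ideal (𝓞 K) | 𝔭.IsPrime ∧ (P : 𝓞 K) ∈ 𝔭}.encard ≤ g) :
    0 < g ∧ ∃ v : FinitePlace K, (P : ℝ) ^ Module.finrank ℚ K * v P ^ g ≤ 1 := by
  have p0 : (P : K) ≠ 0 := Nat.cast_ne_zero.2 (by omega)
  have s1 := FinitePlace.hasFiniteMulSupport p0
  have h1 := prod_abs_eq_one p0
  simp only [InfinitePlace.map_natCast, Finset.prod_pow_eq_pow_sum, InfinitePlace.sum_mult_eq,
    finprod_eq_prod _ s1] at h1
  have h2 : s1.toFinset.card ≤ g := by
    have := (Set.encard_le_encard_of_injOn (s := Function.mulSupport fun v : FinitePlace K => v P)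
      (t := {𝔭 : Ideal (𝓞 K) | 𝔭.IsPrime ∧ (P : 𝓞 K) ∈ 𝔭})
      (f := fun v => v.maximalIdeal.asIdeal) (fun v hv => ⟨v.maximalIdeal.isPrime, of_not_not
        fun h => hv ((v.norm_embedding_eq P).symm.trans
          ((FinitePlace.norm_eq_one_iff_notMem K v.maximalIdeal (P : 𝓞 K)).2 h))⟩)
      fun v _ w _ h => FinitePlace.maximalIdeal_injective
        (IsDedekindDomain.HeightOneSpectrum.ext h)).trans hg
    rw [Set.Finite.encard_eq_coe_toFinset_card s1] at this
    exact_mod_cast this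
  have h3 : s1.toFinset.Nonempty := by
    refine Finset.nonempty_iff_ne_empty.2 fun h => ?_
    rw [h, Finset.prod_empty, mul_one] at h1
    exact (one_lt_pow₀ (by exact_mod_cast hP) Module.finrank_pos.ne').ne' h1
  obtain ⟨v, -, hv⟩ := Finset.exists_min_image _ (fun v : FinitePlace K => v P) h3
  refine ⟨h3.card_pos.trans_le h2, v, le_of_le_of_eq (mul_le_mul_of_nonneg_left ?_
    (by positivity)) h1⟩
  refine (pow_le_pow_of_le_one (apply_nonneg _ _) (natCast_mem (loc v) P) h2).trans ?_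
  rw [← Finset.prod_const]
  exact Finset.prod_le_prod (fun _ _ => apply_nonneg _ _) hv

theorem main {F : Type} [Field F] (φ : K →+* F) {P k t j g m n p q : ℕ} (hP : P.Prime)
    (hg : {𝔭 : Ideal (𝓞 K) | 𝔭.IsPrime ∧ (P : 𝓞 K) ∈ 𝔭}.encard ≤ g) (hj : 0 < j)
    (hk : 10 ^ 4 * j ^ 2 ≤ k) (W : Matrix (Fin t) (Fin t) K)
    (hW : aeval W (cyclotomic (P ^ k) ℤ) = 0) (hχ : Irreducible W.charpoly)
    (hI : ∀ x y, IsIntegral ℤ (W x y)) (hU : ∀ σ : K →+* ℂ, W.map σ ∈ unitaryGroup (Fin t) ℂ)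
    (Φ : Matrix (Fin n) (Fin n) K) (C : Circuit K n p q) (hC : C.Computes Φ)
    (r c : Fin (P ^ k) × Fin t → Fin n) (a b : Fin m → Fin n) (hc : Function.Injective c)
    (ha : Function.Injective a) (l : K) (hl : IsIntegral ℤ (l / P ^ (k / 2))) (D : Fin m → F)
    (hH : ∀ x y, φ ((W ^ (x.1 * y.1 : ℕ)) x.2 y.2) =
      φ (l * Φ (r x) (c y)) + ∑ e, φ (Φ (r x) (a e)) * D e * φ (Φ (b e) (c y)))
    (hm : j * m + P ^ k * t ≤ 2 * j * (P ^ k * t)) :
    (P : ℝ) ^ k * t * (k * Real.logb 2 P / (10 ^ 6 * j ^ 3 * g) - 1) ≤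
      p + q + (∑ e, Height.logHeight₁ (C.weight e)) / Module.finrank ℚ K := by
  have j1 : 0 < j * j := Nat.mul_pos hj hj
  obtain ⟨k, rfl⟩ := Nat.exists_eq_add_of_le' (show 1 ≤ k by nlinarith)
  have : NeZero (P ^ (k + 1)) := ⟨pow_ne_zero _ hP.ne_zero⟩
  obtain ⟨A₀, U, V, N₀, y, V', U', c0, c0', c1, -, -⟩ := circ (RingHom.id K) C
    Function.injective_id ∅ C.weight (by simp) (fun _ _ => rfl) hC
  obtain rfl : Φ = A₀ := by
    refine c1.trans ?_
    ext i i'
    simp [mul_apply]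
  obtain ⟨d, d1, d2⟩ := ctx C.weight (2 ^ (p + 2 * q))
  have c2 := fun v => c0' (loc v) (d v) (d1 v) (by simp)
  obtain ⟨g0, v₀, hv⟩ := place hP.one_lt hg
  let _ := φ.toAlgebra
  obtain ⟨τ, hτ⟩ := (Algebra.linearMap K F).exists_leftInverse_of_injective
    (LinearMap.ker_eq_bot.2 φ.injective)
  have τ1 : ∀ z, τ (φ z) = z := LinearMap.congr_fun hτ
  have τ2 : ∀ z z' w, τ (φ z * w * φ z') = z * τ w * z' := fun z z' w => by
    rw [mul_right_comm, ← map_mul, mul_right_comm]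
    exact τ.map_smul (z * z') w
  have e0 : Hm (P ^ (k + 1)) W = l • Φ.submatrix r c +
      Φ.submatrix r a * diagonal (fun e => τ (D e)) * Φ.submatrix b c := by
    ext x y
    have := congrArg τ (hH x y)
    simp only [map_add, map_sum, τ1, τ2] at this
    simpa [Hm, mul_apply (M := _ * _)] using this
  obtain ⟨R, _, _, ω, hω, hR⟩ := universal (P ^ (k + 1)) (pow_pos hP.pos _)
  obtain ⟨ψ, ψ1, ψ2⟩ := hR _ W hW
  let Ψ := (compRingEquiv (Fin (P ^ (k + 1))) (Fin t) K).toRingHom.comp ψ.mapMatrix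
  have p0 : (P : K) ≠ 0 := Nat.cast_ne_zero.2 hP.ne_zero
  have i0 : ∀ (v : FinitePlace K) (j : ℕ) x y, v ((W ^ j) x y) ≤ 1 := fun v j => by
    induction j with
    | zero => intro x y; by_cases h : x = y <;> simp [one_apply, h]
    | succ j ih => exact pow_succ W j ▸ mul_int (na v) ih fun x y => loc_int v (hI x y)
  have i1 : ∀ M i j, Ψ M i j ∈ loc v₀ := fun M i j => by
    have : ∀ (r : ℤ[X]) x y, aeval W r x y ∈ loc v₀ := fun r x y => by
      induction r using Polynomial.induction_on' with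
      | add r r' h1 h2 => rw [map_add]; exact add_mem h1 h2
      | monomial j c =>
        rw [aeval_monomial, ← Algebra.smul_def, Matrix.smul_apply]
        exact zsmul_mem (i0 v₀ j x y) c
    obtain ⟨r, hr⟩ := ψ2 (M i.1 j.1)
    exact (hr ▸ this r _ _ : ψ (M i.1 j.1) i.2 j.2 ∈ loc v₀)
  have i2 : ∀ (c : ℕ) M, Ψ ((P : R) ^ c • M) = (P : K) ^ c • Ψ M := fun c M => by
    rw [← Nat.cast_pow, ← Nat.cast_pow, Nat.cast_smul_eq_nsmul, Nat.cast_smul_eq_nsmul, map_nsmul]
  have hn : Fintype.card (Fin (P ^ (k + 1)) × Fin t) = P ^ (k + 1) * t := by simp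
  have i3 : ∀ η : R, IsPrimitiveRoot η (P ^ (k + 1)) → Spread (loc v₀) P (k + 1) (Ψ (dft _ η)) :=
    fun η hη c => by
      obtain ⟨T, X, Y, Z, h1, h2⟩ := dft_split hP hη c
      refine ⟨Ψ X * Ψ (HG.mk R T) * Ψ Y, _, i1 Z, by rw [h1, map_add, map_mul, map_mul, i2], ?_⟩
      have e : Ψ (HG.mk R T) = HG.mk K (T ×ˢ Finset.univ) := by
        ext ⟨i, x⟩ ⟨j, y⟩
        by_cases hij : i = j <;> by_cases hi : j ∈ T <;>
          simp [Ψ, HG.mk, diagonal_apply, one_apply, hij, hi]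
      have h4 := (rank_mul_le_left (Ψ X * Ψ (HG.mk R T)) (Ψ Y)).trans ((rank_mul_le_right _ _).trans
        (e ▸ rank_mk _))
      rw [Finset.card_product, Finset.card_univ, Fintype.card_fin] at h4
      rw [hn]
      nlinarith [Nat.mul_le_mul_left (k + 1) h4, Nat.mul_le_mul_right t h2]
  obtain ⟨s, hs⟩ := Nat.exists_eq_add_of_le' (pow_pos hP.pos (k + 1))
  have i5 : Ψ (dft _ ω) * Ψ (dft _ (ω ^ s)) = (P : K) ^ (k + 1) • 1 := by
    rw [← map_mul, ← map_one Ψ, ← i2, ← Nat.cast_pow]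
    congr 1
    generalize P ^ (k + 1) = n at hs hω
    subst hs
    exact dft_mul hω
  have e1 : Ψ (dft _ ω) = Hm (P ^ (k + 1)) W := by
    ext x z; simp [Hm, Ψ, dft, ψ1]
  have i6 : Ψ (dft _ (ω ^ s)) * Ψ (dft _ ω) = (P : K) ^ (k + 1) • 1 := by
    have h : ((P : K) ^ (k + 1))⁻¹ • Ψ (dft _ ω) * Ψ (dft _ (ω ^ s)) = 1 := by
      rw [Matrix.smul_mul, i5, smul_smul, inv_mul_cancel₀ (pow_ne_zero _ p0), one_smul]
    rw [← mul_eq_one_comm.1 h, Matrix.mul_smul, smul_smul, mul_inv_cancel₀ (pow_ne_zero _ p0),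
      one_smul]
  have i7 : Irr (Hm (P ^ (k + 1)) W)ᵀ := by
    have h : ∀ r : ℤ[X], aeval Wᵀ r = (aeval W r)ᵀ := fun r => by
      induction r using Polynomial.induction_on' with
      | add r r' h1 h2 => simp [h1, h2]
      | monomial j c => simp only [aeval_monomial, ← Algebra.smul_def, transpose_smul, transpose_pow]
    convert irr (n := P ^ (k + 1)) (W := Wᵀ) (by rw [h, hW, transpose_zero])
      (by rwa [charpoly_transpose]) (fun v j x y => transpose_pow W j ▸ i0 v j y x)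
      fun σ => transpose_mem_unitaryGroup_iff.2 (hU σ) using 1
    ext x y
    simp [Hm, ← transpose_pow, mul_comm]
  obtain ⟨u, hu⟩ : ∃ u, u = (k + 1) / (1100 * (j * j)) := ⟨_, rfl⟩
  have u1 := Nat.mul_div_le (k + 1) (1100 * (j * j))
  have u2 := Nat.lt_mul_div_succ (k + 1) (show 0 < 1100 * (j * j) by omega)
  rw [← hu] at u1 u2
  have u3 : 2 ≤ u := by
    by_contra h
    nlinarith [Nat.mul_le_mul_left (1100 * (j * j)) (show u + 1 ≤ 2 by omega)]
  have u4 : k + 1 ≤ 2200 * (j * j * u) := by nlinarith [Nat.mul_le_mul_left (j * j) u3]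
  have m1 : 1 ≤ ∏ e, Height.mulHeight₁ (C.weight e) :=
    Finset.one_le_prod fun e _ => Height.one_le_mulHeight₁ _
  have h1 := abs_bound (u := u) (v₀ := v₀) d2 (one_le_mul_of_one_le_of_one_le
    (one_le_pow₀ (one_le_pow₀ (one_le_pow₀ one_le_two))) (one_le_pow₀ m1)) p0
    (irr hW hχ i0 hU) i7 (e1 ▸ i6) (e1 ▸ i5) (e1 ▸ i3 ω hω)
    (i3 _ (hω.pow_of_coprime s (by simp [hs]))) ((c2 v₀).sub (Sum.inl ∘ r) (Sum.inl ∘ c))
    (fun v => (c2 v).sub (Sum.inl ∘ r) (Sum.inl ∘ a))
    (fun v => (c2 v).sub (Sum.inl ∘ b) (Sum.inl ∘ c))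
    (arV c0 _ (Sum.inl_injective.comp hc)) (arU c0 _ (Sum.inl_injective.comp ha))
    (arB c0 _ (Sum.inl_injective.comp hc) (Sum.inl_injective.comp ha) _) e0 hj u3
    (loc_int v₀ hl) (by rw [← mul_assoc]; exact u1) u4
    (by rw [hn, Fintype.card_fin, ← mul_assoc]; exact hm)
  rw [hn] at h1
  have d0 : (0 : ℝ) < Module.finrank ℚ K := by exact_mod_cast Module.finrank_pos
  have h5 : 0 ≤ (∑ e, Height.logHeight₁ (C.weight e)) / Module.finrank ℚ K := by positivity
  have h6 : Real.logb 2 (∏ e, Height.mulHeight₁ (C.weight e)) * 5 ≤ Module.finrank ℚ K *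
      (8 * ((∑ e, Height.logHeight₁ (C.weight e)) / Module.finrank ℚ K)) := by
    rw [mul_left_comm, mul_div_cancel₀ _ d0.ne', Real.logb,
      Real.log_prod fun e _ => (Height.mulHeight₁_pos _).ne', div_mul_eq_mul_div,
      div_le_iff₀ (Real.log_pos one_lt_two)]
    simp only [← Height.logHeight₁_eq_log_mulHeight₁]
    have : 0 ≤ ∑ e, Height.logHeight₁ (C.weight e) := by positivity
    nlinarith only [Real.log_two_gt_d9, this]
  generalize (∑ e, Height.logHeight₁ (C.weight e)) / Module.finrank ℚ K = h at *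
  generalize ∏ e, Height.mulHeight₁ (C.weight e) = M at *
  have p1 : (1 : ℝ) < P := by exact_mod_cast hP.one_lt
  have p2 : 0 < v₀ P := FinitePlace.pos_iff.2 p0
  have h2 := Real.logb_nonneg one_lt_two h1
  have h3 := Real.logb_nonpos one_lt_two (by positivity) hv
  rw [Real.logb_mul (by positivity) (by positivity), Real.logb_pow, Real.logb_pow] at h3
  rw [Real.logb_mul (by positivity) (by positivity), Real.logb_pow, Real.logb_pow,
    Real.logb_mul (by positivity) (by positivity), Real.logb_mul (by positivity) (by positivity)]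
    at h2
  simp only [Real.logb_pow, Real.logb_self_eq_one one_lt_two] at h2
  have h4 := (Real.logb_pos one_lt_two p1).le
  have h7 : ((k + 1 : ℕ) : ℝ) ≤ 2200 * (j * j * u) := by exact_mod_cast u4
  have g1 : (0 : ℝ) < g := by exact_mod_cast g0
  have j2 : (0 : ℝ) < j := by exact_mod_cast hj
  push_cast at h2 h7 ⊢
  generalize Real.logb 2 (v₀ P) = y₀ at *
  generalize Real.logb 2 P = L at *
  generalize Real.logb 2 M = y₁ at *
  generalize (Module.finrank ℚ K : ℝ) = D' at *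
  have n0 : (0 : ℝ) ≤ P ^ (k + 1) * t := by positivity
  generalize (P : ℝ) ^ (k + 1) * t = N at *
  have a1 : D' * (u * N * L) ≤ D' * (35 * j * g * (2 * p + 4 * q + 2 * N + 8 * h)) := by
    have b1 := mul_le_mul_of_nonneg_left h2 g1.le
    have b2 := mul_le_mul_of_nonneg_left h3 (show (0 : ℝ) ≤ u * N by positivity)
    have b3 := mul_le_mul_of_nonneg_left h6 (show (0 : ℝ) ≤ 35 * j * g by positivity)
    linarith only [b1, b2, b3]
  have a2 := mul_le_mul_of_nonneg_left (le_of_mul_le_mul_left a1 d0)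
    (show (0 : ℝ) ≤ 2200 * (j * j) by positivity)
  have a3 := mul_le_mul_of_nonneg_left h7 (mul_nonneg n0 h4)
  have a4 : (0 : ℝ) ≤ j ^ 3 * g := by positivity
  rw [mul_sub, ← mul_div_assoc, sub_le_iff_le_add, div_le_iff₀ (by positivity)]
  nlinarith only [a2, a3, mul_nonneg a4 n0, mul_nonneg a4 h5,
    mul_nonneg a4 (Nat.cast_nonneg p), mul_nonneg a4 (Nat.cast_nonneg q)]

end Pool.Agent.MP_5daf37_lc.WF
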