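import Pool.Agent.MP_5daf37_lc.WF.F

/-!
The volume of the graph of a matrix at one place and its behaviour under the matrix operations.
-/

open Matrix NumberField Module

namespace Pool.Agent.MP_5daf37_lc.WF
open FC HG DH

section
variable {E : Type} [Field E]

/-- A family of unit balls, one for each index set. -/
structure Fam (a : AbsoluteValue E ℝ) (co : ∀ (κ : Type) [Fintype κ], (κ → E) → Prop) : Prop where
  ax : ∀ (κ : Type) [Fintype κ], Ax a (co κ)
  pr : ∀ (κ κ' : Type) [Fintype κ] [Fintype κ'] (x : κ' → κ) (y : κ → E), Function.Injective x →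
    co κ y → co κ' fun i => y (x i)
  e1 : ∀ (κ κ' : Type) [Fintype κ] [Fintype κ'] (y : κ → E), co κ y → co (κ ⊕ κ') (Sum.elim y 0)
  e2 : ∀ (κ κ' : Type) [Fintype κ] [Fintype κ'] (y : κ' → E), co κ' y → co (κ ⊕ κ') (Sum.elim 0 y)
  one : ∀ (κ : Type) [Fintype κ] [DecidableEq κ], Fr a (co κ) (1 : Matrix κ κ E)

theorem famF {a : AbsoluteValue E ℝ} (hn : IsNonarchimedean a) : Fam a fun _ _ => coF a := by
  refine ⟨fun κ _ => axF hn, fun _ _ _ _ x y _ h i => h (x i), ?_, ?_, fun κ _ _ => ?_⟩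
  · rintro _ _ _ _ y h (i | i)
    exacts [h i, by simp]
  · rintro _ _ _ _ y h (i | i)
    exacts [by simp, h i]
  · have o1 : ∀ i j, a ((1 : Matrix κ κ E) i j) ≤ 1 := fun i j => by
      by_cases h : i = j <;> simp [one_apply, h]
    exact frF hn o1 o1 (Matrix.one_mul _)

theorem famI : Fam ab fun _ _ => coI := by
  refine ⟨fun κ _ => axI, fun _ _ _ _ x y hx h => ?_, fun _ _ _ _ y h => ?_,
    fun _ _ _ _ y h => ?_, fun κ _ _ => frI (by simp)⟩
  · exact (sum_inj hx (fun i => ‖y i‖ ^ 2) fun _ => by positivity).trans h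
  · simpa [coI, Fintype.sum_sum_type] using h
  · simpa [coI, Fintype.sum_sum_type] using h

variable {a : AbsoluteValue E ℝ} {co : ∀ (κ : Type) [Fintype κ], (κ → E) → Prop}
  {κ κ' z z' l m o : Type} [Fintype κ] [Fintype κ'] [Fintype z] [DecidableEq z] [Fintype z']
  [DecidableEq z'] [Fintype l] [DecidableEq l] [Fintype m] [DecidableEq m] [Fintype o]
  [DecidableEq o]

omit [Fintype z] in
theorem Ind.of_sub {B : Matrix κ z E} (x : κ' → κ) (h : Ind (B.submatrix x id)) : Ind B := by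
  classical
  obtain ⟨π, h⟩ := h
  exact ⟨π * (1 : Matrix κ κ E).submatrix x id, by rw [Matrix.mul_assoc, sel_mul, h]⟩

omit [DecidableEq l] in
theorem ind_gr (A : Matrix l m E) : Ind (fromRows (1 : Matrix m m E) A) :=
  ⟨fromCols 1 0, by simp [fromCols_mul_fromRows]⟩

omit [Fintype z] [Fintype z'] in
theorem Ind.blk {B : Matrix κ z E} {B' : Matrix κ' z' E} (h : Ind B) (h' : Ind B') :
    Ind (fromBlocks B 0 0 B') := by
  obtain ⟨π, h⟩ := h
  obtain ⟨π', h'⟩ := h'
  exact ⟨fromBlocks π 0 0 π', by simp [fromBlocks_multiply, h, h']⟩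

variable (hF : Fam a co)
include hF

theorem vol_sub {B : Matrix κ z E} {x : κ' → κ} (hx : Function.Injective x)
    (h : Ind (B.submatrix x id)) : vol a (co κ') (B.submatrix x id) ≤ vol a (co κ) B := by
  obtain ⟨B', g, -, rfl, f, -⟩ := hF.ax κ z B (h.of_sub x)
  rw [vol_eq f]
  exact vol_le (hF.ax κ') (u := B'.submatrix x id) (fun j => hF.pr _ _ x _ hx (f.1 j)) h

theorem vol_blk {B : Matrix κ z E} {B' : Matrix κ' z' E} (h : Ind B) (h' : Ind B') :
    vol a (co _) (fromBlocks B 0 0 B') ≤ vol a (co κ) B * vol a (co κ') B' := by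
  have h2 := h.blk h'
  obtain ⟨u, g, -, rfl, f, -⟩ := hF.ax κ z B h
  obtain ⟨u', g', -, rfl, f', -⟩ := hF.ax κ' z' B' h'
  have e : fromBlocks (u * g) 0 0 (u' * g') = fromBlocks u 0 0 u' * fromBlocks g 0 0 g' := by
    simp [fromBlocks_multiply]
  rw [vol_eq f, vol_eq f', ← map_mul, ← det_fromBlocks_zero₂₁ g 0 g', e]
  refine vol_le (hF.ax _) ?_ (e ▸ h2)
  rintro (j | j)
  · convert hF.e1 κ κ' _ (f.1 j) using 2 with i
    rcases i with i | i <;> rfl
  · convert hF.e2 κ κ' _ (f'.1 j) using 2 with i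
    rcases i with i | i <;> rfl

theorem vol_sq (g : Matrix z z E) : vol a (co z) g = a g.det := by
  simpa using vol_eq (hF.one z) g

variable (a co) in
/-- The volume of the graph. -/
noncomputable def gv (A : Matrix l m E) : ℝ := vol a (co _) (fromRows (1 : Matrix m m E) A)

omit [DecidableEq l] in
theorem one_le_gv (A : Matrix l m E) : 1 ≤ gv a co A := by
  have := vol_sub hF (B := fromRows (1 : Matrix m m E) A) Sum.inl_injective ⟨1, Matrix.one_mul _⟩
  rwa [show (fromRows (1 : Matrix m m E) A).submatrix Sum.inl id = 1 from rfl, vol_sq hF, det_one,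
    map_one] at this

theorem det_le_gv (A : Matrix m m E) : a A.det ≤ gv a co A := by
  rcases eq_or_ne A.det 0 with h | h
  · rw [h, map_zero]; exact vol_nonneg _
  · exact (vol_sq hF A).symm.trans_le (vol_sub hF (B := fromRows (1 : Matrix m m E) A)
      Sum.inr_injective ⟨A⁻¹, nonsing_inv_mul A h.isUnit⟩)

theorem gv_inv {A : Matrix m m E} (h : A.det ≠ 0) : gv a co A⁻¹ * a A.det ≤ gv a co A := by
  have e : fromRows (1 : Matrix m m E) A⁻¹ * A = (fromRows 1 A).submatrix Sum.swap id := by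
    rw [fromRows_mul, Matrix.one_mul, nonsing_inv_mul A h.isUnit]
    ext (i | i) j <;> rfl
  rw [gv, ← vol_mul (hF.ax _) (ind_gr _), e]
  refine vol_sub hF Sum.swap_leftInverse.injective ⟨fromCols 0 1, ?_⟩
  rw [← e, fromRows_mul, fromCols_mul_fromRows, nonsing_inv_mul A h.isUnit]
  simp

omit [DecidableEq l] [DecidableEq z] in
theorem gv_blk (A : Matrix l m E) (B : Matrix z o E) :
    gv a co (fromBlocks A 0 0 B) ≤ gv a co A * gv a co B := by
  have e : fromRows (1 : Matrix (m ⊕ o) (m ⊕ o) E) (fromBlocks A 0 0 B) =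
      (fromBlocks (fromRows 1 A) 0 0 (fromRows 1 B)).submatrix
        (Equiv.sumSumSumComm m o l z) id := by
    ext ((i | i) | i | i) (j | j) <;> simp [one_apply]
  refine le_trans ?_ (vol_blk hF (ind_gr A) (ind_gr B))
  rw [gv, e]
  exact vol_sub hF (Equiv.injective _) (e ▸ ind_gr _)

omit [DecidableEq l] in
theorem gv_row (A : Matrix l m E) {x : κ' → l} (hx : Function.Injective x) :
    gv a co (A.submatrix x id) ≤ gv a co A := by
  have e : fromRows (1 : Matrix m m E) (A.submatrix x id) =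
      (fromRows 1 A).submatrix (Sum.map id x) id := by
    ext (i | i) j <;> rfl
  rw [gv, e]
  exact vol_sub hF (Function.injective_id.sumMap hx) (e ▸ ind_gr _)

theorem gv_mul (A : Matrix l m E) (B : Matrix m o E) :
    gv a co (A * B) ≤ gv a co A * gv a co B := by
  let u : Matrix ((o ⊕ m) ⊕ l) o E := fromRows (fromRows 1 B) (A * B)
  let w : Matrix ((o ⊕ m) ⊕ l) m E := fromRows (fromRows 0 1) A
  let v : Matrix ((o ⊕ m) ⊕ l) l E := fromRows 0 1
  have e1 : fromCols (fromCols u w) v =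
      fromBlocks (fromBlocks 1 0 B 1) 0 (fromCols (A * B) A) 1 := by
    ext ((i | i) | i) ((j | j) | j) <;> rfl
  have d1 : (fromCols (fromCols u w) v).det = 1 := by
    rw [e1, det_fromBlocks_zero₁₂, det_fromBlocks_zero₁₂]; simp
  have h := submod (hF.ax _) (u := u) (v := w) (w := v)
    ⟨_, nonsing_inv_mul _ (by rw [d1]; exact isUnit_one)⟩
  rw [vol_sq hF, d1, map_one, mul_one] at h
  have e2 : fromRows (1 : Matrix o o E) (A * B) = u.submatrix (Sum.map Sum.inl id) id := by
    ext (i | i) j <;> rfl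
  have i1 : Ind (1 : Matrix o o E) := ⟨1, Matrix.one_mul _⟩
  have i2 : Ind (1 : Matrix l l E) := ⟨1, Matrix.one_mul _⟩
  have e3 : fromCols u w = (fromBlocks (1 : Matrix o o E) 0 0
      (fromRows (1 : Matrix m m E) A)).submatrix (Equiv.sumAssoc o m l) id *
      fromBlocks (1 : Matrix o o E) 0 B (1 : Matrix m m E) := by
    ext ((i | i) | i) (j | j) <;> simp [u, w, mul_apply, one_apply, Fintype.sum_sum_type]
  have e4 : fromCols u v = fromBlocks (fromRows (1 : Matrix o o E) B) 0 0 (1 : Matrix l l E) *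
      fromBlocks (1 : Matrix o o E) 0 (A * B) (1 : Matrix l l E) := by
    rw [fromBlocks_multiply]
    ext (i | i) (j | j) <;> simp [u, v]
  have i3 : Ind ((fromBlocks (1 : Matrix o o E) 0 0 (fromRows (1 : Matrix m m E) A)).submatrix
      (Equiv.sumAssoc o m l) id) := by
    obtain ⟨π, h⟩ := i1.blk (ind_gr A)
    exact ⟨π.submatrix id (Equiv.sumAssoc o m l), by rw [submatrix_mul_equiv, h]; rfl⟩
  have b1 := (vol_sub hF (Equiv.injective _) i3).trans (vol_blk hF i1 (ind_gr A))
  have b2 := vol_blk hF (ind_gr B) i2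
  rw [e3, e4, vol_mul (hF.ax _) i3, vol_mul (hF.ax _) ((ind_gr B).blk i2), det_fromBlocks_zero₁₂,
    det_fromBlocks_zero₁₂] at h
  rw [vol_sq hF] at b1 b2
  simp only [det_one, map_one, mul_one, one_mul] at h b1 b2
  rw [gv, e2]
  exact (vol_sub hF (Sum.inl_injective.sumMap Function.injective_id) (e2 ▸ ind_gr _)).trans
    (h.trans (mul_le_mul b1 b2 (vol_nonneg _) (vol_nonneg _)))

omit [DecidableEq z] in
theorem vol_zero {B : Matrix κ m E} (h : Ind B) :
    vol a (co _) (fromRows B (0 : Matrix z m E)) = vol a (co κ) B := by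
  refine le_antisymm ?_ (vol_sub hF (B := fromRows B (0 : Matrix z m E)) Sum.inl_injective h)
  have h2 : Ind (fromRows B (0 : Matrix z m E)) := Ind.of_sub Sum.inl h
  obtain ⟨u, g, -, rfl, f, -⟩ := hF.ax κ m B h
  have e : fromRows (u * g) (0 : Matrix z m E) = fromRows u 0 * g := by simp [fromRows_mul]
  rw [vol_eq f, e]
  refine vol_le (hF.ax _) (fun j => ?_) (e ▸ h2)
  convert hF.e1 κ z _ (f.1 j) using 2 with i
  rcases i with i | i <;> rfl

end

section
variable {l m : Type} [Fintype l] [DecidableEq l] [Fintype m] [DecidableEq m]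

theorem gvI_T (A : Matrix l m ℂ) : gv ab (fun _ _ => coI) Aᵀ = gv ab (fun _ _ => coI) A := by
  have key : ∀ {l m : Type} [Fintype l] [Fintype m] [DecidableEq m] (A : Matrix l m ℂ),
      gv ab (fun _ _ => coI) A ^ 2 = ‖(1 + Aᴴ * A).det‖ := fun {l m} _ _ _ A => by
    obtain ⟨B, g, e, h⟩ := normI (ind_gr A)
    have e2 : 1 + Aᴴ * A = gᴴ * g := by
      have := congrArg (fun M => Mᴴ * M) e
      simp only [conjTranspose_mul, conjTranspose_fromRows_eq_fromCols_conjTranspose,
        fromCols_mul_fromRows, Matrix.mul_assoc] at this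
      rwa [← Matrix.mul_assoc Bᴴ, h, Matrix.one_mul, conjTranspose_one, Matrix.one_mul] at this
    rw [gv, e, vol_eq (frI h), e2, det_mul, det_conjTranspose, norm_mul, norm_star, sq]
    rfl
  refine (pow_left_inj₀ (vol_nonneg _) (vol_nonneg _) two_ne_zero).1 ((key _).trans
    (Eq.trans ?_ (key _).symm))
  rw [det_one_add_mul_comm Aᴴ, ← det_transpose (1 + A * Aᴴ), transpose_add, transpose_mul,
    transpose_one]
  rfl

omit [DecidableEq l] in
theorem gvI_bas {A : Matrix l m ℂ} (h : ∀ j, ∑ i, ‖A i j‖ ^ 2 ≤ 3) :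
    gv ab (fun _ _ => coI) A ≤ 2 ^ Fintype.card m := by
  have e : fromRows (1 : Matrix m m ℂ) A =
      ((2 : ℂ)⁻¹ • fromRows (1 : Matrix m m ℂ) A) * ((2 : ℂ) • (1 : Matrix m m ℂ)) := by
    simp [smul_smul]
  rw [gv, e]
  refine (vol_le axI (fun j => ?_) (e ▸ ind_gr A)).trans_eq (by
    rw [det_smul, det_one, mul_one, map_pow]; congr 1; exact Complex.norm_two)
  have := h j
  simp [coI, Fintype.sum_sum_type, one_apply, apply_ite, mul_pow, ← Finset.mul_sum]
  linarith

variable {K : Type} [Field K] [NumberField K] {v : FinitePlace K}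

/-- The volume of the graph at a finite place. -/
noncomputable abbrev gf (A : Matrix l m K) (v : FinitePlace K) : ℝ :=
  gv v.1 (fun _ _ => coF v.1) A

omit [DecidableEq l] in
theorem re_of (A : Matrix l m K) (v : FinitePlace K) :
    ∃ c : loc v, Re (loc v).subtype c A ∧ v c * gf A v = 1 := by
  obtain ⟨B, g, π, e, b1, b2, b3⟩ := normF (a := v.1) (ind_gr A)
  have e1 := e
  rw [← fromRows_toRows B, fromRows_mul, fromRows_ext_iff] at e1
  let M : Matrix m m (loc v) := of fun i j => ⟨B (.inl i) j, b1 _ _⟩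
  have e2 : M.map (loc v).subtype = B.toRows₁ := rfl
  refine ⟨M.det, ⟨m, inferInstance, inferInstance, M, g, of fun i j => ⟨B (.inr i) j, b1 _ _⟩, 1,
    e1.1.symm, rfl, by rw [Matrix.map_one _ (map_zero _) (map_one _), Matrix.mul_one]; exact e1.2⟩, ?_⟩
  rw [gf, gv, e, vol_eq (frF (na v) b1 b2 b3)]
  have := congrArg (fun M : Matrix m m K => v M.det) e1.1
  simp only [det_one, map_one, det_mul, map_mul] at this
  rw [this, ← e2, ← RingHom.mapMatrix_apply, ← RingHom.map_det]
  rfl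

omit [DecidableEq l] in
theorem tw_le {κ : Type} [Fintype κ] [DecidableEq κ] {c : loc v} {A : Matrix l κ K}
    (h : Re (loc v).subtype c A) {B : Matrix κ m K} (hB : Ind B) :
    v c * vol v.1 (coF v.1) (fromRows B (A * B)) ≤ vol v.1 (coF v.1) B := by
  classical
  obtain ⟨B', g, π, rfl, b1, b2, b3⟩ := normF (a := v.1) hB
  have i1 : Ind (fromRows B' (A * B')) := Ind.of_sub Sum.inl ⟨π, b3⟩
  obtain ⟨B₁, g₁, π₁, e, c1, c2, c3⟩ := normF (a := v.1) i1
  have e2 : (π₁.toCols₁ + π₁.toCols₂ * A) * B' = g₁ := by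
    rw [← Matrix.one_mul g₁, ← c3, Matrix.mul_assoc, ← e, Matrix.add_mul, Matrix.mul_assoc]
    conv_rhs => rw [← fromCols_toCols π₁, fromCols_mul_fromRows]
  have r := re_le (e2 ▸ ((reInt (O := loc v) (Z := π₁.toCols₁) fun i j => c2 i (.inl j)).add
    ((reInt (O := loc v) (Z := π₁.toCols₂) fun i j => c2 i (.inr j)).mul h)).mul
      (reInt (O := loc v) b1))
  rw [← Matrix.mul_assoc, ← fromRows_mul, vol_mul (axF (na v)) i1, e,
    vol_eq (frF (na v) c1 c2 c3), vol_eq (frF (na v) b1 b2 b3), ← mul_assoc]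
  rw [one_mul, one_mul, mul_one] at r
  exact mul_le_of_le_one_left (v.1.nonneg _) r

omit [DecidableEq l] in
theorem gf_le {c : loc v} {A : Matrix l m K} (h : Re (loc v).subtype c A) : v c * gf A v ≤ 1 := by
  have := tw_le h (B := 1) ⟨1, Matrix.one_mul _⟩
  rwa [Matrix.mul_one, vol_sq (famF (na v)), det_one, map_one] at this

theorem gf_T (A : Matrix l m K) : gf Aᵀ v ≤ gf A v := by
  obtain ⟨c, h1, h2⟩ := re_of A v
  have h3 := gf_le (reT h1)
  have h4 : 0 < v c := (apply_nonneg v _).lt_of_ne fun h => by simp [← h] at h2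
  exact le_of_mul_le_mul_left (h3.trans h2.ge) h4

end

end Pool.Agent.MP_5daf37_lc.WF
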