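import Pool.Agent.MP_5daf37_lc.WF.G

/-!
Cheap matrices: the height of the graph is small. Closure, and the three uses of cheapness.
-/

open Matrix NumberField Module

namespace Pool.Agent.MP_5daf37_lc.WF
open FC HG DH

variable {K κ l m o z : Type} [Field K] [NumberField K] [Fintype κ] [DecidableEq κ] [Fintype l]
  [DecidableEq l] [Fintype m] [DecidableEq m] [Fintype o] [DecidableEq o] [Fintype z]
  [DecidableEq z]

/-- The height of a system of columns, without twist. -/
noncomputable def hu (B : Matrix κ z K) : ℝ := tot (vi B) fun v => vol v.1 (coF v.1) B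

theorem vf_zero (v₀ : FinitePlace K) {B : Matrix κ z K} (h : Ind B) :
    vf v₀ 0 B = fun v => vol v.1 (coF v.1) B := by
  funext v
  rw [vf, tw, ite_self, fromRows_mul, Matrix.one_mul, Matrix.zero_mul]
  exact vol_zero (famF (na v)) h

theorem ht_zero (v₀ : FinitePlace K) {B : Matrix κ z K} (h : Ind B) : ht v₀ 0 B = hu B := by
  rw [ht, vf_zero v₀ h, hu]

theorem usupp {B : Matrix κ z K} (h : Ind B) :
    (fun v : FinitePlace K => vol v.1 (coF v.1) B).HasFiniteMulSupport := by
  rcases isEmpty_or_nonempty (FinitePlace K) with h0 | ⟨⟨v₀⟩⟩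
  · exact Set.toFinite _
  · exact vf_zero v₀ h ▸ supp h

/-- The volume of the graph at an infinite place. -/
noncomputable abbrev gi (A : Matrix l m K) (w : InfinitePlace K) : ℝ :=
  gv ab (fun _ _ => coI) (A.map w.embedding)

/-- The height of the graph. -/
noncomputable def hgt (A : Matrix l m K) : ℝ := tot (gi A) (gf A)

theorem gsupp (A : Matrix l m K) : (gf A).HasFiniteMulSupport := usupp (ind_gr A)

omit [DecidableEq l] in
theorem hgt_eq (A : Matrix l m K) : hu (fromRows (1 : Matrix m m K) A) = hgt A := by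
  rw [hu, hgt]
  congr 1
  funext w
  rw [vi, fromRows_map, Matrix.map_one _ (map_zero _) (map_one _)]
  rfl

omit [DecidableEq l] [NumberField K] in
theorem gi0 (A : Matrix l m K) (w : InfinitePlace K) : 0 ≤ gi A w := vol_nonneg _

omit [DecidableEq l] in
theorem gf0 (A : Matrix l m K) (v : FinitePlace K) : 0 ≤ gf A v := vol_nonneg _

theorem fin_single (v₀ : FinitePlace K) (r : ℝ) [∀ v, Decidable (v = v₀)] :
    (fun v => if v = v₀ then r else 1).HasFiniteMulSupport :=
  (Set.finite_singleton v₀).subset fun _ hv => of_not_not fun h => hv (if_neg h)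

theorem gf_le_hgt (A : Matrix l m K) (v₀ : FinitePlace K) : gf A v₀ ≤ hgt A := by
  classical
  rw [← tot_single v₀ (gf A v₀)]
  refine tot_mono (fin_single _ _) (gsupp A) (fun _ => zero_le_one)
    (fun v => by split_ifs; exacts [gf0 _ _, zero_le_one]) (fun w => one_le_gv famI _) fun v => ?_
  split_ifs with h
  exacts [h ▸ le_rfl, one_le_gv (famF (na v)) _]

/-- The graph has height at most `S ^ e`. -/
def Cp (S : ℝ) (e : ℕ) (A : Matrix l m K) : Prop := hgt A ≤ S ^ e

/-- A realization at one place whose determinant is not too small. -/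
def Lo {l m : Type} (v₀ : FinitePlace K) (S : ℝ) (e : ℕ) (A : Matrix l m K) : Prop :=
  ∃ c : loc v₀, Re (loc v₀).subtype c A ∧ 1 ≤ v₀ c * S ^ e

variable {S : ℝ} {e e' : ℕ} {v₀ : FinitePlace K}

theorem Cp.two {A : Matrix l m K} {B : Matrix κ o K} {l' m' : Type} [Fintype l'] [DecidableEq l']
    [Fintype m'] [DecidableEq m'] {C : Matrix l' m' K} (hA : Cp S e A) (hB : Cp S e' B)
    (h1 : ∀ w, gi C w ≤ gi A w * gi B w) (h2 : ∀ v, gf C v ≤ gf A v * gf B v) :
    Cp S (e + e') C := by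
  have p : ∀ {l m : Type} [Fintype l] [Fintype m] [DecidableEq m] (A : Matrix l m K), 0 ≤ hgt A :=
    fun A => mul_nonneg (Finset.prod_nonneg fun w _ => pow_nonneg (vol_nonneg _) _)
      (finprod_nonneg fun v => vol_nonneg _)
  refine (tot_mono (gsupp C) ((gsupp A).mul (gsupp B)) (gi0 _) (gf0 _) h1 h2).trans
    ((tot_mul _ _ (gsupp A) (gsupp B)).trans_le ?_)
  rw [pow_add]
  exact mul_le_mul hA hB (p B) ((p A).trans hA)

theorem Cp.mul {A : Matrix l m K} {B : Matrix m o K} (hA : Cp S e A) (hB : Cp S e' B) :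
    Cp S (e + e') (A * B) :=
  hA.two hB (fun w => by rw [gi, Matrix.map_mul]; exact gv_mul famI _ _)
    fun v => gv_mul (famF (na v)) _ _

theorem Cp.blk {A : Matrix l m K} {B : Matrix κ o K} (hA : Cp S e A) (hB : Cp S e' B) :
    Cp S (e + e') (fromBlocks A 0 0 B) :=
  hA.two hB (fun w => by
    rw [gi, fromBlocks_map, Matrix.map_zero _ (map_zero _), Matrix.map_zero _ (map_zero _)]
    exact gv_blk famI _ _) fun v => gv_blk (famF (na v)) _ _

theorem Cp.T {A : Matrix l m K} (hA : Cp S e A) : Cp S e Aᵀ :=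
  (tot_mono (gsupp _) (gsupp A) (gi0 _) (gf0 _) (fun w => (gvI_T (A.map w.embedding)).le)
    fun _ => gf_T A).trans hA

theorem Cp.row {A : Matrix l m K} (hA : Cp S e A) {x : κ → l} (hx : Function.Injective x) :
    Cp S e (A.submatrix x id) :=
  (tot_mono (gsupp _) (gsupp A) (gi0 _) (gf0 _) (fun w => gv_row famI (A.map w.embedding) hx)
    fun v => gv_row (famF (na v)) A hx).trans hA

theorem Cp.sub {A : Matrix l m K} (hA : Cp S e A) {x : κ → l} (hx : Function.Injective x)
    {y : o → m} (hy : Function.Injective y) : Cp S e (A.submatrix x y) :=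
  ((hA.row hx).T.row hy).T

theorem Cp.inv {A : Matrix m m K} (hA : Cp S e A) (h : A.det ≠ 0) : Cp S e A⁻¹ := by
  have s1 := FinitePlace.hasFiniteMulSupport h
  refine le_trans ?_ hA
  rw [← mul_one (hgt A⁻¹), ← tot_pf h, hgt, ← tot_mul _ _ (gsupp _) s1]
  refine tot_mono ((gsupp _).mul s1) (gsupp A) (fun w => mul_nonneg (gi0 _ _) (apply_nonneg _ _))
    (fun v => mul_nonneg (gf0 _ _) (apply_nonneg _ _)) (fun w => ?_)
    fun v => gv_inv (famF (na v)) h
  have h1 : A.map w.embedding * A⁻¹.map w.embedding = 1 := by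
    rw [← Matrix.map_mul, mul_nonsing_inv A h.isUnit]; simp
  rw [← ab_det, gi, ← inv_eq_right_inv h1]
  exact gv_inv famI (isUnit_det_of_right_inverse h1).ne_zero

omit [DecidableEq l] in
theorem Cp.mono (hS : 1 ≤ S) {A : Matrix l m K} (hA : Cp S e A) (h : e ≤ e') : Cp S e' A :=
  hA.trans (pow_le_pow_right₀ hS h)

/-- The base is large against the sizes of the index sets. -/
def Big (K : Type) [Field K] [NumberField K] (S : ℝ) (m : Type) [Fintype m] : Prop :=
  ((2 : ℝ) ^ Fintype.card m) ^ finrank ℚ K ≤ S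

omit [DecidableEq l] [DecidableEq m] in
theorem Big.of (h : Big K S m) (hl : Fintype.card l ≤ Fintype.card m) : Big K S l :=
  le_trans (pow_le_pow_left₀ (by positivity) (pow_le_pow_right₀ one_le_two hl) _) h

omit [DecidableEq m] in
theorem Big.one_le (h : Big K S m) : 1 ≤ S := (one_le_pow₀ (one_le_pow₀ one_le_two)).trans h

theorem Big.bas (hS : Big K S m) {A : Matrix l m K} (h1 : ∀ (v : FinitePlace K) i j, v (A i j) ≤ 1)
    (h2 : ∀ (σ : K →+* ℂ) j, ∑ i, ‖σ (A i j)‖ ^ 2 ≤ 3) : Cp S 1 A := by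
  refine (tot_mono (b' := fun _ => 2 ^ Fintype.card m) (a' := fun _ => 1) (gsupp A)
    (by simp [Function.HasFiniteMulSupport]) (gi0 _) (gf0 _) (fun w => gvI_bas (h2 _))
    fun v => by simpa using gf_le (reInt (O := loc v) (h1 v))).trans ?_
  rw [tot, Finset.prod_pow_eq_pow_sum, InfinitePlace.sum_mult_eq, finprod_one, mul_one, pow_one]
  exact hS

theorem Big.mk (hS : Big K S m) (T : Finset m) : Cp S 1 (HG.mk K T) := by
  refine hS.bas (fun v i j => ?_) fun σ j => ?_
  · by_cases h : i = j <;> by_cases h' : j ∈ T <;> simp [HG.mk, h, h']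
  · rw [Finset.sum_eq_single j (fun i _ h => by simp [HG.mk, h]) (by simp)]
    by_cases h' : j ∈ T <;> simp [HG.mk, h']

theorem Big.one (hS : Big K S m) : Cp S 1 (1 : Matrix m m K) := mk_univ (T := K) (ε := m) ▸ hS.mk _

theorem Big.dup (hS : Big K S m) (s : K) (hs : s = 1 ∨ s = -1) :
    Cp S 1 (fromRows (1 : Matrix m m K) (diagonal fun _ => s)) := by
  refine hS.bas (fun v i j => ?_) fun σ j => ?_
  · rcases hs with rfl | rfl <;> rcases i with i | i <;> by_cases h : i = j <;> simp [h]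
  · rcases hs with rfl | rfl <;>
      simp [Fintype.sum_sum_type, one_apply, diagonal_apply, apply_ite] <;> norm_num

theorem Cp.rows (hS : Big K S m) {A : Matrix l m K} {B : Matrix κ m K} (hA : Cp S e A)
    (hB : Cp S e' B) : Cp S (e + e' + 1) (fromRows A B) := by
  simpa [fromBlocks_mul_fromRows] using (hA.blk hB).mul (hS.dup 1 (.inl rfl))

theorem Cp.diff (hl : Big K S l) (hS : Big K S m) {A B : Matrix l m K} (hA : Cp S e A)
    (hB : Cp S e' B) : Cp S (e + e' + 2) (A - B) := by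
  have := (hl.dup (-1) (.inr rfl)).T.mul (hA.rows hS hB)
  rw [transpose_fromRows, fromCols_mul_fromRows, add_comm 1] at this
  convert this using 1
  ext i j
  simp [sub_eq_add_neg]

theorem Cp.lo {A : Matrix l m K} (hA : Cp S e A) : Lo v₀ S e A := by
  obtain ⟨c, h1, h2⟩ := re_of A v₀
  exact ⟨c, h1, h2.ge.trans (mul_le_mul_of_nonneg_left ((gf_le_hgt A v₀).trans hA)
    (apply_nonneg _ _))⟩

section
variable {l m o : Type}

theorem lo_pos {c : loc v₀} {s : ℝ} (h : 1 ≤ v₀ c * s) : 0 ≤ s :=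
  not_lt.1 fun h' => by nlinarith [apply_nonneg v₀ (c : K)]

theorem lo_two {c c' : loc v₀} (h : 1 ≤ v₀ c * S ^ e) (h' : 1 ≤ v₀ c' * S ^ e') :
    1 ≤ v₀ (c * c' : loc v₀) * S ^ (e + e') := by
  rw [Subring.coe_mul, map_mul, pow_add, mul_mul_mul_comm]
  exact one_le_mul_of_one_le_of_one_le h h'

theorem Lo.mul [Fintype m] {A : Matrix l m K} {B : Matrix m o K} (hA : Lo v₀ S e A)
    (hB : Lo v₀ S e' B) : Lo v₀ S (e + e') (A * B) := by
  obtain ⟨c, h1, h2⟩ := hA
  obtain ⟨c', h1', h2'⟩ := hB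
  exact ⟨_, h1.mul h1', lo_two h2 h2'⟩

theorem Lo.int [Fintype m] [DecidableEq m] {A : Matrix l m K} (h : ∀ i j, v₀ (A i j) ≤ 1) :
    Lo v₀ S 0 A := ⟨1, reInt (O := loc v₀) h, by simp⟩

theorem Lo.diag [Fintype m] [DecidableEq m] {a : m → K} (h : ∀ i, v₀ (a i) ≤ 1) :
    Lo v₀ S 0 (diagonal a) := ⟨1, reDiag (O := loc v₀) h, by simp⟩

theorem Lo.smul [Fintype l] [DecidableEq l] {A : Matrix l m K} (hA : Lo v₀ S e A) {s : K}
    (hs : v₀ s ≤ 1) : Lo v₀ S e (s • A) := by
  have := (Lo.diag (a := fun _ : l => s) fun _ => hs).mul hA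
  rwa [zero_add, ← smul_eq_diagonal_mul] at this

theorem Lo.diff [Fintype l] [DecidableEq l] {A B : Matrix l m K} (hA : Lo v₀ S e A)
    (hB : Lo v₀ S e' B) : Lo v₀ S (e + e') (A - B) := by
  obtain ⟨c, h1, h2⟩ := hA
  obtain ⟨c', h1', h2'⟩ := hB.smul (s := -1) (by simp)
  exact ⟨_, by simpa [sub_eq_add_neg] using h1.add h1', lo_two h2 h2'⟩

theorem Lo.T {A : Matrix l m K} (hA : Lo v₀ S e A) : Lo v₀ S e Aᵀ := by
  obtain ⟨c, h1, h2⟩ := hA
  exact ⟨c, reT h1, h2⟩

theorem Lo.mono (hS : 1 ≤ S) {A : Matrix l m K} (hA : Lo v₀ S e A) (h : e ≤ e') : Lo v₀ S e' A := by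
  obtain ⟨c, h1, h2⟩ := hA
  exact ⟨c, h1, h2.trans (mul_le_mul_of_nonneg_left (pow_le_pow_right₀ hS h) (apply_nonneg _ _))⟩

end

omit [NumberField K] in
theorem minor_inj {l m : Type} {A : Matrix l m K} {x : z → l} {y : z → m}
    (h : (A.submatrix x y).det ≠ 0) : Function.Injective x ∧ Function.Injective y :=
  ⟨fun i j hij => of_not_not fun hne => h (det_zero_of_row_eq hne (by ext l; simp [hij])),
    fun i j hij => of_not_not fun hne => h (det_zero_of_column_eq hne (by simp [hij]))⟩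

theorem kill' {A E : Matrix l m K} (hA : Cp S e A) (hE : Lo v₀ S e' E) {π : K} (hπ : v₀ π ≤ 1)
    {a μ : ℕ} (h : (A - π • E).rank ≤ a) (hμ : v₀ π ^ (μ + 1) * S ^ (e + e') < 1) :
    A.rank ≤ a + μ := by
  classical
  by_contra h0
  obtain ⟨x, y, hy, h1⟩ := exists_minor (Nat.succ_le_of_lt (not_le.1 h0))
  have h2 := hA.sub (minor_inj h1).1 hy
  obtain ⟨c, r1, r2⟩ := re_of (A.submatrix x y) v₀
  obtain ⟨c', r3, r4⟩ := hE
  obtain ⟨z, hz⟩ := div (loc v₀).subtype_injective r1 (r3.sub x y) ⟨π, hπ⟩ (μ + 1) (by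
    have := (rank_submatrix_le _ x y).trans h
    rw [Fintype.card_fin]
    exact (Nat.add_le_add_right this _).trans (by omega))
  generalize A.submatrix x y = A' at *
  have p1 : 0 ≤ S ^ e' := lo_pos r4
  have k1 := (tot_pf h1).symm.trans_le (tot_mono (b' := fun w => gi A' w * 1)
    (a' := fun v => gf A' v * if v = v₀ then v₀ π ^ (μ + 1) * S ^ e' else 1)
    (FinitePlace.hasFiniteMulSupport h1) ((gsupp A').mul (fin_single _ _))
    (fun w => apply_nonneg _ _) (fun v => apply_nonneg _ _)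
    (fun w => by rw [mul_one, ← ab_det]; exact det_le_gv famI _) fun v => ?_)
  · rw [tot_mul _ _ (gsupp A') (fin_single _ _), tot_single] at k1
    refine (k1.trans ((mul_le_mul_of_nonneg_right h2 (by positivity)).trans_eq ?_)).not_gt hμ
    ring
  · split_ifs with hv
    · subst hv
      have k3 := congrArg v hz
      simp only [map_mul, map_pow, Subring.coe_subtype] at k3
      calc v A'.det = v c * gf A' v * 1 * v A'.det := by rw [r2]; ring
        _ ≤ v c * gf A' v * (v c' * S ^ e') * v A'.det := by rw [r2]; gcongr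
        _ = gf A' v * (v π ^ (μ + 1) * S ^ e') * v z := by
          linear_combination (gf A' v * S ^ e') * k3
        _ ≤ _ := mul_le_of_le_one_right (mul_nonneg (gf0 _ _) (by positivity)) z.2
    · rw [mul_one]; exact det_le_gv (famF (na v)) _

theorem low' {Δ : m → K} {E : Matrix m m K} (hE : Lo v₀ S e E) {π ϖ : K} (hϖ : v₀ ϖ ≤ 1)
    {a μ : ℕ} (h : (diagonal Δ - (π * ϖ) • E).rank ≤ a) (hμ : v₀ ϖ ^ (μ + 1) * S ^ e < 1)
    (I : Finset m) (hI : ∀ i ∈ I, ¬ v₀ (Δ i / π) ≤ 1) : I.card ≤ a + μ := by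
  by_contra h0
  obtain ⟨c, r1, r2⟩ := hE
  have d0 : ∀ i : I, Δ i ≠ 0 := fun i h => hI i i.2 (by simp [h])
  obtain ⟨z, hz⟩ := div (A := (1 : Matrix I I K)) (loc v₀).subtype_injective
    (mk_univ (T := K) (ε := I) ▸ reMk Finset.univ) ((reDiag (O := loc v₀)
      (a := fun i : I => π / Δ i) fun i => by
        rw [← inv_div]
        exact (map_inv₀ v₀ _).trans_le (inv_le_one_of_one_le₀ (not_le.1 (hI i i.2)).le)).mul
      (r1.sub Subtype.val Subtype.val)) ⟨ϖ, hϖ⟩ (μ + 1) (by
    have := (rank_mul_le_right (diagonal fun i : I => (Δ i)⁻¹) _).trans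
      ((rank_submatrix_le _ (Subtype.val : I → m) (Subtype.val : I → m)).trans h)
    rw [Fintype.card_coe]
    refine (Nat.add_le_add_right (le_of_eq_of_le (congrArg rank ?_) this) _).trans (by omega)
    ext i j
    have := d0 i
    by_cases hij : i = j
    · subst hij; simp; field_simp
    · simp [hij]; ring)
  have k3 := congrArg v₀ hz
  simp only [map_mul, map_pow, Subring.coe_subtype, det_one, mul_one, one_mul] at k3
  have p1 : 0 ≤ S ^ e := lo_pos r2
  rw [k3] at r2
  exact (r2.trans (mul_le_mul_of_nonneg_right (mul_le_of_le_one_right (by positivity) z.2)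
    p1)).not_gt hμ

theorem ker' (hS : Big K S m) {V : Matrix l m K} (hV : Cp S e V) {H₁ : Matrix m m K}
    (hH : Lo v₀ S e' H₁) (Y : Matrix m l K) :
    ht v₀ (H₁ + Y * V) (bas (LinearMap.ker V.mulVecLin)) ≤ S ^ (e + 1 + e') := by
  classical
  have hi := bas_ind (LinearMap.ker V.mulVecLin)
  have hr := bas_rng (LinearMap.ker V.mulVecLin)
  have h0 : V * bas (LinearMap.ker V.mulVecLin) = 0 := by
    ext i j
    exact congrFun (finBasis K (LinearMap.ker V.mulVecLin) j).2 i
  generalize bas (LinearMap.ker V.mulVecLin) = B at hi hr h0 ⊢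
  obtain ⟨c, r1, r2⟩ := hH
  have p1 : 0 ≤ S ^ e' := lo_pos r2
  have i1 : Ind (fromRows B (0 : Matrix l _ K)) := Ind.of_sub Sum.inl hi
  have k1 := ht_sub (v₀ := v₀) (H := 0) (rng (fromRows (1 : Matrix m m K) V))
    (rng (fromRows (1 : Matrix m m K) (0 : Matrix l m K)))
  rw [← ht_eq (ind_gr _) rfl, ← ht_eq (ind_gr _) rfl, ← ht_eq i1, ht_zero _ i1, ht_zero _ (ind_gr _),
    ht_zero _ (ind_gr _), hgt_eq, hgt_eq] at k1
  · have k2 : Cp S 1 (0 : Matrix l m K) := hS.bas (by simp) (by simp)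
    have k3 : hu (fromRows B (0 : Matrix l _ K)) = hu B := by
      rw [hu, hu]
      congr 1
      · funext w
        rw [vi, fromRows_map, Matrix.map_zero _ (map_zero _)]
        exact vol_zero famI (hi.map _)
      · funext v
        exact vol_zero (famF (na v)) hi
    have k4 : 0 ≤ hu B := ht_zero v₀ hi ▸ zero_le_one.trans (one_le_ht hi)
    rw [k3] at k1
    have k5 := ((le_mul_of_one_le_right k4 (one_le_ht (bas_ind _))).trans k1).trans
      (mul_le_mul hV k2 ((gf0 _ v₀).trans (gf_le_hgt _ _)) (pow_nonneg (zero_le_one.trans hS.one_le) _))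
    refine (tot_mono (b' := fun w => vi B w * 1) (a' := fun v => vol v.1 (coF v.1) B *
      if v = v₀ then S ^ e' else 1) (supp hi) ((usupp hi).mul (fin_single _ _))
      (fun w => vol_nonneg _) (fun v => vol_nonneg _) (fun w => (mul_one _).ge) fun v => ?_).trans ?_
    · rw [vf, tw, fromRows_mul, Matrix.one_mul]
      split_ifs with hv
      · subst hv
        rw [Matrix.add_mul, Matrix.mul_assoc, h0, Matrix.mul_zero, add_zero]
        refine (le_mul_of_one_le_left (vol_nonneg _) r2).trans ?_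
        rw [mul_right_comm]
        exact mul_le_mul_of_nonneg_right (tw_le r1 hi) p1
      · rw [Matrix.zero_mul, mul_one]
        exact (vol_zero (famF (na v)) hi).le
    · rw [tot_mul _ _ (usupp hi) (fin_single _ _), tot_single, pow_add, pow_add]
      exact mul_le_mul_of_nonneg_right k5 p1
  · ext x
    simp only [LinearMap.mem_range, Submodule.mem_inf, mulVecLin_apply, fromRows_mulVec, one_mulVec,
      zero_mulVec]
    constructor
    · rintro ⟨y, rfl⟩
      exact ⟨⟨B *ᵥ y, by rw [mulVec_mulVec, h0, zero_mulVec]⟩, _, rfl⟩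
    · rintro ⟨⟨y, rfl⟩, y', h⟩
      obtain ⟨t, ht⟩ : y ∈ rng B := hr.ge (funext fun i => (congrFun h (.inr i)).symm)
      refine ⟨t, funext ?_⟩
      rintro (i | i)
      exacts [congrFun ht i, congrFun h (.inr i)]

theorem conv {c : ∀ v : FinitePlace K, loc v} {β : (K →+* ℂ) → ℝ} (hc : Ch c β S)
    {Φ : Matrix κ κ K} (h2 : Two Φ β) (hr : ∀ v, Re (loc v).subtype (c v) Φ) (x : l → κ)
    {y : m → κ} (hy : Function.Injective y) :
    hgt (Φ.submatrix x y) ≤ S * (2 ^ (Fintype.card l + Fintype.card m)) ^ finrank ℚ K := by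
  refine hc 1 _ _ _ one_ne_zero (gsupp _) (gi0 _) (gf0 _) (by positivity) (fun w => ?_) fun v => ?_
  · obtain ⟨B, g, e1, b1⟩ := normI (ind_gr ((Φ.submatrix x y).map w.embedding))
    have e2 : Bᴴ.toCols₁ + Bᴴ.toCols₂ * (1 : Matrix l l ℂ) * (Φ.submatrix x y).map w.embedding = g := by
      rw [← Matrix.one_mul g, ← b1, Matrix.mul_assoc Bᴴ, ← e1, Matrix.mul_one]
      conv_rhs => rw [← fromCols_toCols Bᴴ, fromCols_mul_fromRows, Matrix.mul_one]
    have k1 := schur' (Matrix.one_mul (1 : Matrix l l ℂ)) ((Φ.submatrix x y).map w.embedding)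
      Bᴴ.toCols₂ Bᴴ.toCols₁
    have k2 := h2 w.embedding (l ⊕ m) (fromRows (-(1 : Matrix κ κ ℂ).submatrix x id) 0) 0
      (fromCols 0 ((1 : Matrix κ κ ℂ).submatrix id y)) 0 (fromBlocks 1 0 Bᴴ.toCols₂ Bᴴ.toCols₁) (by
        rintro (i | i)
        exacts [by simpa using l1_one.sub x Function.injective_id i, by simp]) (fun i => by simp)
      (fun i => by simpa [Fintype.sum_sum_type] using l1_one.sub id hy i) (fun i => by simp) (by
        rintro (i | i)
        · simp [Fintype.sum_sum_type, one_apply, apply_ite]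
        · have := (frI b1).1 i
          simp only [coI, Fintype.sum_sum_type] at this
          simpa [Fintype.sum_sum_type, toCols₁, toCols₂, add_comm] using this.trans one_le_two)
    rw [e2, det_one, one_mul] at k1
    rw [gi, gv, e1, vol_eq (frI b1), k1, map_one, one_mul, ← Fintype.card_sum]
    refine le_of_eq_of_le (congrArg (fun M : Matrix (l ⊕ m) (l ⊕ m) ℂ => ‖det M‖) ?_) k2
    rw [Matrix.mul_zero, add_zero, fromRows_mul, fromRows_mul_fromCols, Matrix.neg_mul, sel_mul,
      mul_sel, fromBlocks_add]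
    simp
    rfl
  · rw [map_one, mul_comm]
    exact (mul_le_mul_of_nonneg_right ((pw (c v) (by norm_num : 1 ≤ 5)).trans_eq (pow_one _))
      (gf0 _ _)).trans (gf_le ((hr v).sub x y))

end Pool.Agent.MP_5daf37_lc.WF
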