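import Pool.Agent.MP_5daf37_lc.WF.H

/-!
Selecting free scalars that are determined by the cheap part, and absorbing them.
-/

open Matrix NumberField Module

namespace Pool.Agent.MP_5daf37_lc.WF
open FC HG DH

variable {K l m z ι ε : Type} [Field K] [Fintype l] [DecidableEq l] [Fintype m] [DecidableEq m]
  [Fintype z] [DecidableEq z] [Fintype ι] [DecidableEq ι] [Fintype ε] [DecidableEq ε]

/-- The skeleton of a matrix on a minor. -/
noncomputable def sk {l m : Type} (Q : Matrix l m K) (x : z → l) (y : z → m) : Matrix l m K :=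
  Q.submatrix id y * (Q.submatrix x y)⁻¹ * Q.submatrix x id

theorem sk_entry {l m : Type} {Q : Matrix l m K} {x : z → l} {y : z → m}
    (h : (Q.submatrix x y).det ≠ 0) (i : l) (j : m)
    (h' : (Q.submatrix (Sum.elim x fun _ : Fin 1 => i) (Sum.elim y fun _ : Fin 1 => j)).det = 0) :
    Q i j = sk Q x y i j := by
  have h5 := schur' (mul_nonsing_inv _ (Ne.isUnit h)) (-Q.submatrix x fun _ : Fin 1 => j)
    (Q.submatrix (fun _ => i) y) (Q.submatrix (fun _ => i) fun _ => j)
  have e : fromBlocks (Q.submatrix x y) (- -Q.submatrix x fun _ : Fin 1 => j)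
      (Q.submatrix (fun _ => i) y) (Q.submatrix (fun _ => i) fun _ => j) =
      Q.submatrix (Sum.elim x fun _ : Fin 1 => i) (Sum.elim y fun _ : Fin 1 => j) := by
    ext (a | a) (b | b) <;> simp
  rw [e, h', Matrix.mul_neg] at h5
  have h6 := (mul_eq_zero.1 h5).resolve_left h
  rw [det_unique, ← sub_eq_add_neg] at h6
  exact sub_eq_zero.1 h6

theorem dlr' (Q : Matrix m m K) (κ : ℕ) (h : ∀ I : Finset m, (mk K I * Q * mk K Iᶜ).rank ≤ κ) :
    ∃ (S : Finset m) (k : ℕ) (x y : Fin k → m), Sᶜ.card ≤ 2 * κ ∧ k ≤ κ ∧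
      (Q.submatrix x y).det ≠ 0 ∧ ∀ i ∈ S, ∀ j ∈ S, i ≠ j → Q i j = sk Q x y i j := by
  let P : ℕ → Prop := fun k =>
    ∃ x y : Fin k → m, (∀ i j, x i ≠ y j) ∧ (Q.submatrix x y).det ≠ 0
  have hP : ∀ k, P k → k ≤ κ := by
    rintro k ⟨x, y, h1, h2⟩
    by_contra h3
    refine h2 (Eq.trans ?_ (det_eq_zero_of_rank_lt
      ((h (Finset.univ.image x)).trans_lt (not_le.1 h3)) x y))
    congr 1
    ext i j
    simp [mk_apply, h1]
  obtain ⟨k, ⟨x, y, h1, h2⟩, h3⟩ : ∃ k, P k ∧ ¬ P (k + 1) := by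
    by_contra h3
    have : ∀ k, P k := fun k => by
      induction k with
      | zero => exact ⟨Fin.elim0, Fin.elim0, fun i => i.elim0, by simp⟩
      | succ k ih => exact of_not_not fun h4 => h3 ⟨k, ih, h4⟩
    exact absurd (hP _ (this (κ + 1))) (by omega)
  have hk := hP k ⟨x, y, h1, h2⟩
  refine ⟨(Finset.univ.image x ∪ Finset.univ.image y)ᶜ, k, x, y, ?_, hk, h2,
    fun i hi j hj hij => sk_entry h2 i j ?_⟩
  · rw [compl_compl]
    have a1 := Finset.card_image_le (s := Finset.univ) (f := x)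
    have a2 := Finset.card_image_le (s := Finset.univ) (f := y)
    have := Finset.card_union_le (Finset.univ.image x) (Finset.univ.image y)
    rw [Finset.card_univ, Fintype.card_fin] at a1 a2
    omega
  · replace hi : (∀ a, x a ≠ i) ∧ ∀ a, y a ≠ i := by simpa using hi
    replace hj : (∀ a, x a ≠ j) ∧ ∀ a, y a ≠ j := by simpa using hj
    rw [← det_submatrix_equiv_self finSumFinEquiv.symm]
    refine of_not_not fun h5 => h3 ⟨Sum.elim x (fun _ => i) ∘ finSumFinEquiv.symm,
      Sum.elim y (fun _ => j) ∘ finSumFinEquiv.symm, fun a b => ?_, h5⟩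
    simp only [Function.comp]
    rcases finSumFinEquiv.symm a with a | a <;> rcases finSumFinEquiv.symm b with b | b
    exacts [h1 a b, hj.1 a, (hi.2 b).symm, hij]

omit [Fintype m] in
theorem mk_image {x : z → m} (hx : Function.Injective x) (S : Finset z) :
    mk K (S.image x) = (1 : Matrix m m K).submatrix id x * mk K S *
      (1 : Matrix m m K).submatrix x id := by
  ext i j
  rw [HG.mk, HG.mk, mul_apply, diagonal_apply]
  simp only [mul_diagonal, submatrix_apply, id, one_apply]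
  by_cases h : ∃ a, x a = i
  · obtain ⟨a, rfl⟩ := h
    rw [Finset.sum_eq_single a (fun b _ hb => by simp [hx.eq_iff, hb.symm]) (by simp)]
    simp [hx.eq_iff]
  · push Not at h
    simp [h, fun a => (h a).symm]

omit [Fintype m] in
theorem mk_split {T I : Finset m} (h : I ⊆ T) : mk K T = mk K (T \ I) + mk K I := by
  rw [HG.mk, HG.mk, HG.mk, diagonal_add]
  congr 1
  funext e
  by_cases he : e ∈ I
  · simp [he, h he]
  · simp [he]

theorem diag_sel (D : m → K) (x : z → m) : diagonal D * (1 : Matrix m m K).submatrix id x =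
    (1 : Matrix m m K).submatrix id x * diagonal (D ∘ x) := by
  ext i j
  by_cases h : i = x j <;> simp [one_apply, h]

variable [NumberField K] {S : ℝ} {e : ℕ} {v₀ : FinitePlace K}

theorem Cp.sk {Q : Matrix l m K} (hQ : Cp S e Q) {x : z → l} {y : z → m}
    (h : (Q.submatrix x y).det ≠ 0) : Cp S (e + e + e) (sk Q x y) :=
  ((hQ.sub Function.injective_id (minor_inj h).2).mul
    ((hQ.sub (minor_inj h).1 (minor_inj h).2).inv h)).mul (hQ.row (minor_inj h).1)

theorem proj (hS : Big K S m) {M : Matrix l m K} (hM : Cp S e M) :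
    ∃ J : Matrix m l K, Cp S (e + e + 4) (1 - J * M) ∧ M * (1 - J * M) = 0 := by
  obtain ⟨x, y, hy, h⟩ := exists_minor (le_refl M.rank)
  have hx := (minor_inj h).1
  refine ⟨(1 : Matrix m m K).submatrix id y * (M.submatrix x y)⁻¹ *
    (1 : Matrix l l K).submatrix x id, ?_, ?_⟩
  · rw [Matrix.mul_assoc, sel_mul]
    exact (hS.one.diff hS hS (((hS.one.sub Function.injective_id hy).mul
      ((hM.sub hx hy).inv h)).mul (hM.row hx))).mono hS.one_le (by omega)
  · rw [Matrix.mul_assoc, sel_mul, Matrix.mul_sub, Matrix.mul_one, ← Matrix.mul_assoc,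
      ← Matrix.mul_assoc, mul_sel, sub_eq_zero]
    ext i j
    refine sk_entry h i j (of_not_not fun h0 => ?_)
    have := rank_submatrix_le M (Sum.elim x fun _ : Fin 1 => i) (Sum.elim y fun _ : Fin 1 => j)
    rw [rank_of_det_ne_zero h0] at this
    simp at this

omit [NumberField K] [Fintype ι] [DecidableEq ι] [DecidableEq l] in
theorem rank_proj (V : Matrix ι m K) (J : Matrix m l K) (M : Matrix l m K) :
    V.rank ≤ (V * (1 - J * M)).rank + M.rank := by
  refine le_of_eq_of_le (congrArg rank ?_) ((rank_add_le' _ (V * J * M)).trans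
    (Nat.add_le_add_left (rank_mul_le_right _ _) _))
  rw [Matrix.mul_sub, Matrix.mul_one, Matrix.mul_assoc, sub_add_cancel]

variable {U : Matrix ι ε K} {V : Matrix ε ι K}

theorem select (hι : Big K S ι) (hε : Big K S ε) (hU : Cp S 1 U) (hV : Cp S 1 V) (T : Finset ε) :
    ∃ (s : ℕ) (w : Fin s → ε) (Y : Matrix (Fin s) ι K) (X : Matrix ι (Fin s) K),
      Function.Injective w ∧ (∀ i, w i ∈ T) ∧ Cp S 2 Y ∧ Cp S 18 X ∧
      (U * mk K T).rank + (mk K T * V).rank ≤ T.card + s ∧
      ∀ D : ε → K, Y * (U * (diagonal D * mk K T) * V) * X = diagonal (D ∘ w) := by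
  obtain ⟨x, y, hy, h⟩ := exists_minor (le_refl (U * mk K T).rank)
  generalize (U * mk K T).rank = ρ at x y hy h ⊢
  have y1 : ∀ j, y j ∈ T := fun j => of_not_not fun hj =>
    h (det_eq_zero_of_column_eq_zero j fun i => by simp [HG.mk, hj])
  have e1 : (U * mk K T).submatrix x y = U.submatrix x y := by
    ext i j; simp [HG.mk, y1]
  rw [e1] at h
  have hx := (minor_inj h).1
  have y2 : Finset.univ.image y ⊆ T := Finset.image_subset_iff.2 fun j _ => y1 j
  obtain ⟨J, j1, j2⟩ := proj hι ((hε.mk (T \ Finset.univ.image y)).mul hV)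
  have r1 := rank_proj (mk K T * V) J (mk K (T \ Finset.univ.image y) * V)
  generalize 1 - J * (mk K (T \ Finset.univ.image y) * V) = N at j1 j2 r1
  have e2 : mk K T * V * N = (1 : Matrix ε ε K).submatrix id y * (V.submatrix y id * N) := by
    rw [mk_split y2, Matrix.add_mul, Matrix.add_mul, j2, zero_add, mk_image hy, mk_univ,
      Matrix.mul_one, Matrix.mul_assoc _ _ V, sel_mul, Matrix.mul_assoc]
  have c1 := (hV.row hy).mul j1
  obtain ⟨x', y', hy', h'⟩ := exists_minor (le_refl (V.submatrix y id * N).rank)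
  have hx' := (minor_inj h').1
  refine ⟨_, y ∘ x', ((U.submatrix x y)⁻¹ * (1 : Matrix ι ι K).submatrix x id).submatrix x' id,
    N * ((1 : Matrix ι ι K).submatrix id y' * ((V.submatrix y id * N).submatrix x' y')⁻¹),
    hy.comp hx', fun i => y1 _, (((hU.sub hx hy).inv h).mul (hι.one.row hx)).row hx',
    j1.mul ((hι.one.sub Function.injective_id hy').mul ((c1.sub hx' hy').inv h')), ?_, fun D => ?_⟩
  · have a1 := (rank_mul_le_left (mk K (T \ Finset.univ.image y)) V).trans (rank_mk _)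
    have a2 := Finset.card_sdiff_add_card_eq_card y2
    have a3 := rank_mul_le_right ((1 : Matrix ε ε K).submatrix id y) (V.submatrix y id * N)
    rw [Finset.card_image_of_injective _ hy, Finset.card_univ, Fintype.card_fin] at a2
    rw [e2] at r1
    omega
  · have e3 : ((U.submatrix x y)⁻¹ * (1 : Matrix ι ι K).submatrix x id).submatrix x' id *
        (U * (1 : Matrix ε ε K).submatrix id y) = (1 : Matrix (Fin ρ) (Fin ρ) K).submatrix x' id := by
      rw [mul_sel, ← sel_mul x', Matrix.mul_assoc, Matrix.mul_assoc, sel_mul x, submatrix_submatrix,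
        Function.comp_id, Function.id_comp, nonsing_inv_mul _ h.isUnit, Matrix.mul_one]
    have e4 : ∀ M : Matrix (Fin ρ) ι K, (1 : Matrix (Fin ρ) (Fin ρ) K).submatrix x' id *
        (diagonal (D ∘ y) * M) = diagonal (D ∘ y ∘ x') * M.submatrix x' id := fun M => by
      rw [sel_mul]; ext i j; simp
    calc _ = ((U.submatrix x y)⁻¹ * (1 : Matrix ι ι K).submatrix x id).submatrix x' id *
          (U * (diagonal D * (mk K T * V * N))) * ((1 : Matrix ι ι K).submatrix id y' *
            ((V.submatrix y id * N).submatrix x' y')⁻¹) := by simp only [Matrix.mul_assoc]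
      _ = _ := by
        rw [e2, ← Matrix.mul_assoc (diagonal D), diag_sel, Matrix.mul_assoc _ (diagonal _),
          ← Matrix.mul_assoc U, ← Matrix.mul_assoc _ (U * _), e3, e4, Matrix.mul_assoc,
          ← Matrix.mul_assoc (submatrix _ x' id), mul_sel, submatrix_submatrix, Function.comp_id,
          Function.id_comp, mul_nonsing_inv _ h'.isUnit, Matrix.mul_one]

theorem lo_mk (T : Finset m) : Lo v₀ S 0 (mk K T) :=
  Lo.diag fun i => by split_ifs <;> simp

theorem step (hι : Big K S ι) (hε : Big K S ε) (hU : Cp S 1 U) (hV : Cp S 1 V) {T : Finset ε}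
    {A R E : Matrix ι ι K} {D : ε → K} {π ϖ : K} (hA : Cp S e A) (hE : Lo v₀ S e E) (π0 : π ≠ 0)
    (hπ : v₀ π ≤ 1) (hϖ : v₀ ϖ ≤ 1) {μ : ℕ} (hμ : v₀ ϖ ^ (μ + 1) * S ^ (e + e + 42) < 1)
    (h : A + U * (diagonal D * mk K T) * V = R + (π * ϖ) • E) :
    ∃ (T' : Finset ε) (A' E' : Matrix ι ι K), Cp S (5 * e + 88) A' ∧ Lo v₀ S (5 * e + 88) E' ∧
      A' + U * (diagonal D * mk K T') * V = R + π • E' ∧
      T'.card + ((U * mk K T).rank + (mk K T * V).rank) ≤ 2 * T.card + 4 * R.rank + 4 * μ := by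
  have s1 := hι.one_le
  obtain ⟨s, w, Y, X, w1, w2, cY, cX, r1, e1⟩ := select hι hε hU hV T
  have hs : Big K S (Fin s) := hε.of (Fintype.card_le_of_injective w w1)
  have cB := (cY.mul hA).mul cX
  have lE := ((cY.lo (v₀ := v₀)).mul hE).mul cX.lo
  have rR : (Y * R * X).rank ≤ R.rank := (rank_mul_le_left _ _).trans (rank_mul_le_right _ _)
  have e2 : Y * A * X + diagonal (D ∘ w) = Y * R * X + (π * ϖ) • (Y * E * X) := by
    rw [← e1, ← Matrix.add_mul, ← Matrix.mul_add, h, Matrix.mul_add, Matrix.add_mul,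
      Matrix.mul_smul, Matrix.smul_mul]
  generalize Y * A * X = B at cB e2
  generalize Y * E * X = E₁ at lE e2
  generalize Y * R * X = R₁ at rR e2
  have rk : ∀ (I I' : Finset (Fin s)) (M : Matrix (Fin s) (Fin s) K),
      (mk K I * M * mk K I').rank ≤ M.rank :=
    fun I I' M => (rank_mul_le_left _ _).trans (rank_mul_le_right _ _)
  have p1 : v₀ (π * ϖ) ≤ v₀ ϖ := (map_mul _ _ _).trans_le
    (mul_le_of_le_one_left (apply_nonneg _ _) hπ)
  obtain ⟨S₁, k, x, y, d1, d2, d3, d4⟩ := dlr' B (R.rank + μ) fun I =>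
    kill' (((hs.mk I).mul cB).mul (hs.mk Iᶜ)) (((lo_mk I).mul lE).mul (lo_mk Iᶜ)) (p1.trans hϖ) (by
      refine le_of_eq_of_le (congrArg rank ?_) ((rk I Iᶜ R₁).trans rR)
      rw [eq_sub_of_add_eq e2.symm]
      ext i j
      simp only [Matrix.sub_apply, Matrix.smul_apply, mk_apply, Matrix.add_apply, diagonal_apply]
      by_cases hi : i ∈ I <;> by_cases hj : j ∈ I <;> simp [hi, hj]
      exact fun hij => absurd (hij ▸ hi) hj) (lt_of_le_of_lt (by
        rw [show 1 + (2 + e + 18) + 1 + (0 + (2 + e + 18) + 0) = e + e + 42 by omega]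
        gcongr) hμ)
  have cK := cB.sk d3
  have rK : (sk B x y).rank ≤ k := (rank_mul_le_right _ _).trans
    ((rank_le_card_height _).trans_eq (Fintype.card_fin k))
  generalize sk B x y = R' at cK rK d4
  let I := S₁.filter fun i => ¬ v₀ ((B i i - R' i i + D (w i)) / π) ≤ 1
  have l1 := low' (Δ := fun i => if i ∈ S₁ then B i i - R' i i + D (w i) else 0)
    (((lo_mk S₁).mul lE).mul (lo_mk S₁)) (π := π) hϖ (a := R.rank + k) (μ := μ) (by
      refine le_of_eq_of_le (congrArg rank ?_) ((rk S₁ S₁ (R₁ - R')).trans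
        ((rank_sub_le' _ _).trans (add_le_add rR rK)))
      rw [eq_sub_of_add_eq e2.symm]
      ext i j
      simp only [Matrix.sub_apply, Matrix.smul_apply, mk_apply, Matrix.add_apply, diagonal_apply]
      by_cases hij : i = j
      · subst hij
        by_cases hi : i ∈ S₁ <;> simp [hi]
        ring
      · by_cases hi : i ∈ S₁ <;> by_cases hj : j ∈ S₁ <;> simp [hi, hj, hij]
        rw [d4 i hi j hj hij]
        ring) (lt_of_le_of_lt (mul_le_mul_of_nonneg_left (pow_le_pow_right₀ s1 (by omega))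
        (by positivity)) hμ) I fun i hi => by
      rw [if_pos (Finset.mem_filter.1 hi).1]; exact (Finset.mem_filter.1 hi).2
  have t1 : (S₁ \ I).image w ⊆ T := Finset.image_subset_iff.2 fun i _ => w2 i
  have cU := hU.sub Function.injective_id w1
  have cV := hV.row w1
  refine ⟨T \ (S₁ \ I).image w, A - U.submatrix id w * (mk K (S₁ \ I) * (B - R') * mk K (S₁ \ I)) *
    V.submatrix w id, ϖ • E - U.submatrix id w * diagonal (fun i => if i ∈ S₁ \ I then
      (B i i - R' i i + D (w i)) / π else 0) * V.submatrix w id,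
    (hA.diff hι hι ((cU.mul (((hs.mk _).mul (cB.diff hs hs cK)).mul (hs.mk _))).mul cV)).mono s1
      (by omega), ((hE.smul hϖ).diff ((cU.lo.mul (Lo.diag fun i => ?_)).mul cV.lo)).mono s1
      (by omega), ?_, ?_⟩
  · split_ifs with hi
    · rw [Finset.mem_sdiff] at hi
      exact of_not_not fun h' => hi.2 (Finset.mem_filter.2 ⟨hi.1, h'⟩)
    · simp
  · have e3 : π • diagonal (fun i => if i ∈ S₁ \ I then (B i i - R' i i + D (w i)) / π else 0) =
        mk K (S₁ \ I) * (B - R') * mk K (S₁ \ I) + diagonal (D ∘ w) * mk K (S₁ \ I) := by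
      ext i j
      rw [Matrix.add_apply, mk_apply, HG.mk, diagonal_mul_diagonal, Matrix.smul_apply,
        diagonal_apply, diagonal_apply, Matrix.sub_apply]
      by_cases hij : i = j
      · subst hij
        by_cases hi : i ∈ S₁ \ I
        · simp only [hi, if_true, and_self, smul_eq_mul, mul_div_cancel₀ _ π0, mul_one]; rfl
        · simp only [hi, if_false, if_true, and_self, smul_zero, mul_zero, add_zero]
      · rw [if_neg hij, if_neg hij, smul_zero, add_zero]
        split_ifs with hi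
        · rw [d4 i (Finset.mem_sdiff.1 hi.1).1 j (Finset.mem_sdiff.1 hi.2).1 hij, sub_self]
        · rfl
    have e4 : U * (diagonal D * mk K ((S₁ \ I).image w)) * V =
        U.submatrix id w * (diagonal (D ∘ w) * mk K (S₁ \ I)) * V.submatrix w id := by
      rw [mk_image w1, ← mul_sel w U, ← sel_mul w V, ← Matrix.mul_assoc (diagonal D),
        ← Matrix.mul_assoc (diagonal D), diag_sel]
      simp only [Matrix.mul_assoc]
    rw [mk_split t1, Matrix.mul_add, Matrix.mul_add, Matrix.add_mul, e4] at h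
    rw [smul_sub, smul_smul, ← Matrix.smul_mul, ← Matrix.mul_smul, e3, Matrix.mul_add,
      Matrix.add_mul, ← add_sub_assoc, ← h]
    abel
  · have a1 := Finset.card_sdiff_add_card_eq_card t1
    have a2 : (S₁ \ I).card + I.card = S₁.card :=
      Finset.card_sdiff_add_card_eq_card (Finset.filter_subset _ S₁)
    have a3 := Finset.card_add_card_compl S₁
    rw [Finset.card_image_of_injective _ w1] at a1
    rw [Fintype.card_fin] at a3
    omega

theorem iter (hι : Big K S ι) (hε : Big K S ε) (hU : Cp S 1 U) (hV : Cp S 1 V)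
    {R : Matrix ι ι K} {D : ε → K} {π ϖ : K} (π0 : π ≠ 0) (ϖ0 : ϖ ≠ 0)
    (hπ : v₀ π ≤ 1) (hϖ : v₀ ϖ ≤ 1) {μ F δ : ℕ} (hμ : v₀ ϖ ^ (μ + 1) * S ^ (F + F) < 1) (L : ℕ) :
    ∀ (e : ℕ) (T : Finset ε) (A E : Matrix ι ι K), Cp S e A → Lo v₀ S e E →
      5 ^ L * (e + 22) ≤ F → T.card ≤ L * δ →
      A + U * (diagonal D * mk K T) * V = R + (π * ϖ ^ L) • E →
      ∃ (T' : Finset ε) (A' E' : Matrix ι ι K), Cp S F A' ∧ Lo v₀ S F E' ∧
        A' + U * (diagonal D * mk K T') * V = R + π • E' ∧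
        (U * mk K T').rank + (mk K T' * V).rank ≤ T'.card + 4 * R.rank + 4 * μ + δ := by
  have s1 := hι.one_le
  have p1 : ∀ i, v₀ (ϖ ^ i) ≤ 1 := fun i => (map_pow _ _ _).trans_le
    (pow_le_one₀ (apply_nonneg _ _) hϖ)
  induction L with
  | zero =>
    intro e T A E hA hE hF hT h
    have a1 := (rank_mul_le_right U (mk K T)).trans (rank_mk T)
    have a2 := (rank_mul_le_left (mk K T) V).trans (rank_mk T)
    exact ⟨T, A, E, hA.mono s1 (by omega), hE.mono s1 (by omega), by simpa using h, by omega⟩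
  | succ L ih =>
    intro e T A E hA hE hF hT h
    have a0 : e + 22 ≤ F := (Nat.le_mul_of_pos_left _ (by positivity)).trans hF
    by_cases h0 : (U * mk K T).rank + (mk K T * V).rank ≤ T.card + 4 * R.rank + 4 * μ + δ
    · exact ⟨T, A, ϖ ^ (L + 1) • E, hA.mono s1 (by omega), (hE.smul (p1 _)).mono s1 (by omega),
        by rw [h, smul_smul], h0⟩
    obtain ⟨T', A', E', c1, c2, c3, c4⟩ := step hι hε hU hV hA hE (π := π * ϖ ^ L)
      (mul_ne_zero π0 (pow_ne_zero _ ϖ0)) ((map_mul _ _ _).trans_le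
        (mul_le_one₀ hπ (apply_nonneg _ _) (p1 _))) hϖ (μ := μ)
      (lt_of_le_of_lt (mul_le_mul_of_nonneg_left (pow_le_pow_right₀ s1 (by omega))
        (by positivity)) hμ) (by rw [h, pow_succ, mul_assoc])
    refine ih _ T' A' E' c1 c2 (le_of_eq_of_le (by ring) hF) ?_ c3
    rw [Nat.succ_mul] at hT
    omega

theorem last (hι : Big K S ι) (hε : Big K S ε) (hV : Cp S 1 V) {T : Finset ε}
    {A R E : Matrix ι ι K} {Y : Matrix ι ε K} {π : K} (hA : Cp S e A) (hE : Lo v₀ S e E)
    (hπ : v₀ π ≤ 1) {μ : ℕ} (hμ : v₀ π ^ (μ + 1) * S ^ (e + e + 16) < 1)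
    (h : A + Y * (mk K T * V) = R + π • E) :
    ∃ (V' : Matrix (ε ⊕ ι) ι K) (Y' : Matrix ι (ε ⊕ ι) K), Cp S (e + 11) V' ∧
      V'.rank ≤ (mk K T * V).rank + R.rank + μ ∧ R + π • E = Y' * V' := by
  have c1 := (hε.mk T).mul hV
  generalize mk K T * V = M at c1 h ⊢
  obtain ⟨J, j1, j2⟩ := proj hι c1
  have k1 := kill' (hA.mul j1) (hE.mul j1.lo) hπ (a := R.rank) (μ := μ) (by
    refine le_of_eq_of_le (congrArg rank ?_) (rank_mul_le_left R (1 - J * M))
    rw [eq_sub_of_add_eq h.symm, Matrix.sub_mul, Matrix.add_mul, Matrix.mul_assoc Y, j2,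
      Matrix.mul_zero, add_zero, Matrix.smul_mul])
    (lt_of_le_of_lt (le_of_eq (by congr 2; omega)) hμ)
  refine ⟨fromRows M (A * (1 - J * M)), fromCols (Y + A * J) 1,
    (c1.rows hι (hA.mul j1)).mono hι.one_le (by omega), ?_, ?_⟩
  · have := rank_add_le' (fromRows 1 (0 : Matrix ι ε K) * M)
      (fromRows (0 : Matrix ε ι K) 1 * (A * (1 - J * M)))
    refine le_of_eq_of_le (congrArg rank ?_) (this.trans ((add_le_add (rank_mul_le_right _ _)
      ((rank_mul_le_right _ _).trans k1)).trans_eq (add_assoc _ _ _).symm))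
    rw [fromRows_mul, fromRows_mul]
    ext (i | i) j <;> simp
  · rw [← h, fromCols_mul_fromRows, Matrix.one_mul, Matrix.mul_sub, Matrix.add_mul, Matrix.mul_one,
      Matrix.mul_assoc]
    abel

end Pool.Agent.MP_5daf37_lc.WF
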