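import Pool.Agent.MP_5daf37_lc.WF.I

/-!
The assembly for one layer of free scalars inside a cheap matrix.
-/

open Matrix NumberField Module

namespace Pool.Agent.MP_5daf37_lc.WF
open FC HG DH

variable {K ι ε : Type} [Field K] [NumberField K] [Fintype ι] [DecidableEq ι] [Fintype ε]
  [DecidableEq ε] {S : ℝ} {v₀ : FinitePlace K} {P k e e' : ℕ}

theorem side' (hι : Big K S ι) (hP : (P : K) ≠ 0) {H G : Matrix ι ι K} (hI : Irr H)
    (hG : G * H = (P : K) ^ k • (1 : Matrix ι ι K)) (sG : Spread (loc v₀) P k G)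
    {V : Matrix ε ι K} (hV : Cp S e V) {H₁ : Matrix ι ι K} (h₁ : Lo v₀ S e' H₁) {Y : Matrix ι ε K}
    {t a : ℕ} (ht' : t ≤ k) (hH : H = (P : K) ^ t • H₁ + Y * V) : ∃ μ : ℕ,
      Fintype.card ι * t ≤ k * μ + Fintype.card ι * (a + 3) ∧
      1 ≤ v₀ P ^ (a * μ * (Fintype.card ι - V.rank)) * (S ^ (e + 1 + e')) ^ Fintype.card ι := by
  obtain ⟨s, rfl⟩ := Nat.exists_eq_add_of_le ht'
  obtain ⟨R, Z, z1, z2, z3⟩ := sG (s + a)
  obtain ⟨μ, hμ⟩ := Nat.exists_eq_add_of_le (rank_le_card_width R)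
  refine ⟨μ, by rw [hμ] at z3 ⊢; nlinarith, ?_⟩
  have p0 : ∀ i : ℕ, (P : K) ^ i ≠ 0 := fun i => pow_ne_zero i hP
  obtain ⟨𝒢, g1, g2⟩ := hI
  have e1 : ((P : K) ^ t)⁻¹ • H = H₁ + (((P : K) ^ t)⁻¹ • Y) * V := by
    rw [hH, smul_add, smul_smul, inv_mul_cancel₀ (p0 t), one_smul, Matrix.smul_mul]
  have k1 := ker' hι hV h₁ (((P : K) ^ t)⁻¹ • Y)
  rw [← e1] at k1
  have k2 := semi (v₀ := v₀) (H := ((P : K) ^ t)⁻¹ • H) 𝒢 (fun g hg => by
    obtain ⟨a1, a2, g', a3, a4⟩ := g1 g hg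
    exact ⟨a1, a2, g', a3, by rw [Matrix.smul_mul, Matrix.mul_smul, a4]⟩) g2
    (LinearMap.ker V.mulVecLin)
  have k3 := top_step (v₀ := v₀) (H := ((P : K) ^ t)⁻¹ • H) (G := ((P : K) ^ s)⁻¹ • G)
    (R := ((P : K) ^ s)⁻¹ • R) (Z := Z) (by
      rw [Matrix.smul_mul, Matrix.mul_smul, hG, smul_smul, smul_smul, pow_add]
      convert one_smul K _ using 2
      field_simp) ((P : loc v₀) ^ a) (by
      rw [z2, smul_add, smul_smul, pow_add, inv_mul_cancel_left₀ (p0 s)]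
      simp) z1 (μ := μ) ((Nat.add_le_add_right (rank_smul_le _ _) _).trans hμ.ge)
  have e2 : finrank K (LinearMap.ker V.mulVecLin) = Fintype.card ι - V.rank :=
    eq_tsub_of_add_eq ((add_comm _ _).trans ((LinearMap.finrank_range_add_finrank_ker
      V.mulVecLin).trans (finrank_fintype_fun_eq_card K)))
  have k4 := k2.trans (pow_le_pow_left₀ (zero_le_one.trans (one_le_ht (bas_ind _))) k1 _)
  rw [e2] at k4
  have k5 := one_le_pow₀ (n := Fintype.card ι - V.rank) k3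
  rw [mul_pow] at k5
  refine k5.trans (le_of_le_of_eq (mul_le_mul_of_nonneg_left k4 (by positivity)) ?_)
  simp [pow_mul]

theorem half (hι : Big K S ι) (hε : Big K S ε) (hP : (P : K) ≠ 0) {H G : Matrix ι ι K}
    (hI : Irr H) (hG : G * H = (P : K) ^ k • (1 : Matrix ι ι K)) (sG : Spread (loc v₀) P k G)
    {V : Matrix ε ι K} (hV : Cp S 1 V) {T : Finset ε} {A R E H₁ : Matrix ι ι K} {Y : Matrix ι ε K}
    {π s : K} (hA : Cp S e A) (hE : Lo v₀ S e E) (h₁ : Lo v₀ S e H₁) (hπ : v₀ π ≤ 1) {μ t : ℕ}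
    (a : ℕ) (hμ : v₀ π ^ (μ + 1) * S ^ (e + e + 16) < 1) (h : A + Y * (mk K T * V) = R + π • E)
    (ht' : t ≤ k) (hH : H = (P : K) ^ t • H₁ + s • (R + π • E)) : ∃ μ₁ z : ℕ,
      Fintype.card ι * t ≤ k * μ₁ + Fintype.card ι * (a + 3) ∧
      Fintype.card ι ≤ z + ((mk K T * V).rank + R.rank + μ) ∧
      1 ≤ v₀ P ^ (a * μ₁ * z) * (S ^ (e + e + 16)) ^ Fintype.card ι := by
  obtain ⟨V', Y', c1, c2, c3⟩ := last hι hε hV hA hE hπ hμ h
  obtain ⟨μ₁, m1, m2⟩ := side' hι hP hI hG sG c1 h₁ (Y := s • Y') (a := a) ht'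
    (by rw [hH, c3, Matrix.smul_mul])
  refine ⟨μ₁, _, m1, by omega, m2.trans (mul_le_mul_of_nonneg_left (pow_le_pow_left₀
    (pow_nonneg (zero_le_one.trans hι.one_le) _) (pow_le_pow_right₀ hι.one_le (by omega)) _)
    (by positivity))⟩

variable {H G A : Matrix ι ι K} {U : Matrix ι ε K} {V : Matrix ε ι K} {D : ε → K} {j u : ℕ}

theorem core (hι : Big K S ι) (hε : Big K S ε) (hP : (P : K) ≠ 0) (hI : Irr H) (hI' : Irr Hᵀ)
    (hG : G * H = (P : K) ^ k • (1 : Matrix ι ι K))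
    (hG' : H * G = (P : K) ^ k • (1 : Matrix ι ι K)) (sH : Spread (loc v₀) P k H)
    (sG : Spread (loc v₀) P k G) (hA : Cp S 1 A) (hU : Cp S 1 U) (hV : Cp S 1 V) (hj : 0 < j)
    (hu : 3 ≤ u) (hk : 1300 * (j * j * u) ≤ k) (hk' : k ≤ 2600 * (j * j * u))
    (hN : 10 * j ≤ Fintype.card ι)
    (hm : j * Fintype.card ε + Fintype.card ι ≤ 2 * (j * Fintype.card ι))
    {E : Matrix ι ι K} (hE : Lo v₀ S 1 E) {s : K} (s0 : s ≠ 0) {τ : ℕ} (hs : v₀ (P ^ τ / s) ≤ 1)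
    (h1 : 2 * u ≤ τ) (h2 : τ + u + u * (4 * j) ≤ 12 * (j * u))
    (hH : H = s • A + U * diagonal D * V + (P : K) ^ (τ + u + u * (4 * j)) • E) :
    1 ≤ v₀ P ^ (u * Fintype.card ι) * (S ^ (46 * 625 ^ j + 16)) ^ (20800 * j ^ 3) := by
  have s1 := hι.one_le
  have p0 : ∀ i : ℕ, (P : K) ^ i ≠ 0 := fun i => pow_ne_zero i hP
  have p1 : v₀ P ≤ 1 := natCast_mem (loc v₀) P
  have p2 : 0 < v₀ P := FinitePlace.pos_iff.2 hP
  have p3 : ∀ i : ℕ, v₀ (P ^ i) ≤ 1 := fun i => (map_pow _ _ _).trans_le (pow_le_one₀ p2.le p1)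
  obtain ⟨F, hF⟩ : ∃ F, F = 5 ^ (4 * j) * (1 + 22) := ⟨_, rfl⟩
  rw [show 46 * 625 ^ j + 16 = F + F + 16 by rw [hF, pow_mul]; ring]
  have b1 : 1 ≤ S ^ (F + F + 16) := one_le_pow₀ s1
  have fin : ∀ e f : ℕ, 0 < f → 1 ≤ v₀ P ^ e * (S ^ (F + F + 16)) ^ f →
      u * Fintype.card ι * f ≤ 20800 * j ^ 3 * e →
      1 ≤ v₀ P ^ (u * Fintype.card ι) * (S ^ (F + F + 16)) ^ (20800 * j ^ 3) :=
    fun e f f0 h1 h2 => by
      refine (one_le_pow_iff_of_nonneg (by positivity) f0.ne').1 ?_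
      refine (one_le_pow₀ (n := 20800 * j ^ 3) h1).trans ?_
      generalize S ^ (F + F + 16) = B at *
      rw [mul_pow, mul_pow, ← pow_mul, ← pow_mul, ← pow_mul, ← pow_mul, mul_comm f]
      exact mul_le_mul_of_nonneg_right (pow_le_pow_of_le_one p2.le p1 (by linarith))
        (by positivity)
  obtain ⟨μ, hμ⟩ : ∃ μ, μ = Fintype.card ι / (100 * j) := ⟨_, rfl⟩
  obtain ⟨δ, hδ⟩ : ∃ δ, δ = Fintype.card ι / (2 * j) := ⟨_, rfl⟩
  have m1 := Nat.mul_div_le (Fintype.card ι) (100 * j)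
  have m2 := Nat.lt_mul_div_succ (Fintype.card ι) (show 0 < 100 * j by omega)
  have m3 := Nat.mul_div_le (Fintype.card ι) (2 * j)
  have m4 := Nat.lt_mul_div_succ (Fintype.card ι) (show 0 < 2 * j by omega)
  rw [← hμ] at m1 m2
  rw [← hδ] at m3 m4
  have j3 : j ≤ j ^ 3 := Nat.le_self_pow (by norm_num) j
  by_cases h0 : 1 ≤ v₀ (P ^ u) ^ (μ + 1) * S ^ (F + F + 16)
  · refine fin (u * (μ + 1)) 1 one_pos (by rwa [pow_one, pow_mul, ← map_pow]) ?_
    nlinarith [Nat.mul_le_mul_left u m2.le, Nat.mul_le_mul_right (u * (μ + 1)) j3,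
      Nat.zero_le (j ^ 3 * (u * (μ + 1)))]
  replace h0 := not_le.1 h0
  obtain ⟨R, Z, z1, z2, z3⟩ := sH (τ + u + u * (4 * j))
  have lZ : Lo v₀ S 0 Z := Lo.int z1
  have q1 : v₀ (P ^ τ / s * P ^ u) ≤ v₀ (P ^ u) := (map_mul _ _ _).trans_le
    (mul_le_of_le_one_left (apply_nonneg _ _) hs)
  obtain ⟨T, A', E', c1, c2, c3, c4⟩ := iter hι hε hU hV (R := s⁻¹ • R) (D := fun e => s⁻¹ * D e)
    (mul_ne_zero (div_ne_zero (p0 τ) s0) (p0 u)) (p0 u) (q1.trans (p3 u)) (p3 u) (μ := μ)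
    (F := F) (δ := δ + 1) (lt_of_le_of_lt (mul_le_mul_of_nonneg_left
      (pow_le_pow_right₀ s1 (by omega)) (by positivity)) h0) (4 * j) 1 Finset.univ A (Z - E) hA
    (lZ.diff hE) hF.ge (by
      rw [Finset.card_univ]
      refine le_of_mul_le_mul_left (a := j) ?_ hj
      nlinarith [Nat.mul_le_mul_left j m4.le]) (by
      have a1 : (diagonal fun e => s⁻¹ * D e) = s⁻¹ • diagonal D := by
        rw [← diagonal_smul]; rfl
      have a2 := congrArg (fun M => s⁻¹ • M) (hH.symm.trans z2)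
      simp only [smul_add, smul_smul, inv_mul_cancel₀ s0, one_smul] at a2
      rw [mk_univ, Matrix.mul_one, a1, Matrix.mul_smul, Matrix.smul_mul, eq_sub_of_add_eq a2,
        smul_sub, add_sub_assoc, ← pow_mul, pow_add, pow_add]
      congr 3 <;> ring)
  have l1 : Lo v₀ S F (((P : K) ^ (u * (4 * j))) • Z - E') := by
    simpa using (lZ.smul (p3 _)).diff c2
  have e1 : H = (P : K) ^ (τ + u) • (((P : K) ^ (u * (4 * j))) • Z - E') +
      s • (s⁻¹ • R + (P ^ τ / s * P ^ u : K) • E') := by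
    rw [z2, smul_add, smul_sub, smul_smul, smul_smul, smul_smul, mul_inv_cancel₀ s0, one_smul,
      ← mul_assoc s, mul_div_cancel₀ _ s0, ← pow_add, ← pow_add]
    abel
  have t2 : j * u ≤ j * j * u := by rw [mul_assoc]; exact Nat.le_mul_of_pos_left _ hj
  have q2 : v₀ (P ^ τ / s * P ^ u) ^ (μ + 1) * S ^ (F + F + 16) < 1 :=
    lt_of_le_of_lt (by gcongr) h0
  have f1 := half hι hε hP hI hG sG hV (T := T) (Y := U * diagonal fun e => s⁻¹ * D e) c1 c2 l1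
    (q1.trans (p3 u)) u q2 (by rw [← c3]; simp only [Matrix.mul_assoc]) (by omega) e1
  have f2 := half hι hε hP hI' (G := Gᵀ)
    (by rw [← transpose_mul, hG', transpose_smul, transpose_one]) (fun i => by
      obtain ⟨R, Z, z1, z2, z3⟩ := sG i
      exact ⟨Rᵀ, Zᵀ, fun i j => z1 j i, by rw [z2]; rfl, by rwa [rank_transpose]⟩) hU.T (T := T)
    (R := (s⁻¹ • R)ᵀ) (Y := Vᵀ * diagonal fun e => s⁻¹ * D e) c1.T c2.T l1.T (q1.trans (p3 u)) u q2
    (by
      refine Eq.trans ?_ (congrArg transpose c3)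
      rw [transpose_add, transpose_mul, transpose_mul, HG.mk, diagonal_mul_diagonal,
        diagonal_transpose, Matrix.mul_assoc, ← Matrix.mul_assoc (diagonal _),
        diagonal_mul_diagonal]) (t := τ + u) (s := s) (by omega) (congrArg transpose e1)
  rw [show mk K T * Uᵀ = (U * mk K T)ᵀ by rw [transpose_mul, HG.mk, diagonal_transpose],
    rank_transpose, rank_transpose] at f2
  have r1 := rank_smul_le s⁻¹ R
  have r2 := Finset.card_le_univ T
  generalize (U * mk K T).rank = ρ₁ at *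
  generalize (mk K T * V).rank = ρ₂ at *
  generalize (s⁻¹ • R).rank = r' at *
  generalize R.rank = r at *
  generalize T.card = n at *
  generalize Fintype.card ε = m at *
  have a2 : 100 * (j * r) ≤ Fintype.card ι := by
    refine le_of_mul_le_mul_right (a := 13 * (j * u)) ?_ (by positivity)
    have : 3 ≤ j * u := by nlinarith
    nlinarith [Nat.mul_le_mul_right r hk, Nat.mul_le_mul_left (Fintype.card ι) h2,
      Nat.mul_le_mul_left (Fintype.card ι) this]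
  have sd : ∀ ρ : ℕ, 2 * ρ ≤ ρ₁ + ρ₂ → (∃ μ₁ z : ℕ,
      Fintype.card ι * (τ + u) ≤ k * μ₁ + Fintype.card ι * (u + 3) ∧
      Fintype.card ι ≤ z + (ρ + r' + μ) ∧
      1 ≤ v₀ P ^ (u * μ₁ * z) * (S ^ (F + F + 16)) ^ Fintype.card ι) →
      1 ≤ v₀ P ^ (u * Fintype.card ι) * (S ^ (F + F + 16)) ^ (20800 * j ^ 3) :=
    fun ρ hρ ⟨μ₁, z, g1, g2, g3⟩ => by
      refine fin _ _ (by omega) g3 ?_
      generalize Fintype.card ι = N at *
      have a3 : N ≤ 2600 * (j * j * μ₁) := by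
        refine le_of_mul_le_mul_right (a := u) ?_ (by omega)
        nlinarith [Nat.mul_le_mul_right μ₁ hk', Nat.mul_le_mul_left N h1,
          Nat.mul_le_mul_left N hu]
      have a4 : 2 * N ≤ 2 * z + m + 6 * r + 6 * μ + δ + 1 := by omega
      have a5 : N ≤ 8 * (j * z) := by nlinarith [Nat.mul_le_mul_left j a4]
      calc u * N * N ≤ u * (2600 * (j * j * μ₁)) * (8 * (j * z)) := by gcongr
        _ = _ := by ring
  rcases le_total ρ₁ ρ₂ with h | h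
  exacts [sd ρ₁ (by omega) f2, sd ρ₂ (by omega) f1]

theorem abs2 (hι : Big K S ι) (hε : Big K S ε) (hP : (P : K) ≠ 0) (hI : Irr H) (hI' : Irr Hᵀ)
    (hG : G * H = (P : K) ^ k • (1 : Matrix ι ι K))
    (hG' : H * G = (P : K) ^ k • (1 : Matrix ι ι K)) (sH : Spread (loc v₀) P k H)
    (sG : Spread (loc v₀) P k G) (hA : Cp S 1 A) (hU : Cp S 1 U) (hV : Cp S 1 V) (hj : 0 < j)
    (hu : 3 ≤ u) (hk : 1300 * (j * j * u) ≤ k) (hk' : k ≤ 2600 * (j * j * u))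
    (hN : 10 * j ≤ Fintype.card ι)
    (hm : j * Fintype.card ε + Fintype.card ι ≤ 2 * (j * Fintype.card ι)) {s : K}
    (hH : H = s • A + U * diagonal D * V) :
    1 ≤ v₀ P ^ (u * Fintype.card ι) * (S ^ (46 * 625 ^ j + 16)) ^ (20800 * j ^ 3) := by
  have t1 : u ≤ j * u := Nat.le_mul_of_pos_left _ hj
  have c := @core K ι ε _ _ _ _ _ _ S v₀ P k H G
  by_cases h : v₀ (s / P ^ (2 * u + u + u * (4 * j))) ≤ 1
  · refine c (D := D) hι hε hP hI hI' hG hG' sH sG (hι.bas (A := 0) (by simp) (by simp)) hU hV hj hu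
      hk hk' hN hm (hA.lo.smul h) one_ne_zero (τ := 2 * u) ?_ le_rfl (by nlinarith) ?_
    · rw [div_one, map_pow]
      exact pow_le_one₀ (apply_nonneg _ _) (natCast_mem (loc v₀) P)
    · rw [hH, smul_smul, mul_div_cancel₀ _ (pow_ne_zero _ hP), smul_zero, zero_add, add_comm]
  · refine c (D := D) hι hε hP hI hI' hG hG' sH sG hA hU hV hj hu hk hk' hN hm
      (hι.bas (A := 0) (by simp) (by simp)).lo (s := s) (fun h' => h (by simp [h']))
      (τ := 2 * u + u + u * (4 * j)) ?_ (by omega) (by nlinarith) (by rw [hH, smul_zero, add_zero])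
    rw [← inv_div, map_inv₀]
    exact inv_le_one_of_one_le₀ (not_le.1 h).le

end Pool.Agent.MP_5daf37_lc.WF
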