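import Pool.Agent.MP_5daf37_lc.WF.J

/-!
A circuit with one layer of free edges, and the lower bound.
-/

open Matrix Polynomial NumberField

namespace Pool.Agent.MP_5daf37_lc.WF
open FC HG DH

theorem layer {K F : Type} [Field K] {n p q : ℕ} (C : Circuit F n p q) (x : Fin q → K)
    {G : Matrix (Fin q ⊕ Fin p) (Fin q ⊕ Fin p) K} (h : sys C x 1 * G = 1) (e : Fin q) (v : Fin p)
    (hv : ¬ Relation.ReflTransGen (fun a b => ∃ e, C.tail e = a ∧ C.head e = b) (C.head e) v) :
    G (.inr v) (.inl e) = 0 := by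
  have : Std.Irrefl (Relation.TransGen fun a b => ∃ e, C.tail e = a ∧ C.head e = b) := ⟨C.acyclic⟩
  induction v using (Finite.wellFounded_of_trans_of_irrefl
    (Relation.TransGen fun a b => ∃ e, C.tail e = a ∧ C.head e = b)).induction with
  | _ v ih =>
    have h1 := congrFun (congrFun h (.inr v)) (.inl e)
    simp [sys, mul_apply, Fintype.sum_sum_type, one_apply] at h1
    rw [← eq_of_neg_add_eq_zero h1]
    refine Finset.sum_eq_zero fun f _ => ?_
    split_ifs with hf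
    swap
    · rfl
    have h2 := congrFun (congrFun h (.inl f)) (.inl e)
    have h3 : f ≠ e := fun h' => hv (h' ▸ hf ▸ .refl)
    have h4 := ih (C.tail f) (.single ⟨f, rfl, hf⟩) fun h' => hv (h'.tail ⟨f, rfl, hf⟩)
    simpa [sys, mul_apply, Fintype.sum_sum_type, one_apply, h3, h4] using h2

theorem circ1 {K F : Type} [Field K] [Field F] (φ : K →+* F)
    {n p q : ℕ} {ι : Type} [Fintype ι] [DecidableEq ι] (C : Circuit F n p q)
    {f : ι → Fin n} (hf : Function.Injective f) (E : Finset (Fin q)) (x : Fin q → K)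
    (h0 : ∀ e ∈ E, x e = 0) (hw : ∀ e ∉ E, C.weight e = φ (x e))
    (hE : ∀ e ∈ E, ∀ e' ∈ E, ¬ Relation.ReflTransGen (fun a b => ∃ e, C.tail e = a ∧ C.head e = b)
      (C.head e) (C.tail e'))
    {H : Matrix (Fin n) (Fin n) F} (hC : C.Computes H) :
    ∃ (A : Matrix ι ι K) (U : Matrix ι E K) (V : Matrix E ι K) (N : Matrix E E K) (y : E → F),
      Two (fromBlocks A U V N) (fun σ => (2 ^ (p + 2 * q) * ∏ e, max ‖σ (x e)‖ 1) ^ 2) ∧
      (∀ (O : Subring K) (b : Fin q → O), (∀ e, (b e : K) ≠ 0 ∧ b e * x e ∈ O) →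
        (∀ e ∈ E, b e = 1) → Re O.subtype (∏ e, b e) (fromBlocks A U V N)) ∧
      H.submatrix f f = A.map φ + U.map φ * diagonal y * V.map φ := by
  let Q₁ : Matrix ι (Fin q ⊕ Fin p) K := fromCols 0 (Cm K C f)
  let Q₂ : Matrix E (Fin q ⊕ Fin p) K := fromCols 0 (of fun e u => if C.tail e = u then 1 else 0)
  let P₁ : Matrix (Fin q ⊕ Fin p) ι K := fromRows 0 (Bm K C f)
  let P₂ : Matrix (Fin q ⊕ Fin p) E K := fromRows (of fun e e' => if e' = e then 1 else 0) 0
  obtain ⟨G, g1, -⟩ := sys_inv C x 1 fun _ => one_ne_zero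
  obtain ⟨G', g2, g3⟩ := sys_inv C C.weight 1 fun _ => one_ne_zero
  simp only [Pi.one_apply, one_mul] at g1 g2
  have e1 : (sys C x 1).det = 1 := by
    rw [sys, diagonal_one', det_fromBlocks_one₁₁, Matrix.neg_mul, Matrix.mul_neg, neg_neg]
    refine Eq.trans ?_ (det_one_sub_Wm C x)
    congr 2
    ext v u
    simp only [Wm, mul_apply, of_apply]
    refine Finset.sum_congr rfl fun e _ => ?_
    by_cases h : C.head e = v <;> simp [h]
  have e2 : sys C C.weight 1 =
      (sys C x 1).map φ - P₂.map φ * diagonal (fun e : E => C.weight e) * Q₂.map φ := by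
    ext (e | v) (e' | u)
    · simp [sys, one_apply, mul_apply, Q₂, apply_ite φ]
    · by_cases he : e ∈ E
      · rw [Matrix.sub_apply, mul_apply, Finset.sum_eq_single ⟨e, he⟩]
        · simp [sys, P₂, Q₂, h0 e he, apply_ite φ]
        · intro c _ hc
          have : ¬ (c : Fin q) = e := fun h => hc (Subtype.ext h)
          simp [P₂, this]
        · simp
      · have : ∀ c : E, ¬ (c : Fin q) = e := fun c h => he (h ▸ c.2)
        rw [Matrix.sub_apply, mul_apply]
        simp [sys, P₂, this, hw e he, apply_ite φ]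
    · simp [sys, mul_apply, P₂, apply_ite φ]
    · simp [sys, one_apply, mul_apply, P₂, apply_ite φ]
  change sys C C.weight 1 * G' = 1 at g2
  change sys C x 1 * G = 1 at g1
  rw [e2] at g2
  have e3 : H.submatrix f f = Q₁.map φ * G' * P₁.map φ := by
    rw [← Circ02.Tm_eq C H f hC, Tm, ← g3, ← fromBlocks_toBlocks G']
    have c1 : (Cm K C f).map φ = Cm F C f := by ext; simp [Cm, apply_ite φ]
    have c2 : (Bm K C f).map φ = Bm F C f := by ext; simp [Bm, apply_ite φ]
    simp only [Q₁, P₁, fromCols_map, fromRows_map, fromCols_mul_fromBlocks, fromCols_mul_fromRows,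
      c1, c2]
    simp
  obtain ⟨r1, r2, -⟩ := resolvent (show _ * G.map φ = 1 by rw [← Matrix.map_mul, g1]; simp) g2
    (P₁.map φ) (Q₁.map φ)
  have e4 : fromBlocks (Q₁ * G * P₁) (Q₁ * G * P₂) (Q₂ * G * P₁) (Q₂ * G * P₂) =
      fromRows Q₁ Q₂ * G * fromCols P₁ P₂ := by rw [fromRows_mul, fromRows_mul_fromCols]
  have n0 : Q₂ * G * P₂ = 0 := by
    ext e e'
    have := layer C x g1 e' _ (hE e' e'.2 e e.2)
    simpa [Q₂, P₂, mul_apply, Fintype.sum_sum_type] using this
  rw [← Matrix.map_mul, ← Matrix.map_mul, ← Matrix.map_mul, n0,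
    Matrix.map_zero _ (map_zero _), Matrix.zero_mul, Matrix.zero_mul, add_zero] at r2
  refine ⟨Q₁ * G * P₁, Q₁ * G * P₂, Q₂ * G * P₁, Q₂ * G * P₂, fun e => C.weight e, ?_,
    fun O b hb hE => ?_, by rw [r2] at r1; simpa only [Matrix.map_mul, e3] using r1⟩
  · rw [e4]
    convert two_of (Q := fromRows Q₁ Q₂) (P := fromCols P₁ P₂) g1 e1 (fun σ => Sum.elim
      (fun e => 2 * max ‖σ (x e)‖ 1)
      fun v => 2 ^ (1 + (Finset.univ.filter fun e => C.head e = v).card)) (fun σ => ?_)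
      fun σ => ?_ using 3 with σ
    · rw [Fintype.prod_sum_type]
      simp only [Sum.elim_inl, Sum.elim_inr, Finset.prod_mul_distrib, Finset.prod_pow_eq_pow_sum,
        Finset.sum_add_distrib]
      rw [← Finset.card_eq_sum_card_fiberwise fun e _ =>
        Finset.mem_coe.2 (Finset.mem_univ (C.head e))]
      simp
      ring
    · rintro (i | e) <;> simp [Q₁, Q₂, Cm, Fintype.sum_sum_type, apply_ite σ, apply_ite norm]
    · rintro (e | v)
      · have h3 := le_max_right ‖σ (x e)‖ 1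
        have h1 := le_max_left ‖σ (x e)‖ 1
        have h4 := Circ1.sum_ite_le (fun c : E => (c : Fin q) = e) fun i j hi hj =>
          Subtype.ext (hi.trans hj.symm)
        by_cases he : e ∈ E
        · simp [sys, P₁, P₂, h0 e he, Fintype.sum_sum_type, one_apply, apply_ite σ,
            apply_ite norm] at h4 ⊢
          rw [← Nat.cast_le (α := ℝ), Nat.cast_one] at h4
          linarith
        · have : ∀ c : E, ¬ (c : Fin q) = e := fun c h => he (h ▸ c.2)
          simp [sys, P₁, P₂, this, Fintype.sum_sum_type, one_apply, apply_ite σ, apply_ite norm]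
          linarith
      · have h4 := Nat.lt_two_pow_self (n := (Finset.univ.filter fun e => C.head e = v).card)
        have h5 := Circ1.sum_ite_le (fun j => (∀ e, C.head e ≠ v) ∧ C.label v = f j)
          fun i j hi hj => hf (hi.2.symm.trans hj.2)
        simp [sys, P₁, P₂, Bm, Fintype.sum_sum_type, one_apply, apply_ite σ, apply_ite norm,
          pow_add] at h5 ⊢
        norm_cast
        omega
  · let D : Fin q ⊕ Fin p → K := Sum.elim (fun e => b e) 1
    have d0 : ∀ v, D v ≠ 0 := by rintro (e | v) <;> simp [D, hb]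
    have d1 : (sys C (fun e => (⟨_, (hb e).2⟩ : O)) b).map O.subtype = diagonal D * sys C x 1 := by
      ext (e | v) (e' | u) <;> simp [sys, D, diagonal_apply, one_apply, apply_ite ((↑) : O → K)]
    have d2 : diagonal (fun v => (D v)⁻¹) * fromCols P₁ P₂ = fromCols P₁ P₂ := by
      ext (e | v) (j | c) <;> simp [D, P₁, P₂]
      split_ifs with h
      · simp [← h, hE _ c.2]
      · rfl
    have i1 : ∀ i j, fromRows Q₁ Q₂ i j ∈ O := by
      rintro (i | i) (j | j) <;> simp [Q₁, Q₂, Cm, apply_ite (· ∈ O)]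
    have i2 : ∀ i j, fromCols P₁ P₂ i j ∈ O := by
      rintro (i | i) (j | j) <;> simp [P₁, P₂, Bm, apply_ite (· ∈ O)]
    refine ⟨_, inferInstance, inferInstance, sys C (fun e => (⟨_, (hb e).2⟩ : O)) b,
      G * diagonal fun v => (D v)⁻¹, of fun i j => ⟨_, i1 i j⟩, of fun i j => ⟨_, i2 i j⟩, ?_,
      O.subtype_injective ?_, ?_⟩
    · rw [d1, Matrix.mul_assoc, ← Matrix.mul_assoc _ G, g1, Matrix.one_mul, diagonal_mul_diagonal,
        ← diagonal_one]
      congr 1
      funext v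
      exact mul_inv_cancel₀ (d0 v)
    · rw [RingHom.map_det, RingHom.mapMatrix_apply, d1, det_mul, e1, mul_one, det_diagonal,
        Fintype.prod_sum_type]
      simp [D]
    · refine e4.trans (Eq.trans ?_ (Matrix.mul_assoc (fromRows Q₁ Q₂) _ (fromCols P₁ P₂)).symm)
      rw [Matrix.mul_assoc G, d2, Matrix.mul_assoc]

theorem main1 {K F : Type} [Field K] [NumberField K] [Field F] (φ : K →+* F)
    {P k t j g n p q : ℕ} (hP : P.Prime)
    (hg : {𝔭 : Ideal (𝓞 K) | 𝔭.IsPrime ∧ (P : 𝓞 K) ∈ 𝔭}.encard ≤ g) (hj : 0 < j)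
    (hk : 10 ^ 4 * j ^ 2 ≤ k) (W : Matrix (Fin t) (Fin t) K)
    (hW : aeval W (cyclotomic (P ^ k) ℤ) = 0) (hχ : Irreducible W.charpoly)
    (hI : ∀ x y, IsIntegral ℤ (W x y)) (hU : ∀ σ : K →+* ℂ, W.map σ ∈ unitaryGroup (Fin t) ℂ)
    (M : Matrix (Fin n) (Fin n) F) (r c : Fin (P ^ k) × Fin t → Fin n)
    (hc : Function.Injective c) (s₀ : F) (hs₀ : s₀ ≠ 0)
    (hM : ∀ x y, M (r x) (c y) = s₀ * φ ((W ^ (x.1 * y.1 : ℕ)) x.2 y.2))
    (C : Circuit F n p q) (hC : C.Computes M) (E : Finset (Fin q))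
    (hE : j * E.card + P ^ k * t ≤ 2 * j * (P ^ k * t))
    (hL : ∀ e ∈ E, ∀ e' ∈ E, ¬ Relation.ReflTransGen
      (fun a b => ∃ e, C.tail e = a ∧ C.head e = b) (C.head e) (C.tail e'))
    (x : Fin q → K) (hw : ∀ e ∉ E, C.weight e = φ (x e)) :
    (P : ℝ) ^ k * t * (k * Real.logb 2 P / (10 ^ (5 * j + 11) * g) - 1) ≤
      p + q + (∑ e ∈ Eᶜ, Height.logHeight₁ (x e)) / Module.finrank ℚ K := by
  have j1 : 0 < j * j := Nat.mul_pos hj hj
  obtain ⟨k, rfl⟩ := Nat.exists_eq_add_of_le' (show 1 ≤ k by nlinarith)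
  have : NeZero (P ^ (k + 1)) := ⟨pow_ne_zero _ hP.ne_zero⟩
  let x' : Fin q → K := fun e => if e ∈ E then 0 else x e
  have x0 : ∀ e ∈ E, x' e = 0 := fun e he => if_pos he
  obtain ⟨A₀, U, V, N₀, y, c0, c0', c1⟩ := circ1 φ C Function.injective_id E x' x0
    (fun e he => by simpa [x', he] using hw e he) hL hC
  rw [← show ∑ e, Height.logHeight₁ (x' e) = ∑ e ∈ Eᶜ, Height.logHeight₁ (x e) by
    rw [← Finset.sum_add_sum_compl E, Finset.sum_eq_zero fun e he => by simp [x0 e he], zero_add]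
    exact Finset.sum_congr rfl fun e he => by simp [x', Finset.mem_compl.1 he]]
  obtain ⟨d, d1, d2⟩ := ctx x' (2 ^ (p + 2 * q))
  have c2 : ∀ v, Re (loc v).subtype (∏ e, d v e) (fromBlocks A₀ U V N₀) := fun v => by
    have h1 := c0' (loc v) (fun e => if e ∈ E then 1 else d v e) (fun e => by
      split_ifs with he
      exacts [by simp [x0 e he], d1 v e]) fun e he => if_pos he
    have h2 := h1.add ((reInt (O := loc v) (Z := (0 : Matrix (Fin n ⊕ E) (Fin q) K))
      fun _ _ => zero_mem _).mul ((diag (f := (loc v).subtype) 0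
        (fun e => if e ∈ E then d v e else 1) fun e => by
          split_ifs
          exacts [(d1 v e).1, by simp]).mul (reInt (O := loc v)
            (Z := (0 : Matrix (Fin q) (Fin n ⊕ E) K)) fun _ _ => zero_mem _)))
    rw [Matrix.zero_mul, add_zero, one_mul, mul_one, ← Finset.prod_mul_distrib] at h2
    convert h2 using 3 with e
    split_ifs <;> simp
  obtain ⟨g0, v₀, hv⟩ := place hP.one_lt hg
  let _ := φ.toAlgebra
  obtain ⟨τ, hτ⟩ := (Algebra.linearMap K F).exists_leftInverse_of_injective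
    (LinearMap.ker_eq_bot.2 φ.injective)
  have τ1 : ∀ z, τ (φ z) = z := LinearMap.congr_fun hτ
  have τ2 : ∀ z w, τ (φ z * w) = z * τ w := fun z w => τ.map_smul z w
  have e0 : Hm (P ^ (k + 1)) W = τ s₀⁻¹ • A₀.submatrix r c +
      U.submatrix r id * diagonal (fun e => τ (s₀⁻¹ * y e)) * V.submatrix id c := by
    ext i i'
    have h1 := (hM i i').symm.trans (congrFun (congrFun c1 (r i)) (c i'))
    rw [← eq_inv_mul_iff_mul_eq₀ hs₀, Matrix.add_apply, mul_apply, mul_add, Finset.mul_sum] at h1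
    have h2 := congrArg τ h1
    rw [τ1, map_add, map_sum, mul_comm s₀⁻¹, map_apply, τ2] at h2
    rw [Matrix.add_apply, mul_apply, Matrix.smul_apply, smul_eq_mul, mul_comm (τ _)]
    refine h2.trans (congrArg _ (Finset.sum_congr rfl fun e _ => ?_))
    rw [mul_diagonal, mul_diagonal, map_apply, map_apply, mul_right_comm _ (τ _), ← τ2, map_mul φ]
    congr 1
    simp only [submatrix_apply, id]
    ring
  obtain ⟨R, _, _, ω, hω, hR⟩ := universal (P ^ (k + 1)) (pow_pos hP.pos _)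
  obtain ⟨ψ, ψ1, ψ2⟩ := hR _ W hW
  let Ψ := (compRingEquiv (Fin (P ^ (k + 1))) (Fin t) K).toRingHom.comp ψ.mapMatrix
  have p0 : (P : K) ≠ 0 := Nat.cast_ne_zero.2 hP.ne_zero
  have i0 : ∀ (v : FinitePlace K) (j : ℕ) x y, v ((W ^ j) x y) ≤ 1 := fun v j => by
    induction j with
    | zero => intro x y; by_cases h : x = y <;> simp [one_apply, h]
    | succ j ih => exact pow_succ W j ▸ mul_int (na v) ih fun x y => loc_int v (hI x y)
  have i1 : ∀ M i j, Ψ M i j ∈ loc v₀ := fun M i j => by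
    have : ∀ (r : ℤ[X]) x y, aeval W r x y ∈ loc v₀ := fun r x y => by
      induction r using Polynomial.induction_on' with
      | add r r' h1 h2 => rw [map_add]; exact add_mem h1 h2
      | monomial j c =>
        rw [aeval_monomial, ← Algebra.smul_def, Matrix.smul_apply]
        exact zsmul_mem (i0 v₀ j x y) c
    obtain ⟨r, hr⟩ := ψ2 (M i.1 j.1)
    exact (hr ▸ this r _ _ : ψ (M i.1 j.1) i.2 j.2 ∈ loc v₀)
  have i2 : ∀ (c : ℕ) M, Ψ ((P : R) ^ c • M) = (P : K) ^ c • Ψ M := fun c M => by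
    rw [← Nat.cast_pow, ← Nat.cast_pow, Nat.cast_smul_eq_nsmul, Nat.cast_smul_eq_nsmul, map_nsmul]
  have hn : Fintype.card (Fin (P ^ (k + 1)) × Fin t) = P ^ (k + 1) * t := by simp
  have i3 : ∀ η : R, IsPrimitiveRoot η (P ^ (k + 1)) → Spread (loc v₀) P (k + 1) (Ψ (dft _ η)) :=
    fun η hη c => by
      obtain ⟨T, X, Y, Z, h1, h2⟩ := dft_split hP hη c
      refine ⟨Ψ X * Ψ (HG.mk R T) * Ψ Y, _, i1 Z, by rw [h1, map_add, map_mul, map_mul, i2], ?_⟩
      have e : Ψ (HG.mk R T) = HG.mk K (T ×ˢ Finset.univ) := by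
        ext ⟨i, x⟩ ⟨j, y⟩
        by_cases hij : i = j <;> by_cases hi : j ∈ T <;>
          simp [Ψ, HG.mk, diagonal_apply, one_apply, hij, hi]
      have h4 := (rank_mul_le_left (Ψ X * Ψ (HG.mk R T)) (Ψ Y)).trans ((rank_mul_le_right _ _).trans
        (e ▸ rank_mk _))
      rw [Finset.card_product, Finset.card_univ, Fintype.card_fin] at h4
      rw [hn]
      nlinarith [Nat.mul_le_mul_left (k + 1) h4, Nat.mul_le_mul_right t h2]
  obtain ⟨s, hs⟩ := Nat.exists_eq_add_of_le' (pow_pos hP.pos (k + 1))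
  have i5 : Ψ (dft _ ω) * Ψ (dft _ (ω ^ s)) = (P : K) ^ (k + 1) • 1 := by
    rw [← map_mul, ← map_one Ψ, ← i2, ← Nat.cast_pow]
    congr 1
    generalize P ^ (k + 1) = n at hs hω
    subst hs
    exact dft_mul hω
  have e1 : Ψ (dft _ ω) = Hm (P ^ (k + 1)) W := by
    ext x z; simp [Hm, Ψ, dft, ψ1]
  have i6 : Ψ (dft _ (ω ^ s)) * Ψ (dft _ ω) = (P : K) ^ (k + 1) • 1 := by
    have h : ((P : K) ^ (k + 1))⁻¹ • Ψ (dft _ ω) * Ψ (dft _ (ω ^ s)) = 1 := by
      rw [Matrix.smul_mul, i5, smul_smul, inv_mul_cancel₀ (pow_ne_zero _ p0), one_smul]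
    rw [← mul_eq_one_comm.1 h, Matrix.mul_smul, smul_smul, mul_inv_cancel₀ (pow_ne_zero _ p0),
      one_smul]
  have i7 : Irr (Hm (P ^ (k + 1)) W)ᵀ := by
    have h : ∀ r : ℤ[X], aeval Wᵀ r = (aeval W r)ᵀ := fun r => by
      induction r using Polynomial.induction_on' with
      | add r r' h1 h2 => simp [h1, h2]
      | monomial j c => simp only [aeval_monomial, ← Algebra.smul_def, transpose_smul, transpose_pow]
    convert irr (n := P ^ (k + 1)) (W := Wᵀ) (by rw [h, hW, transpose_zero])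
      (by rwa [charpoly_transpose]) (fun v j x y => transpose_pow W j ▸ i0 v j y x)
      fun σ => transpose_mem_unitaryGroup_iff.2 (hU σ) using 1
    ext x y
    simp [Hm, ← transpose_pow, mul_comm]
  obtain ⟨u, hu⟩ : ∃ u, u = (k + 1) / (1300 * (j * j)) := ⟨_, rfl⟩
  have u1 := Nat.mul_div_le (k + 1) (1300 * (j * j))
  have u2 := Nat.lt_mul_div_succ (k + 1) (show 0 < 1300 * (j * j) by omega)
  rw [← hu] at u1 u2
  have u3 : 3 ≤ u := by
    by_contra h
    nlinarith [Nat.mul_le_mul_left (1300 * (j * j)) (show u + 1 ≤ 3 by omega)]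
  have u4 : k + 1 ≤ 2600 * (j * j * u) := by nlinarith [Nat.mul_le_mul_left (j * j) u3]
  have m1 : 1 ≤ ∏ e, Height.mulHeight₁ (x' e) :=
    Finset.one_le_prod fun e _ => Height.one_le_mulHeight₁ _
  have t0 : 0 < t := Nat.pos_of_ne_zero fun h => by
    subst h
    exact hχ.not_isUnit (by simp [charpoly])
  have n1 : 10 * j ≤ P ^ (k + 1) * t := by
    nlinarith [Nat.lt_pow_self (n := k + 1) hP.one_lt, Nat.le_mul_of_pos_right (P ^ (k + 1)) t0,
      Nat.le_mul_of_pos_right j hj]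
  have n2 : E.card ≤ 2 * (P ^ (k + 1) * t) := by
    refine le_of_mul_le_mul_left (a := j) ?_ hj
    nlinarith
  have cv := fun {l m : Type} [Fintype l] [DecidableEq l] [Fintype m] [DecidableEq m] =>
    conv (l := l) (m := m) d2 c0 c2
  have s1 : 1 ≤ (((2 : ℝ) ^ (p + 2 * q)) ^ 2) ^ Module.finrank ℚ K *
      (∏ e, Height.mulHeight₁ (x' e)) ^ 5 := one_le_mul_of_one_le_of_one_le
    (one_le_pow₀ (one_le_pow₀ (one_le_pow₀ one_le_two))) (one_le_pow₀ m1)
  obtain ⟨S, hS⟩ : ∃ S, S = (((2 : ℝ) ^ (p + 2 * q)) ^ 2) ^ Module.finrank ℚ K *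
    (∏ e, Height.mulHeight₁ (x' e)) ^ 5 * (2 ^ (3 * (P ^ (k + 1) * t))) ^ Module.finrank ℚ K :=
    ⟨_, rfl⟩
  have s2 : ∀ i, i ≤ 3 * (P ^ (k + 1) * t) → ∀ z : ℝ, z ≤ (((2 : ℝ) ^ (p + 2 * q)) ^ 2) ^
      Module.finrank ℚ K * (∏ e, Height.mulHeight₁ (x' e)) ^ 5 * (2 ^ i) ^ Module.finrank ℚ K →
      z ≤ S ^ 1 := fun i hi z hz => hz.trans (by
    rw [pow_one, hS]
    gcongr
    norm_num)
  have s3 : ∀ (l : Type) [Fintype l], Fintype.card l ≤ 3 * (P ^ (k + 1) * t) → Big K S l :=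
    fun l _ hl => pow_one S ▸ s2 _ hl _ (le_mul_of_one_le_left (by positivity) s1)
  have h1 := abs2 (u := u) (v₀ := v₀) (s3 _ (by rw [hn]; omega))
    (s3 E (by rw [Fintype.card_coe]; omega)) p0
    (irr hW hχ i0 hU) i7 (e1 ▸ i6) (e1 ▸ i5) (e1 ▸ i3 ω hω)
    (i3 _ (hω.pow_of_coprime s (by simp [hs])))
    (s2 _ (by rw [hn]; omega) _ (cv (Sum.inl ∘ r) (Sum.inl_injective.comp hc)))
    (s2 _ (by rw [hn, Fintype.card_coe]; omega) _ (cv (Sum.inl ∘ r) Sum.inr_injective))
    (s2 _ (by rw [hn, Fintype.card_coe]; omega) _ (cv Sum.inr (Sum.inl_injective.comp hc)))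
    hj u3 (by rw [← mul_assoc]; exact u1) u4 (by rwa [hn])
    (by rw [hn, Fintype.card_coe, ← mul_assoc]; exact hE) e0
  rw [hn, hS, ← pow_mul] at h1
  have b0 : (46 * 625 ^ j + 16) * (20800 * j ^ 3) * (20800 * (j * j)) ≤ 10 ^ (5 * j + 11) := by
    have a1 : j ^ 5 ≤ 32 ^ j := (Nat.pow_le_pow_left Nat.lt_two_pow_self.le 5).trans_eq (by
      rw [← pow_mul, mul_comm, pow_mul]; norm_num)
    have a2 : 1 ≤ 625 ^ j := Nat.one_le_pow _ _ (by norm_num)
    calc _ = (46 * 625 ^ j + 16) * 20800 ^ 2 * j ^ 5 := by ring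
      _ ≤ 62 * 625 ^ j * 20800 ^ 2 * 32 ^ j := by gcongr; omega
      _ = 62 * 20800 ^ 2 * (625 * 32) ^ j := by rw [mul_pow]; ring
      _ ≤ 10 ^ 11 * (10 ^ 5) ^ j := by gcongr <;> norm_num
      _ = _ := by rw [← pow_mul]; ring
  generalize (46 * 625 ^ j + 16) * (20800 * j ^ 3) = B at h1 b0
  have b1 : (B : ℝ) * (20800 * (j * j)) ≤ 10 ^ (5 * j + 11) := by exact_mod_cast b0
  generalize (10 : ℝ) ^ (5 * j + 11) = T at b1 ⊢
  have d0 : (0 : ℝ) < Module.finrank ℚ K := by exact_mod_cast Module.finrank_pos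
  have h5 : 0 ≤ (∑ e, Height.logHeight₁ (x' e)) / Module.finrank ℚ K := by positivity
  have h6 : Real.logb 2 (∏ e, Height.mulHeight₁ (x' e)) * 5 ≤ Module.finrank ℚ K *
      (8 * ((∑ e, Height.logHeight₁ (x' e)) / Module.finrank ℚ K)) := by
    rw [mul_left_comm, mul_div_cancel₀ _ d0.ne', Real.logb,
      Real.log_prod fun e _ => (Height.mulHeight₁_pos _).ne', div_mul_eq_mul_div,
      div_le_iff₀ (Real.log_pos one_lt_two)]
    simp only [← Height.logHeight₁_eq_log_mulHeight₁]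
    have : 0 ≤ ∑ e, Height.logHeight₁ (x' e) := by positivity
    nlinarith only [Real.log_two_gt_d9, this]
  clear cv s1 s2 s3 hS d2
  generalize (∑ e, Height.logHeight₁ (x' e)) / Module.finrank ℚ K = h at *
  generalize ∏ e, Height.mulHeight₁ (x' e) = M' at *
  have p1 : (1 : ℝ) < P := by exact_mod_cast hP.one_lt
  have p2 : 0 < v₀ P := FinitePlace.pos_iff.2 p0
  have h2 := Real.logb_nonneg one_lt_two h1
  have h3 := Real.logb_nonpos one_lt_two (by positivity) hv
  rw [Real.logb_mul (by positivity) (by positivity), Real.logb_pow, Real.logb_pow] at h3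
  rw [Real.logb_mul (by positivity) (by positivity), Real.logb_pow, Real.logb_pow,
    Real.logb_mul (by positivity) (by positivity), Real.logb_mul (by positivity) (by positivity)]
    at h2
  simp only [Real.logb_pow, Real.logb_self_eq_one one_lt_two] at h2
  have h4 := (Real.logb_pos one_lt_two p1).le
  have h7 : ((k + 1 : ℕ) : ℝ) ≤ 2600 * (j * j * u) := by exact_mod_cast u4
  have g1 : (0 : ℝ) < g := by exact_mod_cast g0
  have j2 : (0 : ℝ) < j := by exact_mod_cast hj
  push_cast at h2 h7 ⊢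
  generalize Real.logb 2 (v₀ P) = y₀ at *
  generalize Real.logb 2 P = L at *
  generalize Real.logb 2 M' = y₁ at *
  generalize (Module.finrank ℚ K : ℝ) = D' at *
  have n0 : (0 : ℝ) ≤ P ^ (k + 1) * t := by positivity
  generalize (P : ℝ) ^ (k + 1) * t = N at *
  have z0 : (0 : ℝ) ≤ p + q + h + N := by positivity
  have a1 : D' * (u * N * L) ≤ D' * (B * g * (8 * (p + q + h + N))) := by
    have b1 := mul_le_mul_of_nonneg_left h2 g1.le
    have b2 := mul_le_mul_of_nonneg_left h3 (show (0 : ℝ) ≤ u * N by positivity)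
    have b3 := mul_le_mul_of_nonneg_left h6 (show (0 : ℝ) ≤ B * g by positivity)
    have b4 : (0 : ℝ) ≤ D' * (B * g * (6 * p + 4 * q + 5 * N)) := by positivity
    linarith only [b1, b2, b3, b4]
  have a2 := mul_le_mul_of_nonneg_left (le_of_mul_le_mul_left a1 d0)
    (show (0 : ℝ) ≤ 2600 * (j * j) by positivity)
  have a3 := mul_le_mul_of_nonneg_left h7 (mul_nonneg n0 h4)
  have a4 := mul_le_mul_of_nonneg_right b1 (mul_nonneg g1.le z0)
  rcases (show 0 ≤ T from le_trans (by positivity) b1).eq_or_lt with rfl | T0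
  · simp only [zero_mul, div_zero]
    linarith
  rw [mul_sub, ← mul_div_assoc, sub_le_iff_le_add, div_le_iff₀ (by positivity)]
  linarith only [a2, a3, a4]

end Pool.Agent.MP_5daf37_lc.WF
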